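import Pool.Agent.MP_5c967c_co.H46.Area

/-! Seventh roots of unity in terms of `c = cos (π / 7)` and `s = sin (2 π / 7)`. -/

namespace Pool.Agent.MP_5c967c_co.H80L

open Real

/-- the cosine -/
noncomputable def c : ℝ := cos (π / 7)

/-- the sine -/
noncomputable def s : ℝ := sin (2 * π / 7)

/-- the root of unity -/
noncomputable def w : ℂ := ⟨2 * c ^ 2 - 1, s⟩

theorem c_lo : 0.89 < c := by
  have h := one_sub_sq_div_two_le_cos (x := π / 7)
  have := pi_lt_d2
  have := pi_pos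
  unfold c
  nlinarith

theorem hc : 8 * c ^ 3 - 4 * c ^ 2 - 4 * c + 1 = 0 := by
  have h3 := cos_three_mul (π / 7)
  have h2 := cos_two_mul (π / 7)
  have h4 := cos_two_mul (2 * (π / 7))
  have e : cos (2 * (2 * (π / 7))) = -cos (3 * (π / 7)) := by
    rw [← cos_pi_sub]; congr 1; ring
  have : (c + 1) * (8 * c ^ 3 - 4 * c ^ 2 - 4 * c + 1) = 0 := by
    unfold c
    rw [e, h3, h2] at h4
    linear_combination -h4
  exact (mul_eq_zero.1 this).resolve_left (by linarith [c_lo])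

theorem cos1 : cos (2 * π / 7) = 2 * c ^ 2 - 1 := by
  unfold c; rw [← cos_two_mul]; congr 1; ring

theorem hs : s ^ 2 - (1 / 4 - 1 / 2 * c + c ^ 2) = 0 := by
  have := sin_sq_add_cos_sq (2 * π / 7)
  rw [cos1] at this
  unfold s
  linear_combination this - (c / 2 + 1 / 4) * hc

theorem s_pos : 0 < s := sin_pos_of_pos_of_lt_pi (by positivity) (by linarith [pi_pos])

theorem c_bd : 0.90096886 ≤ c ∧ c ≤ 0.90096887 := by
  have := c_lo
  have h := hc
  constructor <;> by_contra hh <;> push Not at hh <;> nlinarith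

theorem c2_bd : 0.81174488 ≤ c ^ 2 ∧ c ^ 2 ≤ 0.81174491 := by
  obtain ⟨a, b⟩ := c_bd
  constructor <;> nlinarith

theorem s_bd : 0.7818314 ≤ s ∧ s ≤ 0.7818315 := by
  obtain ⟨a, b⟩ := c_bd
  obtain ⟨a', b'⟩ := c2_bd
  have := s_pos
  have h := hs
  constructor <;> by_contra hh <;> push Not at hh <;> nlinarith

theorem w_pow (k : ℕ) : w ^ k = ⟨cos (2 * π * k / 7), sin (2 * π * k / 7)⟩ := by
  induction k with
  | zero => simp [Complex.ext_iff]
  | succ k ih =>
    rw [pow_succ, ih, show 2 * π * ((k + 1 : ℕ) : ℝ) / 7 = 2 * π * k / 7 + 2 * π / 7 by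
      push_cast; ring, cos_add, sin_add, cos1]
    simp only [w, s, Complex.ext_iff, Complex.mul_re, Complex.mul_im]
    exact ⟨trivial, by ring⟩

theorem w7 : w ^ 7 = 1 := by
  rw [w_pow, show 2 * π * ((7 : ℕ) : ℝ) / 7 = 2 * π by push_cast; ring]
  simp [Complex.ext_iff]

theorem norm_w (k : ℕ) : ‖w ^ k‖ = 1 := by
  have : ‖w‖ ^ 7 = 1 := by rw [← norm_pow, w7, norm_one]
  rw [norm_pow, (pow_eq_one_iff_of_nonneg (norm_nonneg _) (by norm_num)).1 this, one_pow]

theorem w_mod (n : ℕ) : w ^ n = w ^ (n % 7) := by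
  conv_lhs => rw [← Nat.div_add_mod n 7, pow_add, pow_mul, w7, one_pow, one_mul]

/-- the table of powers -/
noncomputable def tb : ℕ → ℂ
  | 0 => ⟨1, 0⟩
  | 1 => ⟨2 * c ^ 2 - 1, s⟩
  | 2 => ⟨1 / 2 + c - 2 * c ^ 2, (4 * c ^ 2 - 2) * s⟩
  | 3 => ⟨-c, (2 + 2 * c - 4 * c ^ 2) * s⟩
  | 4 => ⟨-c, -((2 + 2 * c - 4 * c ^ 2) * s)⟩
  | 5 => ⟨1 / 2 + c - 2 * c ^ 2, -((4 * c ^ 2 - 2) * s)⟩
  | _ => ⟨2 * c ^ 2 - 1, -s⟩

theorem w_tb (n : ℕ) : w ^ n = tb (n % 7) := by
  have st : ∀ k, w ^ k = tb k → tb k * w = tb (k + 1) → w ^ (k + 1) = tb (k + 1) :=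
    fun k h1 h2 => by rw [pow_succ, h1, h2]
  have h0 : w ^ 0 = tb 0 := by simp [tb, Complex.ext_iff]
  have h1 := st 0 h0 (by simp [tb, w, Complex.ext_iff])
  have h2 := st 1 h1 (by
    simp only [tb, w, Complex.ext_iff, Complex.mul_re, Complex.mul_im]
    constructor
    · linear_combination (c / 2 + 1 / 4) * hc - hs
    · ring)
  have h3 := st 2 h2 (by
    simp only [tb, w, Complex.ext_iff, Complex.mul_re, Complex.mul_im]
    constructor
    · linear_combination (-c) * hc - (4 * c ^ 2 - 2) * hs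
    · linear_combination (c + 1 / 2) * s * hc)
  have h4 := st 3 h3 (by
    simp only [tb, w, Complex.ext_iff, Complex.mul_re, Complex.mul_im]
    constructor
    · linear_combination (c / 2 - 1 / 2) * hc - (2 + 2 * c - 4 * c ^ 2) * hs
    · linear_combination (-c) * s * hc)
  have h5 := st 4 h4 (by
    simp only [tb, w, Complex.ext_iff, Complex.mul_re, Complex.mul_im]
    constructor
    · linear_combination (-c / 2) * hc + (2 + 2 * c - 4 * c ^ 2) * hs
    · linear_combination c * s * hc)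
  have h6 := st 5 h5 (by
    simp only [tb, w, Complex.ext_iff, Complex.mul_re, Complex.mul_im]
    constructor
    · linear_combination (0 : ℝ) * hc + (4 * c ^ 2 - 2) * hs
    · linear_combination (-c - 1 / 2) * s * hc)
  rw [w_mod]
  have : n % 7 < 7 := Nat.mod_lt _ (by norm_num)
  generalize n % 7 = m at *
  interval_cases m <;> assumption

end Pool.Agent.MP_5c967c_co.H80L
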