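import Pool.Agent.MP_5c967c_co.H80L.J

/-! The first order estimate in one direction. -/

namespace Pool.Agent.MP_5c967c_co.H80L

/-- closeness to a rational point -/
def Cl (z : ℂ) (x y e : ℝ) : Prop := x - e ≤ z.re ∧ z.re ≤ x + e ∧ y - e ≤ z.im ∧ z.im ≤ y + e

/-- a point of `K` at radial height `h` over the chord `a b` -/
def Nr (K : Set ℂ) (a b : ℂ) (lo hi h : ℝ) : Prop :=
  0 ≤ h ∧ ∃ t, lo ≤ t ∧ t ≤ hi ∧ (1 + h) • ((1 - t) • a + t • b) ∈ K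

/-- longest horizontal chord and extreme chords of half its length -/
structure Con (K : Set ℂ) (l : ℝ) (M U L : ℂ) : Prop where
  hM : M ∈ K
  hT : M + (2 * l : ℝ) ∈ K
  mx : ∀ p ∈ K, ∀ t : ℝ, p + t ∈ K → t ≤ 2 * l
  hU : U ∈ K
  hU' : U + l ∈ K
  hL : L ∈ K
  hL' : L + l ∈ K
  ex : ∀ p ∈ K, p + l ∈ K → L.im ≤ p.im ∧ p.im ≤ U.im

/-- outer bound -/
def Out (z : ℂ) : Prop :=
  -0.90099 ≤ z.re ∧ -0.90099 ≤ 0.62349 * z.re - 0.781831 * z.im ∧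
  -0.90099 ≤ -0.222521 * z.re - 0.974928 * z.im ∧ -0.90099 ≤ -0.900969 * z.re - 0.433884 * z.im ∧
  -0.90099 ≤ -0.900969 * z.re + 0.433884 * z.im ∧ -0.90099 ≤ -0.222521 * z.re + 0.974928 * z.im ∧
  -0.90099 ≤ 0.62349 * z.re + 0.781831 * z.im

/-- the vertices are close to the regular ones -/
structure Cv (V : ℕ → ℂ) : Prop where
  c0 : Cl (V 0) 1 0 0.00002
  c1 : Cl (V 1) 0.62349 0.781831 0.00002
  c2 : Cl (V 2) (-0.222521) 0.974928 0.00002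
  c3 : Cl (V 3) (-0.900969) 0.433884 0.00002
  c4 : Cl (V 4) (-0.900969) (-0.433884) 0.00002
  c5 : Cl (V 5) (-0.222521) (-0.974928) 0.00002
  c6 : Cl (V 6) 0.62349 (-0.781831) 0.00002

theorem pb {x y A B : ℝ} (h1 : -A ≤ x) (h2 : x ≤ A) (h3 : -B ≤ y) (h4 : y ≤ B) :
    -(A * B) ≤ x * y ∧ x * y ≤ A * B :=
  abs_le.1 (by
    rw [abs_mul]
    exact mul_le_mul (abs_le.2 ⟨h1, h2⟩) (abs_le.2 ⟨h3, h4⟩) (abs_nonneg _) (by linarith))

theorem dlin {a b : ℂ} {A1 A2 B1 B2 e e' : ℝ} (ha : Cl a A1 A2 e) (hb : Cl b B1 B2 e') :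
    A1 * b.im - A2 * b.re + a.re * B2 - a.im * B1 - (A1 * B2 - A2 * B1) - 2 * (e * e') ≤ dt a b ∧
    dt a b ≤ A1 * b.im - A2 * b.re + a.re * B2 - a.im * B1 - (A1 * B2 - A2 * B1) + 2 * (e * e') := by
  obtain ⟨a1, a2, a3, a4⟩ := ha
  obtain ⟨b1, b2, b3, b4⟩ := hb
  have h1 := pb (x := a.re - A1) (y := b.im - B2) (A := e) (B := e') (by linarith) (by linarith)
    (by linarith) (by linarith)
  have h2 := pb (x := a.im - A2) (y := b.re - B1) (A := e) (B := e') (by linarith) (by linarith)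
    (by linarith) (by linarith)
  unfold dt
  constructor <;> linarith [h1.1, h1.2, h2.1, h2.2]

theorem Cl.sub {a b : ℂ} {A1 A2 B1 B2 e e' : ℝ} (ha : Cl a A1 A2 e) (hb : Cl b B1 B2 e') :
    Cl (a - b) (A1 - B1) (A2 - B2) (e + e') := by
  obtain ⟨a1, a2, a3, a4⟩ := ha
  obtain ⟨b1, b2, b3, b4⟩ := hb
  refine ⟨?_, ?_, ?_, ?_⟩ <;> simp only [Complex.sub_re, Complex.sub_im] <;> linarith

variable {K : Set ℂ}

theorem rep (hK : Convex ℝ K) {a b q : ℂ} (ha : a ∈ K) (hb : b ∈ K) (hq : q ∈ K) {lo hi : ℝ}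
    (hD : 0 < dt a b) (hS : 0 < dt a q + dt q b) (h1 : lo * (dt a q + dt q b) ≤ dt a q)
    (h2 : dt a q ≤ hi * (dt a q + dt q b)) (l0 : 0 ≤ lo) (l1 : hi ≤ 1) :
    ∃ h, Nr K a b lo hi h ∧ dt a q + dt q b - dt a b ≤ h * dt a b := by
  have t0 := (le_div_iff₀ hS).2 h1
  have t1 := (div_le_iff₀ hS).2 h2
  rcases le_total (dt a b) (dt a q + dt q b) with h | h
  · refine ⟨(dt a q + dt q b) / dt a b - 1, ⟨by rwa [sub_nonneg, one_le_div hD], _, t0, t1, ?_⟩,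
      le_of_eq (by field_simp)⟩
    convert hq using 1
    apply Complex.ext <;> simp only [Complex.smul_re, Complex.smul_im, Complex.add_re,
      Complex.add_im, smul_eq_mul] <;> field_simp <;> unfold dt <;> ring
  · exact ⟨0, ⟨le_rfl, _, t0, t1, by
      simpa using hK ha hb (by linarith) (l0.trans t0) (sub_add_cancel 1 _)⟩, by linarith⟩

theorem mem_tri (hK : Convex ℝ K) (h0 : 0 ∈ K) {a b z : ℂ} (ha : a ∈ K) (hb : b ∈ K)
    (hD : 0 < dt a b) (h1 : 0 ≤ dt z b) (h2 : 0 ≤ dt a z) (h3 : dt z b + dt a z ≤ dt a b) :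
    z ∈ K := by
  have h := hK.sum_mem (t := Finset.univ)
    (w := ![1 - (dt z b + dt a z) / dt a b, dt z b / dt a b, dt a z / dt a b]) (z := ![0, a, b])
    (by
      intro i _
      fin_cases i
      · simpa using (div_le_one hD).2 h3
      · exact div_nonneg h1 hD.le
      · exact div_nonneg h2 hD.le)
    (by simp [Fin.sum_univ_three]; ring) (by intro i _; fin_cases i <;> simpa)
  simp only [Fin.sum_univ_three, Matrix.cons_val] at h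
  convert h using 1
  apply Complex.ext <;> simp only [Complex.smul_re, Complex.smul_im, Complex.add_re,
    Complex.add_im, smul_eq_mul, Complex.zero_re, Complex.zero_im] <;> field_simp <;> unfold dt <;>
    ring

theorem seg (hK : Convex ℝ K) {a : ℂ} {l t : ℝ} (ha : a ∈ K) (hb : a + t ∈ K) (h0 : 0 ≤ l)
    (h1 : l ≤ t) (ht : 0 < t) : a + l ∈ K := by
  convert hK ha hb (a := 1 - l / t) (b := l / t) (by rwa [sub_nonneg, div_le_one ht])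
    (by positivity) (by ring) using 1
  apply Complex.ext <;> simp only [Complex.smul_re, Complex.smul_im, Complex.add_re,
    Complex.add_im, smul_eq_mul, Complex.ofReal_re, Complex.ofReal_im] <;> field_simp <;> ring

theorem Cv.dets {V : ℕ → ℂ} (cv : Cv V) : 0.7817 ≤ dt (V 0) (V 1) ∧ dt (V 0) (V 1) ≤ 0.7819 ∧
    0 < dt (V 0) (V 2) ∧ 0 < dt (V 0) (V 3) := by
  have d1 := dlin cv.c0 cv.c1
  have d2 := dlin cv.c0 cv.c2
  have d3 := dlin cv.c0 cv.c3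
  obtain ⟨⟨_, _, _, _⟩, ⟨_, _, _, _⟩, ⟨_, _, _, _⟩, ⟨_, _, _, _⟩, -⟩ := cv
  refine ⟨?_, ?_, ?_, ?_⟩ <;> linarith [d1.1, d1.2, d2.1, d3.1]

theorem l0_bd {V : ℕ → ℂ} (cv : Cv V) : 0 ≤ sM V ∧ sM V ≤ 1 ∧ 0.950444 ≤ l0 V ∧ l0 V ≤ 1 := by
  obtain ⟨⟨_, _, _, _⟩, -, -, ⟨_, _, _, _⟩, ⟨_, _, _, _⟩, -⟩ := cv
  have s0 : 0 ≤ sM V := div_nonneg_of_nonpos (by linarith) (by linarith)
  have s1 : sM V ≤ 1 := (div_le_one_of_neg (by linarith)).2 (by linarith)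
  have := pb (x := sM V) (y := (V 4).re - (V 3).re) (A := 1) (B := 0.00004) (by linarith) s1
    (by linarith) (by linarith)
  exact ⟨s0, s1, by unfold l0; linarith [this.2], by unfold l0; linarith [this.1]⟩

theorem loc (hK : Convex ℝ K) {V : ℕ → ℂ} (h0 : 0 ∈ K) (hV : ∀ j, V j ∈ K) (cv : Cv V)
    (out : ∀ z ∈ K, Out z) {l : ℝ} {M U L : ℂ} (h : Con K l M U L) :
    0.950444 ≤ l ∧ l ≤ 0.950507 ∧ Cl M (-0.9009) 0 0.0003 ∧ Cl (M + (2 * l : ℝ)) 1 0 0.0003 ∧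
      Cl U (-0.43385) 0.80624 0.0004 ∧ Cl (U + l) 0.5166 0.80624 0.0004 ∧
      Cl L (-0.43385) (-0.80624) 0.0004 ∧ Cl (L + l) 0.5166 (-0.80624) 0.0004 := by
  obtain ⟨s0, s1, s2, -⟩ := l0_bd cv
  have d12 := dlin cv.c1 cv.c2
  have d23 := dlin cv.c2 cv.c3
  have d45 := dlin cv.c4 cv.c5
  have d56 := dlin cv.c5 cv.c6
  obtain ⟨-, ⟨_, _, _, _⟩, ⟨_, _, _, _⟩, ⟨_, _, _, _⟩, ⟨_, _, _, _⟩, ⟨_, _, _, _⟩, ⟨_, _, _, _⟩⟩ := cv
  have a1 : 2 * l0 V ≤ 2 * l := h.mx _ (hK (hV 3) (hV 4) (sub_nonneg.2 s1) s0 (sub_add_cancel 1 _))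
    _ (by
      convert hV 0 using 1
      have : (V 4).im - (V 3).im ≠ 0 := by linarith [show (V 4).im - (V 3).im < 0 by linarith]
      apply Complex.ext <;> simp only [Complex.smul_re, Complex.smul_im, Complex.add_re,
        Complex.add_im, smul_eq_mul, Complex.ofReal_re, Complex.ofReal_im]
      · unfold l0; ring
      · unfold sM; field_simp; ring)
  have oM := (out _ h.hM).1
  obtain ⟨-, -, -, oT1, oT2, -⟩ := out _ h.hT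
  simp only [Complex.add_re, Complex.add_im, Complex.ofReal_re, Complex.ofReal_im] at oT1 oT2
  have l1 : l ≤ 0.950507 := by linarith
  have m : ∀ (a b : ℂ) (x y : ℝ), a ∈ K → b ∈ K → 0 < dt a b → 0 ≤ x * b.im - y * b.re →
      0 ≤ a.re * y - a.im * x → x * b.im - y * b.re + (a.re * y - a.im * x) ≤ dt a b →
      (⟨x, y⟩ : ℂ) ∈ K := fun a b x y ha hb => mem_tri (z := ⟨x, y⟩) hK h0 ha hb
  have e : ∀ y : ℝ, (⟨-0.43405, y⟩ : ℂ) ∈ K → (⟨0.51666, y⟩ : ℂ) ∈ K → L.im ≤ y ∧ y ≤ U.im :=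
    fun y p1 p2 => h.ex _ p1 (seg hK (t := 0.95071) p1 (by
      convert p2 using 1
      apply Complex.ext <;> simp
      norm_num) (by linarith) (by linarith) (by norm_num))
  have e1 := (e 0.80618
    (m _ _ _ _ (hV 2) (hV 3) (by linarith [d23.1]) (by linarith) (by linarith) (by linarith [d23.1]))
    (m _ _ _ _ (hV 1) (hV 2) (by linarith [d12.1]) (by linarith) (by linarith)
      (by linarith [d12.1]))).2
  have e2 := (e (-0.80618)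
    (m _ _ _ _ (hV 4) (hV 5) (by linarith [d45.1]) (by linarith) (by linarith) (by linarith [d45.1]))
    (m _ _ _ _ (hV 5) (hV 6) (by linarith [d56.1]) (by linarith) (by linarith)
      (by linarith [d56.1]))).1
  have o1 := (out _ h.hU).2.1
  have o2 := (out _ h.hU').2.2.1
  have o3 := (out _ h.hL).2.2.2.2.2.2
  have o4 := (out _ h.hL').2.2.2.2.2.1
  simp only [Cl, Complex.add_re, Complex.add_im, Complex.ofReal_re, Complex.ofReal_im] at o2 o4 ⊢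
  clear m e d12 d23 d45 d56
  refine ⟨?_, l1, ⟨?_, ?_, ?_, ?_⟩, ⟨?_, ?_, ?_, ?_⟩, ⟨?_, ?_, ?_, ?_⟩, ⟨?_, ?_, ?_, ?_⟩,
    ⟨?_, ?_, ?_, ?_⟩, ⟨?_, ?_, ?_, ?_⟩⟩ <;> linarith

theorem side {l Y k Δ b1 b2 t1 t2 h1 h2 D1 D2 : ℝ} (hΔ : 0.5886 ≤ Δ)
    (e : (Y - l * k) * Δ = b2 * t1 + b1 * t2) (p1 : 0 ≤ b1) (p2 : b1 ≤ 0.19314) (p3 : 0 ≤ b2)
    (p4 : b2 ≤ 0.5411) (q1 : t1 ≤ h1 * D1) (q2 : t2 ≤ h2 * D2) (r1 : 0 ≤ h1) (r2 : 0 ≤ h2)
    (s1 : D1 ≤ 0.7819) (s2 : D2 ≤ 0.7819) (u1 : 0 ≤ l) (u2 : l ≤ 0.950507) :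
    2 * l * Y ≤ 2 * l * (l * k) + 1.368 * h1 + 0.489 * h2 := by
  have a1 := mul_le_mul_of_nonneg_left (q1.trans (mul_le_mul_of_nonneg_left s1 r1)) p3
  have a2 := mul_le_mul_of_nonneg_left (q2.trans (mul_le_mul_of_nonneg_left s2 r2)) p1
  have a3 := mul_le_mul_of_nonneg_right p4 r1
  have a4 := mul_le_mul_of_nonneg_right p2 r2
  have a5 : (Y - l * k) * Δ ≤ 0.4231 * h1 + 0.15102 * h2 := by linarith
  have a6 := mul_le_mul_of_nonneg_left a5 u1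
  have a7 := mul_le_mul_of_nonneg_right u2 r1
  have a8 := mul_le_mul_of_nonneg_right u2 r2
  have a9 := mul_le_mul_of_nonneg_right hΔ r1
  have a10 := mul_le_mul_of_nonneg_right hΔ r2
  refine le_of_mul_le_mul_right ?_ (by linarith : 0 < Δ)
  linarith

theorem psi {D τ σ h dx dy X Y Ex Ey φ ϑ : ℝ} (hD : 0 < D) (ex : D * dx = τ * X + σ * Ex)
    (ey : D * dy = τ * Y + σ * Ey) (s0 : 0 ≤ σ) (t : τ ≤ h * D) (h0 : 0 ≤ h)
    (sup : dx + ϑ * dy ≤ 0) (f1 : -0.00005 ≤ φ) (f2 : φ ≤ 0.00005) (g1 : -0.00005 ≤ ϑ)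
    (g2 : ϑ ≤ 0.00005) (x1 : 0.99 ≤ X) (x2 : X ≤ 1.01) (y1 : -0.01 ≤ Y) (y2 : Y ≤ 0.01)
    (e1 : Ex ≤ -0.37) (e2 : -0.79 ≤ Ey) (e3 : Ey ≤ 0.79) : dx + φ * dy ≤ 0.0011 * h := by
  obtain ⟨a1, a2⟩ := pb f1 f2 y1 y2
  obtain ⟨a3, a4⟩ := pb g1 g2 y1 y2
  obtain ⟨-, a5⟩ := pb f1 f2 e2 e3
  obtain ⟨a6, -⟩ := pb g1 g2 e2 e3
  have b1 := mul_le_mul_of_nonneg_right t
    (by linarith : 0 ≤ 0.001 * X + φ * Y - 0.999 * (ϑ * Y))
  have b2 := mul_le_mul_of_nonneg_left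
    (by linarith : 0.001 * X + φ * Y - 0.999 * (ϑ * Y) ≤ 0.0011) (mul_nonneg h0 hD.le)
  have b3 := mul_le_mul_of_nonneg_left
    (by linarith : 0.001 * Ex + φ * Ey - 0.999 * (ϑ * Ey) ≤ 0) s0
  have b4 := mul_le_mul_of_nonneg_left sup hD.le
  refine le_of_mul_le_mul_left ?_ hD
  have b5 : D * (dx + φ * dy) = 0.999 * (D * (dx + ϑ * dy)) +
      τ * (0.001 * X + φ * Y - 0.999 * (ϑ * Y)) + σ * (0.001 * Ex + φ * Ey - 0.999 * (ϑ * Ey)) := by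
    linear_combination 0.001 * ex + (φ - 0.999 * ϑ) * ey
  linarith

theorem kp_bd {x y z : ℂ} (h1 : 0.5886 ≤ dt (y - x) (z - y)) (h2 : dt (y - x) (z - y) ≤ 0.58884)
    (h3 : -0.1046 ≤ (y.im - x.im) * (z.im - y.im))
    (h4 : (y.im - x.im) * (z.im - y.im) ≤ -0.10443) :
    -0.2 ≤ kp x y z ∧ kp x y z ≤ -0.1773 ∧
      kp x y z * dt (y - x) (z - y) = (y.im - x.im) * (z.im - y.im) := by
  have e : kp x y z = (y.im - x.im) * (z.im - y.im) / dt (y - x) (z - y) := rfl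
  have p : 0 < dt (y - x) (z - y) := by linarith
  rw [e, le_div_iff₀ p, div_le_iff₀ p, div_mul_cancel₀ _ p.ne']
  exact ⟨by linarith, by linarith, rfl⟩

theorem rep' (hK : Convex ℝ K) {a b q : ℂ} (ha : a ∈ K) (hb : b ∈ K) (hq : q ∈ K)
    {A1 A2 B1 B2 Q1 Q2 e : ℝ} (ca : Cl a A1 A2 0.00002) (cb : Cl b B1 B2 0.00002)
    (cq : Cl q Q1 Q2 e) (lo hi : ℝ)
    (H : ∀ D S T : ℝ, (A1 * b.im - A2 * b.re + a.re * B2 - a.im * B1 - (A1 * B2 - A2 * B1) -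
        2 * (0.00002 * 0.00002) ≤ D ∧ D ≤ A1 * b.im - A2 * b.re + a.re * B2 - a.im * B1 -
        (A1 * B2 - A2 * B1) + 2 * (0.00002 * 0.00002)) →
      (A1 * q.im - A2 * q.re + a.re * Q2 - a.im * Q1 - (A1 * Q2 - A2 * Q1) - 2 * (0.00002 * e) ≤ S ∧
        S ≤ A1 * q.im - A2 * q.re + a.re * Q2 - a.im * Q1 - (A1 * Q2 - A2 * Q1) +
        2 * (0.00002 * e)) →
      (Q1 * b.im - Q2 * b.re + q.re * B2 - q.im * B1 - (Q1 * B2 - Q2 * B1) - 2 * (e * 0.00002) ≤ T ∧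
        T ≤ Q1 * b.im - Q2 * b.re + q.re * B2 - q.im * B1 - (Q1 * B2 - Q2 * B1) +
        2 * (e * 0.00002)) →
      0 < D ∧ D ≤ 0.7819 ∧ 0 < S + T ∧ lo * (S + T) ≤ S ∧ S ≤ hi * (S + T) ∧ 0 ≤ lo ∧ hi ≤ 1) :
    ∃ h, Nr K a b lo hi h ∧ dt a q + dt q b - dt a b ≤ h * dt a b ∧ dt a b ≤ 0.7819 := by
  obtain ⟨h1, h2, h3, h4, h5, h6, h7⟩ := H _ _ _ (dlin ca cb) (dlin ca cq) (dlin cq cb)
  obtain ⟨h, k1, k2⟩ := rep hK ha hb hq h1 h3 h4 h5 h6 h7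
  exact ⟨h, k1, k2, h2⟩

theorem tip (hK : Convex ℝ K) {V : ℕ → ℂ} (hV : ∀ j, V j ∈ K) (cv : Cv V) {T : ℂ} (hT : T ∈ K)
    (cT : Cl T 1 0 0.0003) {φ ϑ : ℝ} (f1 : -0.00005 ≤ φ) (f2 : φ ≤ 0.00005) (g1 : -0.00005 ≤ ϑ)
    (g2 : ϑ ≤ 0.00005) (sup : T.re + ϑ * T.im ≤ (V 0).re + ϑ * (V 0).im) :
    ∃ hS hE, Nr K (V 0) (V 1) 0 1 hS ∧ Nr K (V 6) (V 0) 0 1 hE ∧
      T.re - (V 0).re + φ * (T.im - (V 0).im) ≤ 0.0011 * (hS + hE) := by
  have z : ∀ a b : ℂ, a ∈ K → Nr K a b 0 1 0 := fun a b ha =>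
    ⟨le_rfl, 0, le_rfl, zero_le_one, by simpa using ha⟩
  have d1 := dlin cv.c0 cv.c1
  have d2 := dlin cT cv.c1
  have d3 := dlin cv.c6 cv.c0
  have d4 := dlin cv.c6 cT
  obtain ⟨⟨_, _, _, _⟩, ⟨_, _, _, _⟩, -, -, -, -, ⟨_, _, _, _⟩⟩ := cv
  obtain ⟨_, _, _, _⟩ := cT
  rcases le_total 0 (dt (V 0) T) with s | s
  · have p : 0 < dt T (V 1) := by linarith [d2.1]
    have q : 0 < dt (V 0) (V 1) := by linarith [d1.1]
    obtain ⟨h, k1, k2⟩ := rep hK (hV 0) (hV 1) hT (lo := 0) (hi := 1) q (by linarith)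
      (by linarith) (by linarith) le_rfl le_rfl
    refine ⟨h, 0, k1, z _ _ (hV 6), ?_⟩
    rw [add_zero]
    exact psi (X := (V 0).re) (Y := (V 0).im) (Ex := (V 1).re - (V 0).re)
      (Ey := (V 1).im - (V 0).im) q (by unfold dt; ring) (by unfold dt; ring) s k2 k1.1
      (by linarith) f1 f2 g1 g2 (by linarith) (by linarith) (by linarith) (by linarith)
      (by linarith) (by linarith) (by linarith)
  · have s' : 0 ≤ dt T (V 0) := by unfold dt at *; linarith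
    have p : 0 < dt (V 6) T := by linarith [d4.1]
    have q : 0 < dt (V 6) (V 0) := by linarith [d3.1]
    obtain ⟨h, k1, k2⟩ := rep hK (hV 6) (hV 0) hT (lo := 0) (hi := 1) q (by linarith)
      (by linarith) (by linarith) le_rfl le_rfl
    refine ⟨0, h, z _ _ (hV 0), k1, ?_⟩
    rw [zero_add]
    exact psi (X := (V 0).re) (Y := (V 0).im) (Ex := (V 6).re - (V 0).re)
      (Ey := (V 6).im - (V 0).im) q (by unfold dt; ring) (by unfold dt; ring) s' k2 k1.1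
      (by linarith) f1 f2 g1 g2 (by linarith) (by linarith) (by linarith) (by linarith)
      (by linarith) (by linarith) (by linarith)

theorem frame (hK : Convex ℝ K) {V : ℕ → ℂ} (h0 : 0 ∈ K) (hV : ∀ j, V j ∈ K) (cv : Cv V)
    (out : ∀ z ∈ K, Out z) {ϑ : ℝ} (g1 : -0.00005 ≤ ϑ) (g2 : ϑ ≤ 0.00005)
    (sup : ∀ z ∈ K, z.re + ϑ * z.im ≤ (V 0).re + ϑ * (V 0).im) {l : ℝ} {M U L : ℂ}
    (h : Con K l M U L) : ∃ h1 h2 h3 h4 h5 hS hE,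
      Nr K (V 1) (V 2) 0.125 0.128 h1 ∧ Nr K (V 2) (V 3) 0.31 0.313 h2 ∧
      Nr K (V 3) (V 4) 0.499 0.501 h3 ∧ Nr K (V 4) (V 5) 0.687 0.69 h4 ∧
      Nr K (V 5) (V 6) 0.872 0.875 h5 ∧ Nr K (V 0) (V 1) 0 1 hS ∧ Nr K (V 6) (V 0) 0 1 hE ∧
      1 ≤ 2 * l * (U.im - L.im) ∧ 2 * l * (U.im - L.im) ≤
        P0 V + 1.368 * (h1 + h5) + 0.489 * (h2 + h4) + 1.151 * h3 + 0.0015 * (hS + hE) := by
  obtain ⟨l1, l2, cM, cT, cU, cU', cL, cL'⟩ := loc hK h0 hV cv out h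
  obtain ⟨-, -, l3, l4⟩ := l0_bd cv
  have r1 := rep' hK (hV 1) (hV 2) h.hU' cv.c1 cv.c2 cU' 0.125 0.128
  have r2 := rep' hK (hV 2) (hV 3) h.hU cv.c2 cv.c3 cU 0.31 0.313
  have r3 := rep' hK (hV 3) (hV 4) h.hM cv.c3 cv.c4 cM 0.499 0.501
  have r4 := rep' hK (hV 4) (hV 5) h.hL cv.c4 cv.c5 cL 0.687 0.69
  have r5 := rep' hK (hV 5) (hV 6) h.hL' cv.c5 cv.c6 cL' 0.872 0.875
  have dU := dlin (cv.c2.sub cv.c1) (cv.c3.sub cv.c2)
  have dL := dlin (cv.c5.sub cv.c4) (cv.c6.sub cv.c5)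
  have tp := fun φ f1 f2 => tip hK hV cv h.hT cT (φ := φ) f1 f2 g1 g2 (sup _ h.hT)
  simp only [Complex.sub_re, Complex.sub_im] at dU dL
  obtain ⟨⟨_, _, _, _⟩, ⟨_, _, _, _⟩, ⟨_, _, _, _⟩, ⟨_, _, _, _⟩, ⟨_, _, _, _⟩, ⟨_, _, _, _⟩,
    ⟨_, _, _, _⟩⟩ := cv
  have pU := pb (x := (V 2).im - (V 1).im - 0.193097) (y := (V 3).im - (V 2).im + 0.541044)
    (A := 0.00004) (B := 0.00004) (by linarith) (by linarith) (by linarith) (by linarith)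
  have pL := pb (x := (V 5).im - (V 4).im + 0.541044) (y := (V 6).im - (V 5).im - 0.193097)
    (A := 0.00004) (B := 0.00004) (by linarith) (by linarith) (by linarith) (by linarith)
  have DU : 0.5886 ≤ dt (V 2 - V 1) (V 3 - V 2) := by linarith [dU.1]
  have DL : 0.5886 ≤ dt (V 5 - V 4) (V 6 - V 5) := by linarith [dL.1]
  obtain ⟨kU1, kU2, kU3⟩ := kp_bd DU (by linarith [dU.2]) (by linarith [pU.1]) (by linarith [pU.2])
  obtain ⟨kL1, kL2, kL3⟩ := kp_bd DL (by linarith [dL.2]) (by linarith [pL.1]) (by linarith [pL.2])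
  clear dU dL pU pL
  have g0 : 0 < (V 3).im - (V 4).im := by linarith
  obtain ⟨hS, hE, n6, n7, t⟩ := tp (((V 4).re - (V 3).re) / ((V 3).im - (V 4).im))
    (by rw [le_div_iff₀ g0]; linarith) (by rw [div_le_iff₀ g0]; linarith)
  obtain ⟨h1, n1, t1, D1⟩ := r1 (by
    obtain ⟨_, _, _, _⟩ := cU'
    rintro D S T ⟨_, _⟩ ⟨_, _⟩ ⟨_, _⟩
    refine ⟨?_, ?_, ?_, ?_, ?_, ?_, ?_⟩ <;> linarith)
  obtain ⟨h2, n2, t2, D2⟩ := r2 (by
    obtain ⟨_, _, _, _⟩ := cU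
    rintro D S T ⟨_, _⟩ ⟨_, _⟩ ⟨_, _⟩
    refine ⟨?_, ?_, ?_, ?_, ?_, ?_, ?_⟩ <;> linarith)
  obtain ⟨h3, n3, t3, D3⟩ := r3 (by
    obtain ⟨_, _, _, _⟩ := cM
    rintro D S T ⟨_, _⟩ ⟨_, _⟩ ⟨_, _⟩
    refine ⟨?_, ?_, ?_, ?_, ?_, ?_, ?_⟩ <;> linarith)
  obtain ⟨h4, n4, t4, D4⟩ := r4 (by
    obtain ⟨_, _, _, _⟩ := cL
    rintro D S T ⟨_, _⟩ ⟨_, _⟩ ⟨_, _⟩
    refine ⟨?_, ?_, ?_, ?_, ?_, ?_, ?_⟩ <;> linarith)
  obtain ⟨h5, n5, t5, D5⟩ := r5 (by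
    obtain ⟨_, _, _, _⟩ := cL'
    rintro D S T ⟨_, _⟩ ⟨_, _⟩ ⟨_, _⟩
    refine ⟨?_, ?_, ?_, ?_, ?_, ?_, ?_⟩ <;> linarith)
  clear r1 r2 r3 r4 r5 tp
  refine ⟨h1, h2, h3, h4, h5, hS, hE, n1, n2, n3, n4, n5, n6, n7, ?_, ?_⟩
  · have := mul_le_mul l1 (by linarith [cU.2.2.1, cL.2.2.2] : 1 ≤ U.im - L.im) zero_le_one
      (by linarith)
    linarith
  have sU := side (Y := U.im - (V 2).im) (k := kp (V 1) (V 2) (V 3)) (b1 := (V 2).im - (V 1).im)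
    (b2 := (V 2).im - (V 3).im) DU (by
      simp only [dt, Complex.sub_re, Complex.sub_im, Complex.add_re, Complex.add_im,
        Complex.ofReal_re, Complex.ofReal_im] at kU3 ⊢
      linear_combination -l * kU3) (by linarith) (by linarith) (by linarith) (by linarith) t1 t2
    n1.1 n2.1 D1 D2 (by linarith) l2
  have sL := side (Y := (V 5).im - L.im) (k := kp (V 4) (V 5) (V 6)) (b1 := (V 6).im - (V 5).im)
    (b2 := (V 4).im - (V 5).im) DL (by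
      simp only [dt, Complex.sub_re, Complex.sub_im, Complex.add_re, Complex.add_im,
        Complex.ofReal_re, Complex.ofReal_im] at kL3 ⊢
      linear_combination -l * kL3) (by linarith) (by linarith) (by linarith) (by linarith) t5 t4
    n5.1 n4.1 D5 D4 (by linarith) l2
  have e : (2 * l - 2 * l0 V - ((M + (2 * l : ℝ)).re - (V 0).re + ((V 4).re - (V 3).re) /
      ((V 3).im - (V 4).im) * ((M + (2 * l : ℝ)).im - (V 0).im))) * ((V 3).im - (V 4).im) =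
      dt (V 3) M + dt M (V 4) - dt (V 3) (V 4) := by
    have : (V 4).im - (V 3).im ≠ 0 := by linarith [show (V 4).im - (V 3).im < 0 by linarith]
    simp only [dt, l0, sM, Complex.add_re, Complex.add_im, Complex.ofReal_re, Complex.ofReal_im]
    field_simp
    ring
  have x1 : 2 * l - 2 * l0 V ≤ 0.9011 * h3 + 0.0011 * (hS + hE) := by
    have a1 := mul_le_mul_of_nonneg_left D3 n3.1
    have a2 := mul_le_mul_of_nonneg_left (by linarith : 0.867728 ≤ (V 3).im - (V 4).im) n3.1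
    have a3 := le_of_mul_le_mul_right (c := 0.9011 * h3) (e.trans_le (by linarith [n3.1])) g0
    linarith
  have a1 := mul_le_mul_of_nonneg_right (by linarith : kp (V 1) (V 2) (V 3) +
    kp (V 4) (V 5) (V 6) ≤ -0.3546) (by linarith : 0 ≤ l + l0 V)
  have a2 := mul_le_mul_of_nonneg_right (by linarith : -0.4 ≤ kp (V 1) (V 2) (V 3) +
    kp (V 4) (V 5) (V 6)) (by linarith : 0 ≤ l + l0 V)
  have a3 := mul_le_mul_of_nonneg_right x1 (by linarith : 0 ≤ (V 2).im - (V 5).im +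
    (kp (V 1) (V 2) (V 3) + kp (V 4) (V 5) (V 6)) * (l + l0 V))
  have a4 := mul_le_mul_of_nonneg_left (by linarith : (V 2).im - (V 5).im +
    (kp (V 1) (V 2) (V 3) + kp (V 4) (V 5) (V 6)) * (l + l0 V) ≤ 1.276)
    (by linarith [n3.1, n6.1, n7.1] : 0 ≤ 0.9011 * h3 + 0.0011 * (hS + hE))
  unfold P0
  linarith [n3.1, n6.1, n7.1]

end Pool.Agent.MP_5c967c_co.H80L
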