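import Pool.Agent.MP_5c967c_co.H80L.F
import Pool.Agent.MP_5c967c_co.H44.Pack

/-! Areas of sectors, and the double lattice packing in a given direction. -/

namespace Pool.Agent.MP_5c967c_co.H80L

open H46 Set MeasureTheory Pointwise

/-- the sector between two rays -/
def Sec (a b : Plane) : Set Plane := {x | 0 ≤ tri b 0 x} ∩ {x | 0 ≤ tri 0 a x}

variable {C : Set Plane}

theorem fan3 (hC : Convex ℝ C) (hf : volume C ≠ ⊤) (h0 : 0 ∈ C) {a b : Plane} (ha : a ∈ C)
    (hb : b ∈ C) (hD : 0 ≤ det2 a b) {t1 t2 t3 h1 h2 h3 : ℝ} (o0 : 0 ≤ t1) (o1 : t1 ≤ t2)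
    (o2 : t2 ≤ t3) (o3 : t3 ≤ 1) (p1 : 0 ≤ h1) (p2 : 0 ≤ h2) (p3 : 0 ≤ h3)
    (m1 : (1 + h1) • ((1 - t1) • a + t1 • b) ∈ C) (m2 : (1 + h2) • ((1 - t2) • a + t2 • b) ∈ C)
    (m3 : (1 + h3) • ((1 - t3) • a + t3 • b) ∈ C) :
    det2 a b / 2 * (1 + h1 * t2 + h2 * (t3 - t1) + h3 * (1 - t2)) ≤
      (volume (C ∩ Sec a b)).toReal := by
  let t : ℕ → ℝ := fun i => match i with | 0 => 0 | 1 => t1 | 2 => t2 | 3 => t3 | _ => 1
  let h : ℕ → ℝ := fun i => match i with | 1 => h1 | 2 => h2 | 3 => h3 | _ => 0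
  have e : ∀ r u r' u' : ℝ, tri 0 (r • ((1 - u) • a + u • b)) (r' • ((1 - u') • a + u' • b)) =
      r * r' * (u' - u) * det2 a b := fun r u r' u' => by simp [tri, det2]; ring
  have e' : ∀ r u : ℝ, tri b 0 (r • ((1 - u) • a + u • b)) = r * (1 - u) * det2 a b :=
    fun r u => by simp [tri, det2]; ring
  have hh : ∀ i, 0 ≤ 1 + h i := fun i => by
    simp only [h]
    split <;> linarith
  have f := H44.fan 4 (C ∩ {x | 0 ≤ tri b 0 x}) (fun i => (1 + h i) • ((1 - t i) • a + t i • b))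
    (hC.inter (convex_half b 0)) ⟨h0, by simp [tri, mul_comm]⟩
    (fun i hi => ⟨by
      interval_cases i
      exacts [by simpa [t, h], m1, m2, m3, by simpa [t, h]], by
      rw [mem_ofPred_eq, e']
      exact mul_nonneg (mul_nonneg (hh i) (by interval_cases i <;> simp only [t] <;> linarith)) hD⟩)
    (fun i j hij hj => by
      rw [e]
      refine mul_nonneg (mul_nonneg (mul_nonneg (hh i) (hh j)) ?_) hD
      interval_cases j <;> interval_cases i <;> simp only [t] <;> linarith)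
  simp only [e, Finset.sum_range_succ, Finset.sum_range_zero, t, h, add_zero, sub_zero, one_smul,
    zero_smul, inter_assoc] at f
  refine le_trans ?_ ((ENNReal.ofReal_le_iff_le_toReal
    (ne_top_of_le_ne_top hf (measure_mono inter_subset_left))).1 f)
  have := mul_nonneg (mul_nonneg (mul_nonneg p1 p2) (sub_nonneg.2 o1)) hD
  have := mul_nonneg (mul_nonneg (mul_nonneg p2 p3) (sub_nonneg.2 o2)) hD
  linarith

theorem edge (hC : Convex ℝ C) (hf : volume C ≠ ⊤) (h0 : 0 ∈ C) (φ : ℂ →ₗ[ℝ] Plane) {a b : ℂ}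
    (ha : φ a ∈ C) (hb : φ b ∈ C) (hD : 0 ≤ det2 (φ a) (φ b)) {h1 h2 h3 h4 h5 hS hE : ℝ}
    (n1 : Nr (φ ⁻¹' C) a b 0.125 0.128 h1) (n2 : Nr (φ ⁻¹' C) a b 0.31 0.313 h2)
    (n3 : Nr (φ ⁻¹' C) a b 0.499 0.501 h3) (n4 : Nr (φ ⁻¹' C) a b 0.687 0.69 h4)
    (n5 : Nr (φ ⁻¹' C) a b 0.872 0.875 h5) (n6 : Nr (φ ⁻¹' C) a b 0 1 hS)
    (n7 : Nr (φ ⁻¹' C) a b 0 1 hE) :
    det2 (φ a) (φ b) / 2 * (1 + (0.46 * (h1 + h5) + 0.164 * (h2 + h4) + 0.386 * h3 +
      0.005 * (hS + hE))) ≤ (volume (C ∩ Sec (φ a) (φ b))).toReal := by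
  simp only [Nr, mem_preimage, map_smul, map_add] at n1 n2 n3 n4 n5 n6 n7
  obtain ⟨p1, t1, a1, b1, m1⟩ := n1
  obtain ⟨p2, t2, a2, b2, m2⟩ := n2
  obtain ⟨p3, t3, a3, b3, m3⟩ := n3
  obtain ⟨p4, t4, a4, b4, m4⟩ := n4
  obtain ⟨p5, t5, a5, b5, m5⟩ := n5
  obtain ⟨p6, t6, a6, b6, m6⟩ := n6
  obtain ⟨p7, t7, a7, b7, m7⟩ := n7
  have m : (1 + 0 : ℝ) • ((1 - 1 : ℝ) • φ a + (1 : ℝ) • φ b) ∈ C := by simpa using hb
  have f1 := fan3 hC hf h0 ha hb hD (by linarith) (by linarith) (by linarith) (by linarith)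
    p1 p3 p5 m1 m3 m5
  have f2 := fan3 hC hf h0 ha hb hD (by linarith) (by linarith) (by linarith) le_rfl
    p1 p5 le_rfl m1 m5 m
  have f3 := fan3 hC hf h0 ha hb hD (by linarith) (by linarith) (by linarith) le_rfl
    p2 p4 le_rfl m2 m4 m
  have f4 := fan3 hC hf h0 ha hb hD a6 b6 le_rfl le_rfl p6 le_rfl le_rfl m6 m m
  have f5 := fan3 hC hf h0 ha hb hD a7 b7 le_rfl le_rfl p7 le_rfl le_rfl m7 m m
  have k : 1 + (0.46 * (h1 + h5) + 0.164 * (h2 + h4) + 0.386 * h3 + 0.005 * (hS + hE)) ≤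
      0.52 * (1 + h1 * t3 + h3 * (t5 - t1) + h5 * (1 - t3)) +
      0.23 * (1 + h1 * t5 + h5 * (1 - t1)) + 0.24 * (1 + h2 * t4 + h4 * (1 - t2)) +
      0.005 * (1 + hS) + 0.005 * (1 + hE) := by
    have := mul_le_mul_of_nonneg_left a3 p1
    have := mul_le_mul_of_nonneg_left a5 p1
    have := mul_le_mul_of_nonneg_left a5 p3
    have := mul_le_mul_of_nonneg_left b1 p3
    have := mul_le_mul_of_nonneg_left b3 p5
    have := mul_le_mul_of_nonneg_left b1 p5
    have := mul_le_mul_of_nonneg_left a4 p2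
    have := mul_le_mul_of_nonneg_left b2 p4
    linarith
  have := mul_le_mul_of_nonneg_left k (by positivity : 0 ≤ det2 (φ a) (φ b) / 2)
  linarith

theorem line_null {a : Plane} (ha : a ≠ 0) : volume {x | tri 0 a x = 0} = 0 := by
  let f : Plane →ₗ[ℝ] ℝ :=
    { toFun := fun x => tri 0 a x
      map_add' := fun u w => by simp [tri]; ring
      map_smul' := fun r u => by simp [tri]; ring }
  refine Measure.addHaar_submodule volume (LinearMap.ker f) fun hf => ha ?_
  have a1 : f !₂[0, 1] = 0 := by rw [← LinearMap.mem_ker, hf]; trivial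
  have a2 : f !₂[1, 0] = 0 := by rw [← LinearMap.mem_ker, hf]; trivial
  ext i
  fin_cases i
  · simpa [f, tri] using a1
  · simpa [f, tri] using a2

theorem sectors (hm : MeasurableSet C) (hf : volume C ≠ ⊤) (A : ℕ → Plane)
    (per : ∀ n, A (n + 7) = A n) (pos : ∀ n d, 1 ≤ d → d ≤ 3 → 0 < det2 (A n) (A (n + d))) :
    ∑ e ∈ Finset.range 7, (volume (C ∩ Sec (A e) (A (e + 1)))).toReal ≤ (volume C).toReal := by
  have key : ∀ e d, 1 ≤ d → d ≤ 3 → AEDisjoint volume (C ∩ Sec (A e) (A (e + 1)))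
      (C ∩ Sec (A (e + d)) (A (e + d + 1))) := by
    intro e d d1 d3
    have q1 := pos e d d1 d3
    have q2 := pos e 1 le_rfl (by norm_num)
    have q3 : 0 ≤ det2 (A (e + 1)) (A (e + d)) := by
      rcases d1.eq_or_lt with rfl | h
      · simp [det2, mul_comm]
      · have := pos (e + 1) (d - 1) (by omega) (by omega)
        rw [show e + 1 + (d - 1) = e + d by omega] at this
        exact this.le
    refine measure_mono_null (fun x hx => ?_)
      (line_null (a := A (e + d)) fun h => by simp [h, det2] at q1)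
    obtain ⟨⟨-, x1, x2⟩, -, -, x3⟩ := hx
    simp only [mem_ofPred_eq] at *
    generalize A e = a, A (e + 1) = b, A (e + d) = y at *
    have : det2 a b * tri 0 y x = -(tri b 0 x * det2 a y) - tri 0 a x * det2 b y := by
      simp [det2, tri]; ring
    refine le_antisymm (le_of_mul_le_mul_left ?_ q2) x3
    linarith [mul_nonneg x1 q1.le, mul_nonneg x2 q3]
  have ms : ∀ a b, MeasurableSet (C ∩ Sec a b) := fun a b => hm.inter
    ((isClosed_le continuous_const (by unfold tri; fun_prop)).inter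
      (isClosed_le continuous_const (by unfold tri; fun_prop))).measurableSet
  rw [← ENNReal.toReal_sum fun _ _ => ne_top_of_le_ne_top hf (measure_mono inter_subset_left),
    ← measure_biUnion_finset₀ ?_ fun _ _ => (ms _ _).nullMeasurableSet]
  · exact ENNReal.toReal_mono hf (measure_mono (iUnion₂_subset fun _ _ => inter_subset_left))
  have k2 : ∀ e f, e < f → f < 7 → AEDisjoint volume (C ∩ Sec (A e) (A (e + 1)))
      (C ∩ Sec (A f) (A (f + 1))) := by
    intro e f h1 h2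
    rcases le_or_gt (f - e) 3 with h | h
    · have := key e (f - e) (by omega) h
      rwa [show e + (f - e) = f by omega] at this
    · have := key f (e + 7 - f) (by omega) (by omega)
      rw [show f + (e + 7 - f) = e + 7 by omega, show e + 7 + 1 = e + 1 + 7 by omega, per,
        per] at this
      exact this.symm
  intro e he f hf' h
  simp only [Finset.coe_range, mem_Iio] at he hf'
  rcases lt_or_gt_of_ne h with h | h
  · exact k2 e f h hf'
  · exact (k2 f e h he).symm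

theorem exists_con {K : Set ℂ} (hc : IsCompact K) (hK : Convex ℝ K) (hne : K.Nonempty) :
    ∃ l M U L, 0 ≤ l ∧ Con K l M U L := by
  obtain ⟨z, hz⟩ := hne
  obtain ⟨⟨M, T⟩, ⟨⟨hM, hT⟩, e⟩, mx⟩ := ((hc.prod hc).inter_right
    (isClosed_eq (f := fun p : ℂ × ℂ => p.1.im) (g := fun p => p.2.im) (by fun_prop)
      (by fun_prop))).exists_isMaxOn ⟨(z, z), ⟨hz, hz⟩, rfl⟩
    (f := fun p => p.2.re - p.1.re) (by fun_prop)
  have e : M.im = T.im := e
  have l0 : z.re - z.re ≤ T.re - M.re := mx (a := (z, z)) ⟨⟨hz, hz⟩, rfl⟩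
  have eT : M + (2 * ((T.re - M.re) / 2) : ℝ) = T := by
    apply Complex.ext <;> simp only [Complex.add_re, Complex.add_im, Complex.ofReal_re,
      Complex.ofReal_im] <;> linarith
  have cB : IsCompact (K ∩ (fun p : ℂ => p + ((T.re - M.re) / 2 : ℝ)) ⁻¹' K) :=
    hc.inter_right (hc.isClosed.preimage (by fun_prop))
  have nB : (K ∩ (fun p : ℂ => p + ((T.re - M.re) / 2 : ℝ)) ⁻¹' K).Nonempty := ⟨M, hM, by
    have := hK hM hT (a := 1 / 2) (b := 1 / 2) (by norm_num) (by norm_num) (by norm_num)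
    rw [mem_preimage]
    convert this using 1
    apply Complex.ext <;> simp only [Complex.add_re, Complex.add_im, Complex.ofReal_re,
      Complex.ofReal_im, Complex.smul_re, Complex.smul_im, smul_eq_mul] <;> linarith⟩
  obtain ⟨U, hU, mU⟩ := cB.exists_isMaxOn nB (f := Complex.im) (by fun_prop)
  obtain ⟨L, hL, mL⟩ := cB.exists_isMinOn nB (f := Complex.im) (by fun_prop)
  refine ⟨_, M, U, L, by linarith, hM, by rw [eT]; exact hT, fun p hp t ht => ?_, hU.1, hU.2, hL.1, hL.2,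
    fun p hp hq => ⟨mL (a := p) ⟨hp, hq⟩, mU (a := p) ⟨hp, hq⟩⟩⟩
  have : (p + t).re - p.re ≤ T.re - M.re := mx (a := (p, p + t)) ⟨⟨hp, ht⟩, by simp⟩
  simp only [Complex.add_re, Complex.ofReal_re] at this
  linarith

theorem surj (φ : ℂ →ₗ[ℝ] Plane) {D : ℝ} (D0 : D ≠ 0) (hD : ∀ z y, det2 (φ z) (φ y) = D * dt z y) :
    Function.Surjective φ := by
  intro p
  have h := hD 1 Complex.I
  refine ⟨(det2 p (φ Complex.I) / D) • 1 + (det2 (φ 1) p / D) • Complex.I, ?_⟩
  rw [map_add, map_smul, map_smul]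
  simp only [dt, det2, Complex.one_re, Complex.one_im, Complex.I_re, Complex.I_im] at h
  ext i
  fin_cases i <;> simp [det2] <;> field_simp
  · linear_combination p 0 * h
  · linear_combination p 1 * h

theorem bridge (hc : IsCompact C) (hC : Convex ℝ C) (hne : (interior C).Nonempty)
    (φ : ℂ →ₗ[ℝ] Plane) {D : ℝ} (D0 : 0 < D) (hD : ∀ z y, det2 (φ z) (φ y) = D * dt z y)
    {l : ℝ} {M U L : ℂ} (l0 : 0 ≤ l) (h : Con (φ ⁻¹' C) l M U L) (P0 : 0 < 2 * l * (U.im - L.im))
    {ρ : ℝ} (ρ0 : 0 ≤ ρ) (hρ : ρ * (D * (2 * l * (U.im - L.im))) ≤ (volume C).toReal) :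
    ENNReal.ofReal ρ ≤ packingDensity C := by
  have sj := surj φ D0.ne' hD
  have e2 : φ (M + (2 * l : ℝ)) = φ M + (2 : ℝ) • φ l := by
    rw [map_add, ← map_smul]; simp
  obtain ⟨f, hf⟩ := geometric_hahn_banach_open_point (s := interior C - C) (x := (2 : ℝ) • φ l)
    (hC.interior.sub hC) isOpen_interior.sub_right (by
      rintro ⟨x, hx, y, hy, e⟩
      obtain ⟨z, rfl⟩ := sj y
      obtain ⟨t, t0, ht⟩ := open_move _ isOpen_interior x hx (φ 1)
      have := h.mx z hy (2 * l + t) (by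
        rw [mem_preimage]
        convert interior_subset ht using 1
        rw [eq_add_of_sub_eq e, ← map_smul, ← map_smul, ← map_add, ← map_add]
        congr 1
        simp
        ring)
      linarith)
  have f1 : ∀ x ∈ C, ∀ y ∈ C, f x - f y ≤ 2 * f (φ l) := by
    intro x hx y hy
    have : closure (interior C) ⊆ {x | f x - f y ≤ 2 * f (φ l)} := closure_minimal
      (fun x hx => by simpa using (hf _ ⟨x, hx, y, hy, rfl⟩).le)
      (isClosed_le (by fun_prop) continuous_const)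
    rw [hC.closure_interior_eq_closure_of_nonempty_interior hne] at this
    exact this (subset_closure hx)
  have eg : ∀ x : Plane, det2 !₂[f !₂[0, 1], -f !₂[1, 0]] x = f x := fun x => by
    conv_rhs => rw [show x = x 0 • !₂[1, 0] + x 1 • !₂[0, 1] by ext i; fin_cases i <;> simp]
    simp only [map_add, map_smul, smul_eq_mul]
    simp [det2]
    ring
  obtain ⟨R, hR⟩ := hc.isBounded.subset_ball 0
  refine dl C hC R hR hne _ ENNReal.toReal_nonneg
    (ENNReal.ofReal_toReal hc.measure_lt_top.ne).le (φ M) (φ l) !₂[f !₂[0, 1], -f !₂[1, 0]] h.hM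
    (e2 ▸ h.hT) (fun x hx => ?_) ?_ (-(D * l * (U.im - M.im))) (D * l * (U.im - L.im)) ρ
    (fun p hp hq => ?_) (by nlinarith) ρ0 (by linarith)
  · have a1 := f1 x hx _ h.hM
    have a2 := f1 _ h.hT x hx
    rw [e2, map_add, map_smul, smul_eq_mul] at a2
    simp only [eg, map_sub]
    constructor <;> linarith
  · obtain ⟨x, hx⟩ := hne
    have := hf _ ⟨x, hx, x, interior_subset hx, rfl⟩
    simp only [sub_self, map_zero, map_smul, smul_eq_mul] at this
    rw [eg]
    linarith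
  · obtain ⟨z, rfl⟩ := sj p
    obtain ⟨a1, a2⟩ := h.ex z hp (by rwa [mem_preimage, map_add])
    rw [← map_sub, hD]
    simp only [dt, Complex.sub_re, Complex.sub_im, Complex.ofReal_re, Complex.ofReal_im]
    have := mul_le_mul_of_nonneg_left a1 (mul_nonneg D0.le l0)
    have := mul_le_mul_of_nonneg_left a2 (mul_nonneg D0.le l0)
    constructor <;> linarith

end Pool.Agent.MP_5c967c_co.H80L
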