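import Pool.Agent.MP_5c967c_co.H80L.A

/-! Second order expansion of the double lattice cell of a perturbed heptagon. -/

namespace Pool.Agent.MP_5c967c_co.H80L

open Filter Asymptotics Topology

/-- the space of perturbations -/
abbrev E := ℂ × ℂ × ℂ × ℂ

/-- determinant -/
def dt (z y : ℂ) : ℝ := z.re * y.im - z.im * y.re

/-- the perturbed heptagon -/
noncomputable def Gam (a : E) (j : ℕ) : ℂ :=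
  w ^ j + a.1 * w ^ (2 * j) + a.2.1 * w ^ (3 * j) + a.2.2.1 * w ^ (5 * j) + a.2.2.2 * w ^ (4 * j)

/-- rotation of the perturbation -/
noncomputable def rho (k : ℕ) (a : E) : E :=
  (a.1 * w ^ k, a.2.1 * w ^ (2 * k), a.2.2.1 * w ^ (4 * k), a.2.2.2 * w ^ (3 * k))

/-- position of the foot of the long chord -/
noncomputable def sM (V : ℕ → ℂ) : ℝ := ((V 0).im - (V 3).im) / ((V 4).im - (V 3).im)

/-- half of the long chord -/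
noncomputable def l0 (V : ℕ → ℂ) : ℝ :=
  1 / 2 * ((V 0).re - (V 3).re - sM V * ((V 4).re - (V 3).re))

/-- slope constant of a corner -/
noncomputable def kp (x y z : ℂ) : ℝ := (y.im - x.im) * (z.im - y.im) /
  ((y.re - x.re) * (z.im - y.im) - (y.im - x.im) * (z.re - y.re))

/-- twice the parallelogram of the heptagon -/
noncomputable def P0 (V : ℕ → ℂ) : ℝ :=
  2 * l0 V * ((V 2).im - (V 5).im + l0 V * (kp (V 1) (V 2) (V 3) + kp (V 4) (V 5) (V 6)))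

/-- the change of the weights -/
def ell (a : E) : ℝ := 3 * a.1.re + 10 * a.2.1.re - 10 * a.2.2.1.re

/-- second order expansion at zero -/
structure Jet (f : E → ℝ) (k : ℝ) (l q : E → ℝ) : Prop where
  hl : l =O[𝓝 0] fun a => ‖a‖
  hq : q =O[𝓝 0] fun a => ‖a‖ ^ 2
  hf : (fun a => f a - k - l a - q a) =o[𝓝 0] fun a => ‖a‖ ^ 2

variable {f g l l' q q' : E → ℝ} {k k' : ℝ}

theorem n1 : (fun a : E => ‖a‖) =o[𝓝 0] fun _ => (1 : ℝ) :=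
  (isLittleO_one_iff ℝ).2 tendsto_norm_zero

theorem n2 : (fun a : E => ‖a‖ ^ 2) =o[𝓝 0] fun a => ‖a‖ := by
  simpa only [pow_two, one_mul] using n1.mul_isBigO (isBigO_refl (fun a : E => ‖a‖) _)

theorem Jet.congr (h : Jet f k l q) (h0 : k = k') (h1 : ∀ a, l a = l' a) (h2 : ∀ a, q a = q' a) :
    Jet f k' l' q' := by
  rwa [← h0, ← funext h1, ← funext h2]

theorem Jet.const (k : ℝ) : Jet (fun _ => k) k (fun _ => 0) fun _ => 0 :=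
  ⟨isBigO_zero _ _, isBigO_zero _ _, by simp⟩

theorem Jet.add (h : Jet f k l q) (h' : Jet g k' l' q') :
    Jet (fun a => f a + g a) (k + k') (fun a => l a + l' a) fun a => q a + q' a :=
  ⟨h.hl.add h'.hl, h.hq.add h'.hq, (h.hf.add h'.hf).congr_left fun a => by ring⟩

theorem Jet.sub (h : Jet f k l q) (h' : Jet g k' l' q') :
    Jet (fun a => f a - g a) (k - k') (fun a => l a - l' a) fun a => q a - q' a :=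
  ⟨h.hl.sub h'.hl, h.hq.sub h'.hq, (h.hf.sub h'.hf).congr_left fun a => by ring⟩

theorem Jet.mul (h : Jet f k l q) (h' : Jet g k' l' q') :
    Jet (fun a => f a * g a) (k * k') (fun a => k * l' a + k' * l a)
      fun a => k * q' a + k' * q a + l a * l' a := by
  have u : (fun a => f a - k - l a) =O[𝓝 0] fun a => ‖a‖ ^ 2 :=
    (h.hf.isBigO.add h.hq).congr_left fun a => by ring
  have u' : (fun a => g a - k' - l' a) =O[𝓝 0] fun a => ‖a‖ ^ 2 :=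
    (h'.hf.isBigO.add h'.hq).congr_left fun a => by ring
  have v : (fun a => g a - k') =o[𝓝 0] fun _ => (1 : ℝ) :=
    (((u'.trans n2.isBigO).add h'.hl).trans_isLittleO n1).congr_left fun a => by ring
  refine ⟨(h'.hl.const_mul_left k).add (h.hl.const_mul_left k'),
    ((h'.hq.const_mul_left k).add (h.hq.const_mul_left k')).add
      ((h.hl.mul h'.hl).congr_right fun a => by ring), ?_⟩
  have a1 := ((h.hl.trans_isLittleO n1).mul_isBigO u').congr_right fun a => one_mul _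
  have a2 := (v.mul_isBigO u).congr_right fun a => one_mul _
  exact ((((h'.hf.const_mul_left k).add (h.hf.const_mul_left k')).add a1).add a2).congr_left
    fun a => by ring

theorem Jet.div {q0 : ℝ} {q1 q2 : E → ℝ} (h : Jet f k l q) (h' : Jet g k' l' q') (i : ℝ)
    (hi : k' * i = 1) (h0 : k = k' * q0) (h1 : ∀ a, l a = k' * q1 a + q0 * l' a)
    (h2 : ∀ a, q a = k' * q2 a + q0 * q' a + l' a * q1 a) :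
    Jet (fun a => f a / g a) q0 q1 q2 := by
  have o1 : q1 =O[𝓝 0] fun a => ‖a‖ :=
    ((h.hl.sub (h'.hl.const_mul_left q0)).const_mul_left i).congr_left fun a => by
      rw [h1]; linear_combination q1 a * hi
  have o2 : q2 =O[𝓝 0] fun a => ‖a‖ ^ 2 :=
    (((h.hq.sub (h'.hq.const_mul_left q0)).sub
      ((h'.hl.mul o1).congr_right fun a => (pow_two _).symm)).const_mul_left i).congr_left
        fun a => by rw [h2]; linear_combination q2 a * hi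
  have j : Jet (fun a => q0 + q1 a + q2 a) q0 q1 q2 :=
    ⟨o1, o2, (isLittleO_zero _ _).congr_left fun a => by ring⟩
  have d := ((h.sub (h'.mul j)).congr (k' := 0) (l' := fun _ => 0) (q' := fun _ => 0)
    (by rw [h0, sub_self]) (fun a => by rw [h1, sub_self]) fun a => by rw [h2, sub_self]).hf
  have k0 : k' ≠ 0 := left_ne_zero_of_mul_eq_one hi
  have t : Tendsto g (𝓝 0) (𝓝 k') := by
    have := (isLittleO_one_iff ℝ).1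
      ((((h'.hf.isBigO.add h'.hq).trans n2.isBigO).add h'.hl).trans_isLittleO n1)
    simpa using this.add_const k'
  refine ⟨o1, o2, ((d.mul_isBigO ((t.inv₀ k0).isBigO_one ℝ)).congr_right
    fun a => mul_one _).congr' ?_ EventuallyEq.rfl⟩
  filter_upwards [t.eventually_ne k0] with a ha
  field_simp
  ring

theorem Gam_near (a : E) (j : ℕ) : ‖Gam a j - w ^ j‖ ≤ 4 * ‖a‖ := by
  have h1 : ‖a.1‖ ≤ ‖a‖ := norm_fst_le a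
  have h : ‖a.2‖ ≤ ‖a‖ := norm_snd_le a
  have h2 := norm_fst_le a.2
  have h' := norm_snd_le a.2
  have h3 := norm_fst_le a.2.2
  have h4 := norm_snd_le a.2.2
  rw [show Gam a j - w ^ j = a.1 * w ^ (2 * j) + a.2.1 * w ^ (3 * j) + a.2.2.1 * w ^ (5 * j) +
    a.2.2.2 * w ^ (4 * j) by unfold Gam; ring]
  refine (norm_add_le _ _).trans ((add_le_add_left norm_add₃_le _).trans ?_)
  simp only [norm_mul, norm_w, mul_one]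
  linarith

theorem jet_re (j : ℕ) : Jet (fun a => (Gam a j).re) (w ^ j).re
    (fun a => (Gam a j).re - (w ^ j).re) fun _ => 0 :=
  ⟨IsBigO.of_bound 4 (Eventually.of_forall fun a => by
    rw [← Complex.sub_re, norm_norm]
    exact (Complex.abs_re_le_norm _).trans (Gam_near a j)), isBigO_zero _ _,
    (isLittleO_zero _ _).congr_left fun a => by ring⟩

theorem jet_im (j : ℕ) : Jet (fun a => (Gam a j).im) (w ^ j).im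
    (fun a => (Gam a j).im - (w ^ j).im) fun _ => 0 :=
  ⟨IsBigO.of_bound 4 (Eventually.of_forall fun a => by
    rw [← Complex.sub_im, norm_norm]
    exact (Complex.abs_im_le_norm _).trans (Gam_near a j)), isBigO_zero _ _,
    (isLittleO_zero _ _).congr_left fun a => by ring⟩

theorem ell_le (a : E) : |ell a| ≤ 23 * ‖a‖ := by
  have h1 := abs_le.1 ((Complex.abs_re_le_norm _).trans (norm_fst_le a))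
  have h : ‖a.2‖ ≤ ‖a‖ := norm_snd_le a
  have h2 := abs_le.1 ((Complex.abs_re_le_norm _).trans (norm_fst_le a.2))
  have h' := norm_snd_le a.2
  have h3 := abs_le.1 ((Complex.abs_re_le_norm _).trans (norm_fst_le a.2.2))
  unfold ell
  rw [abs_le]
  constructor <;> linarith [h1.1, h1.2, h2.1, h2.2, h3.1, h3.2]

theorem jell : Jet ell 0 ell fun _ => 0 :=
  ⟨IsBigO.of_bound 23 (Eventually.of_forall fun a => by rw [norm_norm]; exact ell_le a),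
    isBigO_zero _ _, (isLittleO_zero _ _).congr_left fun a => by ring⟩

theorem jx0 : Jet (fun a => (Gam a 0).re) ((1))
    (fun a => (1) * a.1.re + (1) * a.2.1.re + (1) * a.2.2.1.re + (1) * a.2.2.2.re) fun _ => 0 :=
  (jet_re 0).congr (by simp only [w_tb, tb, Nat.reduceMod]; try ring)
    (fun a => by
      simp only [Gam, w_tb, tb, Nat.reduceMul, Nat.reduceMod, Complex.add_re, Complex.mul_re]
      ring) fun _ => rfl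

theorem jy0 : Jet (fun a => (Gam a 0).im) (0)
    (fun a => (1) * a.1.im + (1) * a.2.1.im + (1) * a.2.2.1.im + (1) * a.2.2.2.im) fun _ => 0 :=
  (jet_im 0).congr (by simp only [w_tb, tb, Nat.reduceMod]; try ring)
    (fun a => by
      simp only [Gam, w_tb, tb, Nat.reduceMul, Nat.reduceMod, Complex.add_im, Complex.mul_im]
      ring) fun _ => rfl

theorem jx1 : Jet (fun a => (Gam a 1).re) ((-1 + 2 * c ^ 2))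
    (fun a => (1 / 2 + c - 2 * c ^ 2) * a.1.re + (2 - 4 * c ^ 2) * s * a.1.im + (-c) * a.2.1.re +
    (-2 - 2 * c + 4 * c ^ 2) * s * a.2.1.im + (1 / 2 + c - 2 * c ^ 2) * a.2.2.1.re + (-2 + 4 * c
    ^ 2) * s * a.2.2.1.im + (-c) * a.2.2.2.re + (2 + 2 * c - 4 * c ^ 2) * s * a.2.2.2.im) fun _
    => 0 :=
  (jet_re 1).congr (by simp only [w_tb, tb, Nat.reduceMod]; try ring)
    (fun a => by
      simp only [Gam, w_tb, tb, Nat.reduceMul, Nat.reduceMod, Complex.add_re, Complex.mul_re]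
      ring) fun _ => rfl

theorem jy1 : Jet (fun a => (Gam a 1).im) ((1) * s)
    (fun a => (-2 + 4 * c ^ 2) * s * a.1.re + (1 / 2 + c - 2 * c ^ 2) * a.1.im + (2 + 2 * c - 4 *
    c ^ 2) * s * a.2.1.re + (-c) * a.2.1.im + (2 - 4 * c ^ 2) * s * a.2.2.1.re + (1 / 2 + c - 2 *
    c ^ 2) * a.2.2.1.im + (-2 - 2 * c + 4 * c ^ 2) * s * a.2.2.2.re + (-c) * a.2.2.2.im) fun _ =>
    0 :=
  (jet_im 1).congr (by simp only [w_tb, tb, Nat.reduceMod]; try ring)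
    (fun a => by
      simp only [Gam, w_tb, tb, Nat.reduceMul, Nat.reduceMod, Complex.add_im, Complex.mul_im]
      ring) fun _ => rfl

theorem jx2 : Jet (fun a => (Gam a 2).re) ((1 / 2 + c - 2 * c ^ 2))
    (fun a => (-c) * a.1.re + (2 + 2 * c - 4 * c ^ 2) * s * a.1.im + (-1 + 2 * c ^ 2) * a.2.1.re
    + (1) * s * a.2.1.im + (-c) * a.2.2.1.re + (-2 - 2 * c + 4 * c ^ 2) * s * a.2.2.1.im + (-1 +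
    2 * c ^ 2) * a.2.2.2.re + (-1) * s * a.2.2.2.im) fun _ => 0 :=
  (jet_re 2).congr (by simp only [w_tb, tb, Nat.reduceMod]; try ring)
    (fun a => by
      simp only [Gam, w_tb, tb, Nat.reduceMul, Nat.reduceMod, Complex.add_re, Complex.mul_re]
      ring) fun _ => rfl

theorem jy2 : Jet (fun a => (Gam a 2).im) ((-2 + 4 * c ^ 2) * s)
    (fun a => (-2 - 2 * c + 4 * c ^ 2) * s * a.1.re + (-c) * a.1.im + (-1) * s * a.2.1.re + (-1 +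
    2 * c ^ 2) * a.2.1.im + (2 + 2 * c - 4 * c ^ 2) * s * a.2.2.1.re + (-c) * a.2.2.1.im + (1) *
    s * a.2.2.2.re + (-1 + 2 * c ^ 2) * a.2.2.2.im) fun _ => 0 :=
  (jet_im 2).congr (by simp only [w_tb, tb, Nat.reduceMod]; try ring)
    (fun a => by
      simp only [Gam, w_tb, tb, Nat.reduceMul, Nat.reduceMod, Complex.add_im, Complex.mul_im]
      ring) fun _ => rfl

theorem jx3 : Jet (fun a => (Gam a 3).re) ((-c))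
    (fun a => (-1 + 2 * c ^ 2) * a.1.re + (1) * s * a.1.im + (1 / 2 + c - 2 * c ^ 2) * a.2.1.re +
    (2 - 4 * c ^ 2) * s * a.2.1.im + (-1 + 2 * c ^ 2) * a.2.2.1.re + (-1) * s * a.2.2.1.im + (1 /
    2 + c - 2 * c ^ 2) * a.2.2.2.re + (-2 + 4 * c ^ 2) * s * a.2.2.2.im) fun _ => 0 :=
  (jet_re 3).congr (by simp only [w_tb, tb, Nat.reduceMod]; try ring)
    (fun a => by
      simp only [Gam, w_tb, tb, Nat.reduceMul, Nat.reduceMod, Complex.add_re, Complex.mul_re]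
      ring) fun _ => rfl

theorem jy3 : Jet (fun a => (Gam a 3).im) ((2 + 2 * c - 4 * c ^ 2) * s)
    (fun a => (-1) * s * a.1.re + (-1 + 2 * c ^ 2) * a.1.im + (-2 + 4 * c ^ 2) * s * a.2.1.re +
    (1 / 2 + c - 2 * c ^ 2) * a.2.1.im + (1) * s * a.2.2.1.re + (-1 + 2 * c ^ 2) * a.2.2.1.im +
    (2 - 4 * c ^ 2) * s * a.2.2.2.re + (1 / 2 + c - 2 * c ^ 2) * a.2.2.2.im) fun _ => 0 :=
  (jet_im 3).congr (by simp only [w_tb, tb, Nat.reduceMod]; try ring)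
    (fun a => by
      simp only [Gam, w_tb, tb, Nat.reduceMul, Nat.reduceMod, Complex.add_im, Complex.mul_im]
      ring) fun _ => rfl

theorem jx4 : Jet (fun a => (Gam a 4).re) ((-c))
    (fun a => (-1 + 2 * c ^ 2) * a.1.re + (-1) * s * a.1.im + (1 / 2 + c - 2 * c ^ 2) * a.2.1.re
    + (-2 + 4 * c ^ 2) * s * a.2.1.im + (-1 + 2 * c ^ 2) * a.2.2.1.re + (1) * s * a.2.2.1.im + (1
    / 2 + c - 2 * c ^ 2) * a.2.2.2.re + (2 - 4 * c ^ 2) * s * a.2.2.2.im) fun _ => 0 :=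
  (jet_re 4).congr (by simp only [w_tb, tb, Nat.reduceMod]; try ring)
    (fun a => by
      simp only [Gam, w_tb, tb, Nat.reduceMul, Nat.reduceMod, Complex.add_re, Complex.mul_re]
      ring) fun _ => rfl

theorem jy4 : Jet (fun a => (Gam a 4).im) ((-2 - 2 * c + 4 * c ^ 2) * s)
    (fun a => (1) * s * a.1.re + (-1 + 2 * c ^ 2) * a.1.im + (2 - 4 * c ^ 2) * s * a.2.1.re + (1
    / 2 + c - 2 * c ^ 2) * a.2.1.im + (-1) * s * a.2.2.1.re + (-1 + 2 * c ^ 2) * a.2.2.1.im + (-2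
    + 4 * c ^ 2) * s * a.2.2.2.re + (1 / 2 + c - 2 * c ^ 2) * a.2.2.2.im) fun _ => 0 :=
  (jet_im 4).congr (by simp only [w_tb, tb, Nat.reduceMod]; try ring)
    (fun a => by
      simp only [Gam, w_tb, tb, Nat.reduceMul, Nat.reduceMod, Complex.add_im, Complex.mul_im]
      ring) fun _ => rfl

theorem jx5 : Jet (fun a => (Gam a 5).re) ((1 / 2 + c - 2 * c ^ 2))
    (fun a => (-c) * a.1.re + (-2 - 2 * c + 4 * c ^ 2) * s * a.1.im + (-1 + 2 * c ^ 2) * a.2.1.re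
    + (-1) * s * a.2.1.im + (-c) * a.2.2.1.re + (2 + 2 * c - 4 * c ^ 2) * s * a.2.2.1.im + (-1 +
    2 * c ^ 2) * a.2.2.2.re + (1) * s * a.2.2.2.im) fun _ => 0 :=
  (jet_re 5).congr (by simp only [w_tb, tb, Nat.reduceMod]; try ring)
    (fun a => by
      simp only [Gam, w_tb, tb, Nat.reduceMul, Nat.reduceMod, Complex.add_re, Complex.mul_re]
      ring) fun _ => rfl

theorem jy5 : Jet (fun a => (Gam a 5).im) ((2 - 4 * c ^ 2) * s)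
    (fun a => (2 + 2 * c - 4 * c ^ 2) * s * a.1.re + (-c) * a.1.im + (1) * s * a.2.1.re + (-1 + 2
    * c ^ 2) * a.2.1.im + (-2 - 2 * c + 4 * c ^ 2) * s * a.2.2.1.re + (-c) * a.2.2.1.im + (-1) *
    s * a.2.2.2.re + (-1 + 2 * c ^ 2) * a.2.2.2.im) fun _ => 0 :=
  (jet_im 5).congr (by simp only [w_tb, tb, Nat.reduceMod]; try ring)
    (fun a => by
      simp only [Gam, w_tb, tb, Nat.reduceMul, Nat.reduceMod, Complex.add_im, Complex.mul_im]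
      ring) fun _ => rfl

theorem jx6 : Jet (fun a => (Gam a 6).re) ((-1 + 2 * c ^ 2))
    (fun a => (1 / 2 + c - 2 * c ^ 2) * a.1.re + (-2 + 4 * c ^ 2) * s * a.1.im + (-c) * a.2.1.re
    + (2 + 2 * c - 4 * c ^ 2) * s * a.2.1.im + (1 / 2 + c - 2 * c ^ 2) * a.2.2.1.re + (2 - 4 * c
    ^ 2) * s * a.2.2.1.im + (-c) * a.2.2.2.re + (-2 - 2 * c + 4 * c ^ 2) * s * a.2.2.2.im) fun _
    => 0 :=
  (jet_re 6).congr (by simp only [w_tb, tb, Nat.reduceMod]; try ring)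
    (fun a => by
      simp only [Gam, w_tb, tb, Nat.reduceMul, Nat.reduceMod, Complex.add_re, Complex.mul_re]
      ring) fun _ => rfl

theorem jy6 : Jet (fun a => (Gam a 6).im) ((-1) * s)
    (fun a => (2 - 4 * c ^ 2) * s * a.1.re + (1 / 2 + c - 2 * c ^ 2) * a.1.im + (-2 - 2 * c + 4 *
    c ^ 2) * s * a.2.1.re + (-c) * a.2.1.im + (-2 + 4 * c ^ 2) * s * a.2.2.1.re + (1 / 2 + c - 2
    * c ^ 2) * a.2.2.1.im + (2 + 2 * c - 4 * c ^ 2) * s * a.2.2.2.re + (-c) * a.2.2.2.im) fun _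
    => 0 :=
  (jet_im 6).congr (by simp only [w_tb, tb, Nat.reduceMod]; try ring)
    (fun a => by
      simp only [Gam, w_tb, tb, Nat.reduceMul, Nat.reduceMod, Complex.add_im, Complex.mul_im]
      ring) fun _ => rfl

theorem jsM : Jet (fun a => sM (Gam a)) ((1 / 2))
    (fun a => (-2 - 2 * c + 4 * c ^ 2) * s * a.1.im + (-2 * c) * s * a.2.1.im + (-2 - 2 * c + 4 *
    c ^ 2) * s * a.2.2.1.im + (-2 * c) * s * a.2.2.2.im)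
    (fun a => (-1) * s * a.1.re * a.1.im + (-2 + 4 * c ^ 2) * s * a.1.im * a.2.1.re + (-4 * c ^
    2) * s * a.1.re * a.2.1.im + (-1 + 2 * c + 4 * c ^ 2) * s * a.2.1.re * a.2.1.im + (1) * s *
    a.1.im * a.2.2.1.re + (4 * c ^ 2) * s * a.2.1.im * a.2.2.1.re + (-1) * s * a.1.re *
    a.2.2.1.im + (-2 + 4 * c ^ 2) * s * a.2.1.re * a.2.2.1.im + (1) * s * a.2.2.1.re * a.2.2.1.im
    + (2 - 4 * c ^ 2) * s * a.1.im * a.2.2.2.re + (1 - 2 * c - 4 * c ^ 2) * s * a.2.1.im *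
    a.2.2.2.re + (2 - 4 * c ^ 2) * s * a.2.2.1.im * a.2.2.2.re + (-4 * c ^ 2) * s * a.1.re *
    a.2.2.2.im + (-1 + 2 * c + 4 * c ^ 2) * s * a.2.1.re * a.2.2.2.im + (4 * c ^ 2) * s *
    a.2.2.1.re * a.2.2.2.im + (1 - 2 * c - 4 * c ^ 2) * s * a.2.2.2.re * a.2.2.2.im) :=
  Jet.div (jy0.sub jy3) (jy4.sub jy3) ((-6 / 7 - 12 / 7 * c + 8 / 7 * c ^ 2) * s)
    (by linear_combination ((-1 / 7 + 2 / 7 * c - 16 / 7 * c ^ 2 + 8 / 7 * c ^ 3)) * hc + ((24 /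
    7 + 72 / 7 * c - 32 / 7 * c ^ 2 - 128 / 7 * c ^ 3 + 64 / 7 * c ^ 4)) * hs)
    (by ring)
    (fun a => by linear_combination ((4 * c ^ 2 - 4 * c ^ 3) * a.1.im + (1 / 2 - c + 2 * c ^ 2) *
    a.2.1.im + (4 * c ^ 2 - 4 * c ^ 3) * a.2.2.1.im + (1 / 2 - c + 2 * c ^ 2) * a.2.2.2.im) * hc
    + ((-8 - 16 * c + 24 * c ^ 2 + 32 * c ^ 3 - 32 * c ^ 4) * a.1.im + (-8 * c - 8 * c ^ 2 + 16 *
    c ^ 3) * a.2.1.im + (-8 - 16 * c + 24 * c ^ 2 + 32 * c ^ 3 - 32 * c ^ 4) * a.2.2.1.im + (-8 *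
    c - 8 * c ^ 2 + 16 * c ^ 3) * a.2.2.2.im) * hs)
    (fun a => by linear_combination ((c - 2 * c ^ 2 + 4 * c ^ 3) * a.1.re * a.2.1.im + (-1 + c -
    2 * c ^ 2 - 4 * c ^ 3) * a.2.1.re * a.2.1.im + (-c + 2 * c ^ 2 - 4 * c ^ 3) * a.2.1.im *
    a.2.2.1.re + (1 - c + 2 * c ^ 2 + 4 * c ^ 3) * a.2.1.im * a.2.2.2.re + (c - 2 * c ^ 2 + 4 * c
    ^ 3) * a.1.re * a.2.2.2.im + (-1 + c - 2 * c ^ 2 - 4 * c ^ 3) * a.2.1.re * a.2.2.2.im + (-c +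
    2 * c ^ 2 - 4 * c ^ 3) * a.2.2.1.re * a.2.2.2.im + (1 - c + 2 * c ^ 2 + 4 * c ^ 3) *
    a.2.2.2.re * a.2.2.2.im) * hc + ((4 * c - 16 * c ^ 2 - 16 * c ^ 3 + 32 * c ^ 4) * a.1.re *
    a.2.1.im + (-4 + 12 * c + 32 * c ^ 2 - 16 * c ^ 3 - 32 * c ^ 4) * a.2.1.re * a.2.1.im + (-4 *
    c + 16 * c ^ 2 + 16 * c ^ 3 - 32 * c ^ 4) * a.2.1.im * a.2.2.1.re + (4 - 12 * c - 32 * c ^ 2
    + 16 * c ^ 3 + 32 * c ^ 4) * a.2.1.im * a.2.2.2.re + (4 * c - 16 * c ^ 2 - 16 * c ^ 3 + 32 *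
    c ^ 4) * a.1.re * a.2.2.2.im + (-4 + 12 * c + 32 * c ^ 2 - 16 * c ^ 3 - 32 * c ^ 4) *
    a.2.1.re * a.2.2.2.im + (-4 * c + 16 * c ^ 2 + 16 * c ^ 3 - 32 * c ^ 4) * a.2.2.1.re *
    a.2.2.2.im + (4 - 12 * c - 32 * c ^ 2 + 16 * c ^ 3 + 32 * c ^ 4) * a.2.2.2.re * a.2.2.2.im) *
    hs)

theorem jl0 : Jet (fun a => l0 (Gam a)) ((1 / 2 + 1 / 2 * c))
    (fun a => (1 - c ^ 2) * a.1.re + (1 / 4 - 1 / 2 * c + c ^ 2) * a.2.1.re + (1 - c ^ 2) *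
    a.2.2.1.re + (1 / 4 - 1 / 2 * c + c ^ 2) * a.2.2.2.re)
    (fun a => (-1 / 4 - c + c ^ 2) * a.1.im ^ 2 + (-1 / 2 - 2 * c + 2 * c ^ 2) * a.1.im *
    a.2.1.im + (-1 / 4 + 2 * c ^ 2) * a.2.1.im ^ 2 + (-1 + c + 2 * c ^ 2) * a.2.1.im * a.2.2.1.im
    + (1 / 4 + c - c ^ 2) * a.2.2.1.im ^ 2 + (1 - c - 2 * c ^ 2) * a.1.im * a.2.2.2.im + (1 / 2 +
    2 * c - 2 * c ^ 2) * a.2.2.1.im * a.2.2.2.im + (1 / 4 - 2 * c ^ 2) * a.2.2.2.im ^ 2) :=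
  ((Jet.const (1 / 2)).mul ((jx0.sub jx3).sub (jsM.mul (jx4.sub jx3)))).congr
    (by ring)
    (fun a => by ring)
    (fun a => by linear_combination ((-1 / 4 + 1 / 2 * c) * a.1.im ^ 2 + (-1 / 2 + 1 / 2 * c + c
    ^ 2 - 2 * c ^ 3) * a.1.im * a.2.1.im + (1 / 4 + c ^ 2) * a.2.1.im ^ 2 + (1 / 2 * c + c ^ 2 -
    2 * c ^ 3) * a.2.1.im * a.2.2.1.im + (1 / 4 - 1 / 2 * c) * a.2.2.1.im ^ 2 + (-1 / 2 * c - c ^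
    2 + 2 * c ^ 3) * a.1.im * a.2.2.2.im + (1 / 2 - 1 / 2 * c - c ^ 2 + 2 * c ^ 3) * a.2.2.1.im *
    a.2.2.2.im + (-1 / 4 - c ^ 2) * a.2.2.2.im ^ 2) * hc + ((-2 - 2 * c + 4 * c ^ 2) * a.1.im ^ 2
    + (-4 - 6 * c + 16 * c ^ 2 + 8 * c ^ 3 - 16 * c ^ 4) * a.1.im * a.2.1.im + (-4 * c + 8 * c ^
    3) * a.2.1.im ^ 2 + (-4 - 2 * c + 16 * c ^ 2 + 8 * c ^ 3 - 16 * c ^ 4) * a.2.1.im *
    a.2.2.1.im + (2 + 2 * c - 4 * c ^ 2) * a.2.2.1.im ^ 2 + (4 + 2 * c - 16 * c ^ 2 - 8 * c ^ 3 +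
    16 * c ^ 4) * a.1.im * a.2.2.2.im + (4 + 6 * c - 16 * c ^ 2 - 8 * c ^ 3 + 16 * c ^ 4) *
    a.2.2.1.im * a.2.2.2.im + (4 * c - 8 * c ^ 3) * a.2.2.2.im ^ 2) * hs)

theorem jkp1 : Jet (fun a => kp (Gam a 1) (Gam a 2) (Gam a 3)) ((-20 / 7 - 12 / 7 * c + 36 / 7 * c ^ 2) * s)
    (fun a => (-30 / 7 - 18 / 7 * c + 68 / 7 * c ^ 2) * s * a.1.re + (-2 - c + 4 * c ^ 2) *
    a.1.im + (-34 / 7 - 12 / 7 * c + 64 / 7 * c ^ 2) * s * a.2.1.re + (2 - 4 * c ^ 2) * a.2.1.im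
    + (-27 / 7 - 12 / 7 * c + 36 / 7 * c ^ 2) * s * a.2.2.1.re + (-3 / 2 - c + 4 * c ^ 2) *
    a.2.2.1.im + (51 / 7 + 18 / 7 * c - 96 / 7 * c ^ 2) * s * a.2.2.2.re + (-5 / 2 - 2 * c + 4 *
    c ^ 2) * a.2.2.2.im)
    (fun a => (-41 / 7 - 12 / 7 * c + 92 / 7 * c ^ 2) * s * a.1.re ^ 2 + (-5 + 8 * c ^ 2) *
    a.1.re * a.1.im + (-43 / 7 - 16 / 7 * c + 76 / 7 * c ^ 2) * s * a.1.im ^ 2 + (-10 - 4 * c +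
    20 * c ^ 2) * s * a.1.re * a.2.1.re + (-5 / 2 - c + 6 * c ^ 2) * a.1.im * a.2.1.re + (12 / 7
    + 10 / 7 * c - 16 / 7 * c ^ 2) * s * a.2.1.re ^ 2 + (13 / 2 + c - 14 * c ^ 2) * a.1.re *
    a.2.1.im + (110 / 7 + 52 / 7 * c - 212 / 7 * c ^ 2) * s * a.1.im * a.2.1.im + (6 + 2 * c - 12
    * c ^ 2) * a.2.1.re * a.2.1.im + (-62 / 7 - 26 / 7 * c + 120 / 7 * c ^ 2) * s * a.2.1.im ^ 2
    + (-73 / 7 - 62 / 7 * c + 116 / 7 * c ^ 2) * s * a.1.re * a.2.2.1.re + (-5 - 5 * c + 10 * c ^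
    2) * a.1.im * a.2.2.1.re + (-76 / 7 - 40 / 7 * c + 120 / 7 * c ^ 2) * s * a.2.1.re *
    a.2.2.1.re + (6 + 4 * c - 8 * c ^ 2) * a.2.1.im * a.2.2.1.re + (-46 / 7 - 8 / 7 * c + 80 / 7
    * c ^ 2) * s * a.2.2.1.re ^ 2 + (-3 - 3 * c + 6 * c ^ 2) * a.1.re * a.2.2.1.im + (-7 - 2 * c
    + 12 * c ^ 2) * s * a.1.im * a.2.2.1.im + (76 / 7 + 40 / 7 * c - 120 / 7 * c ^ 2) * s *
    a.2.1.im * a.2.2.1.im + (-4 - 2 * c + 8 * c ^ 2) * a.2.2.1.re * a.2.2.1.im + (-6 / 7 - 12 / 7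
    * c + 8 / 7 * c ^ 2) * s * a.2.2.1.im ^ 2 + (108 / 7 + 48 / 7 * c - 200 / 7 * c ^ 2) * s *
    a.1.re * a.2.2.2.re + (8 + 4 * c - 16 * c ^ 2) * a.1.im * a.2.2.2.re + (71 / 7 + 30 / 7 * c -
    132 / 7 * c ^ 2) * s * a.2.1.re * a.2.2.2.re + (-10 - 5 * c + 18 * c ^ 2) * a.2.1.im *
    a.2.2.2.re + (130 / 7 + 64 / 7 * c - 220 / 7 * c ^ 2) * s * a.2.2.1.re * a.2.2.2.re + (9 / 2
    + 3 * c - 6 * c ^ 2) * a.2.2.1.im * a.2.2.2.re + (-95 / 7 - 50 / 7 * c + 164 / 7 * c ^ 2) * s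
    * a.2.2.2.re ^ 2 + (-6 - 4 * c + 8 * c ^ 2) * a.1.re * a.2.2.2.im + (-76 / 7 - 40 / 7 * c +
    120 / 7 * c ^ 2) * s * a.1.im * a.2.2.2.im + (-4 - 3 * c + 6 * c ^ 2) * a.2.1.re * a.2.2.2.im
    + (17 + 10 * c - 28 * c ^ 2) * s * a.2.1.im * a.2.2.2.im + (-13 / 2 - 3 * c + 14 * c ^ 2) *
    a.2.2.1.re * a.2.2.2.im + (-54 / 7 - 24 / 7 * c + 100 / 7 * c ^ 2) * s * a.2.2.1.im *
    a.2.2.2.im + (7 + 4 * c - 12 * c ^ 2) * a.2.2.2.re * a.2.2.2.im + (-71 / 7 - 30 / 7 * c + 132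
    / 7 * c ^ 2) * s * a.2.2.2.im ^ 2) :=
  Jet.div ((jy2.sub jy1).mul (jy3.sub jy2)) (((jx2.sub jx1).mul (jy3.sub jy2)).sub ((jy2.sub jy1).mul (jx3.sub jx2))) ((8 / 7 + 8 / 7 * c) * s)
    (by linear_combination ((2 / 7 + 1 / 7 * c - 8 / 7 * c ^ 2 + 16 / 7 * c ^ 3 + 24 / 7 * c ^
    4)) * hc + ((36 / 7 + 44 / 7 * c - 136 / 7 * c ^ 2 - 208 / 7 * c ^ 3 + 128 / 7 * c ^ 4 + 192
    / 7 * c ^ 5)) * hs)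
    (by linear_combination ((3 / 14 + 11 / 7 * c - 5 / 2 * c ^ 2 + 20 / 7 * c ^ 3 + 72 / 7 * c ^
    4 - 108 / 7 * c ^ 5)) * hc + ((6 / 7 + 32 / 7 * c - 230 / 7 * c ^ 2 - 356 / 7 * c ^ 3 + 808 /
    7 * c ^ 4 + 576 / 7 * c ^ 5 - 864 / 7 * c ^ 6)) * hs)
    (fun a => by linear_combination ((11 / 7 - 1 / 28 * c - 2 / 7 * c ^ 2 + 50 / 7 * c ^ 3 + 74 /
    7 * c ^ 4 - 24 * c ^ 5) * a.1.re + (20 / 7 + 43 / 14 * c + 17 / 7 * c ^ 2 - 118 / 7 * c ^ 3 +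
    12 / 7 * c ^ 4 + 72 / 7 * c ^ 5) * s * a.1.im + (10 / 7 - 5 / 7 * c + 13 / 14 * c ^ 2 + 46 /
    7 * c ^ 3 + 4 * c ^ 4 - 12 * c ^ 5) * a.2.1.re + (-25 / 14 - 55 / 7 * c - 88 / 7 * c ^ 2 +
    186 / 7 * c ^ 3 + 180 / 7 * c ^ 4 - 216 / 7 * c ^ 5) * s * a.2.1.im + (25 / 56 - 27 / 14 * c
    + 12 / 7 * c ^ 2 + 19 / 7 * c ^ 3 - 96 / 7 * c ^ 4 + 72 / 7 * c ^ 5) * a.2.2.1.re + (137 / 28
    + 13 / 7 * c - 39 / 7 * c ^ 2 + 58 / 7 * c ^ 3 - 12 / 7 * c ^ 4 - 72 / 7 * c ^ 5) * s *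
    a.2.2.1.im + (-193 / 56 + 75 / 28 * c - 33 / 14 * c ^ 2 - 115 / 7 * c ^ 3 - 6 / 7 * c ^ 4 +
    180 / 7 * c ^ 5) * a.2.2.2.re + (-83 / 28 + 153 / 14 * c + 166 / 7 * c ^ 2 - 42 * c ^ 3 - 180
    / 7 * c ^ 4 + 216 / 7 * c ^ 5) * s * a.2.2.2.im) * hc + ((44 / 7 - 89 / 7 * c - 534 / 7 * c ^
    2 - 124 / 7 * c ^ 3 + 1408 / 7 * c ^ 4 + 592 / 7 * c ^ 5 - 192 * c ^ 6) * a.1.re + (-60 / 7 +
    4 / 7 * c + 76 * c ^ 2 + 8 / 7 * c ^ 3 - 1136 / 7 * c ^ 4 + 96 / 7 * c ^ 5 + 576 / 7 * c ^ 6)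
    * s * a.1.im + (40 / 7 - 100 / 7 * c - 414 / 7 * c ^ 2 + 52 / 7 * c ^ 3 + 872 / 7 * c ^ 4 +
    32 * c ^ 5 - 96 * c ^ 6) * a.2.1.re + (300 / 7 + 460 / 7 * c - 1412 / 7 * c ^ 2 - 1608 / 7 *
    c ^ 3 + 2544 / 7 * c ^ 4 + 1440 / 7 * c ^ 5 - 1728 / 7 * c ^ 6) * s * a.2.1.im + (25 / 14 -
    79 / 7 * c + 6 / 7 * c ^ 2 + 528 / 7 * c ^ 3 - 40 * c ^ 4 - 768 / 7 * c ^ 5 + 576 / 7 * c ^
    6) * a.2.2.1.re + (60 / 7 - 4 / 7 * c - 76 * c ^ 2 - 8 / 7 * c ^ 3 + 1136 / 7 * c ^ 4 - 96 /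
    7 * c ^ 5 - 576 / 7 * c ^ 6) * s * a.2.2.1.im + (-193 / 14 + 268 / 7 * c + 942 / 7 * c ^ 2 -
    456 / 7 * c ^ 3 - 2000 / 7 * c ^ 4 - 48 / 7 * c ^ 5 + 1440 / 7 * c ^ 6) * a.2.2.2.re + (-300
    / 7 - 460 / 7 * c + 1412 / 7 * c ^ 2 + 1608 / 7 * c ^ 3 - 2544 / 7 * c ^ 4 - 1440 / 7 * c ^ 5
    + 1728 / 7 * c ^ 6) * s * a.2.2.2.im) * hs)
    (fun a => by linear_combination ((139 / 56 - 39 / 28 * c - 25 / 14 * c ^ 2 + 121 / 7 * c ^ 3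
    - 6 * c ^ 4 - 172 / 7 * c ^ 5) * a.1.re ^ 2 + (30 / 7 + 103 / 14 * c - 20 / 7 * c ^ 2 - 184 /
    7 * c ^ 3 + 32 / 7 * c ^ 4 + 136 / 7 * c ^ 5) * s * a.1.re * a.1.im + (115 / 56 - 32 / 7 * c
    - 61 / 14 * c ^ 2 + 114 / 7 * c ^ 3 + 54 / 7 * c ^ 4 - 136 / 7 * c ^ 5) * a.1.im ^ 2 + (15 /
    14 - 1 / 4 * c + 3 / 2 * c ^ 2 + 10 / 7 * c ^ 3 + 86 / 7 * c ^ 4 - 116 / 7 * c ^ 5) * a.1.re
    * a.2.1.re + (13 / 28 + 37 / 14 * c + 11 * c ^ 2 - 148 / 7 * c ^ 3 - 92 / 7 * c ^ 4 + 200 / 7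
    * c ^ 5) * s * a.1.im * a.2.1.re + (-2 / 7 - 25 / 28 * c + 3 / 2 * c ^ 2 - 4 / 7 * c ^ 3 - 74
    / 7 * c ^ 4 + 132 / 7 * c ^ 5) * a.2.1.re ^ 2 + (-71 / 28 - 132 / 7 * c - 185 / 7 * c ^ 2 +
    484 / 7 * c ^ 3 + 444 / 7 * c ^ 4 - 480 / 7 * c ^ 5) * s * a.1.re * a.2.1.im + (-55 / 14 + 59
    / 7 * c + 135 / 14 * c ^ 2 - 285 / 7 * c ^ 3 - 30 * c ^ 4 + 64 * c ^ 5) * a.1.im * a.2.1.im +
    (17 / 14 - 97 / 7 * c - 186 / 7 * c ^ 2 + 368 / 7 * c ^ 3 + 264 / 7 * c ^ 4 - 384 / 7 * c ^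
    5) * s * a.2.1.re * a.2.1.im + (39 / 28 - 123 / 28 * c - 111 / 14 * c ^ 2 + 128 / 7 * c ^ 3 +
    186 / 7 * c ^ 4 - 300 / 7 * c ^ 5) * a.2.1.im ^ 2 + (39 / 28 - 13 / 7 * c + 39 / 14 * c ^ 2 +
    46 / 7 * c ^ 3 - 40 / 7 * c ^ 4 + 4 * c ^ 5) * a.1.re * a.2.2.1.re + (5 / 14 + 43 / 14 * c +
    24 / 7 * c ^ 2 - 118 / 7 * c ^ 3 + 12 / 7 * c ^ 4 + 72 / 7 * c ^ 5) * s * a.1.im * a.2.2.1.re
    + (89 / 56 - 53 / 14 * c + 39 / 7 * c ^ 2 + 19 / 7 * c ^ 3 - 72 / 7 * c ^ 4 + 32 / 7 * c ^ 5)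
    * a.2.1.re * a.2.2.1.re + (15 / 14 - 131 / 14 * c - 141 / 7 * c ^ 2 + 222 / 7 * c ^ 3 + 48 /
    7 * c ^ 4 - 144 / 7 * c ^ 5) * s * a.2.1.im * a.2.2.1.re + (83 / 56 - 16 / 7 * c + 25 / 7 * c
    ^ 2 + 9 / 7 * c ^ 3 + 20 / 7 * c ^ 4 - 96 / 7 * c ^ 5) * a.2.2.1.re ^ 2 + (97 / 28 + 53 / 14
    * c - 62 / 7 * c ^ 2 + 150 / 7 * c ^ 3 - 32 / 7 * c ^ 4 - 136 / 7 * c ^ 5) * s * a.1.re *
    a.2.2.1.im + (25 / 8 - 6 * c - 11 * c ^ 2 + 32 * c ^ 3 + 18 * c ^ 4 - 36 * c ^ 5) * a.1.im *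
    a.2.2.1.im + (57 / 28 - 36 / 7 * c - 13 * c ^ 2 + 274 / 7 * c ^ 3 + 92 / 7 * c ^ 4 - 200 / 7
    * c ^ 5) * s * a.2.1.re * a.2.2.1.im + (-39 / 14 + 269 / 28 * c + 69 / 14 * c ^ 2 - 228 / 7 *
    c ^ 3 - 74 / 7 * c ^ 4 + 212 / 7 * c ^ 5) * a.2.1.im * a.2.2.1.im + (137 / 28 - 23 / 14 * c -
    74 / 7 * c ^ 2 + 128 / 7 * c ^ 3 - 12 / 7 * c ^ 4 - 72 / 7 * c ^ 5) * s * a.2.2.1.re *
    a.2.2.1.im + (9 / 28 - 5 / 28 * c - 107 / 14 * c ^ 2 + 82 / 7 * c ^ 3 + 114 / 7 * c ^ 4 - 116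
    / 7 * c ^ 5) * a.2.2.1.im ^ 2 + (-303 / 56 + 41 / 14 * c + 5 / 7 * c ^ 2 - 229 / 7 * c ^ 3 +
    16 / 7 * c ^ 4 + 48 * c ^ 5) * a.1.re * a.2.2.2.re + (-50 / 7 - 83 / 7 * c - 25 / 7 * c ^ 2 +
    274 / 7 * c ^ 3 + 72 / 7 * c ^ 4 - 264 / 7 * c ^ 5) * s * a.1.im * a.2.2.2.re + (-115 / 28 +
    109 / 14 * c - 23 / 2 * c ^ 2 - 90 / 7 * c ^ 3 + 156 / 7 * c ^ 4 - 12 * c ^ 5) * a.2.1.re *
    a.2.2.2.re + (10 / 7 + 163 / 7 * c + 258 / 7 * c ^ 2 - 594 / 7 * c ^ 3 - 396 / 7 * c ^ 4 +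
    576 / 7 * c ^ 5) * s * a.2.1.im * a.2.2.2.re + (-55 / 14 + 33 / 4 * c - 197 / 14 * c ^ 2 - 2
    * c ^ 3 + 50 / 7 * c ^ 4 + 36 / 7 * c ^ 5) * a.2.2.1.re * a.2.2.2.re + (-117 / 14 + 25 / 14 *
    c + 171 / 7 * c ^ 2 - 376 / 7 * c ^ 3 - 72 / 7 * c ^ 4 + 264 / 7 * c ^ 5) * s * a.2.2.1.im *
    a.2.2.2.re + (40 / 7 - 17 / 2 * c + 82 / 7 * c ^ 2 + 132 / 7 * c ^ 3 - 100 / 7 * c ^ 4 - 96 /
    7 * c ^ 5) * a.2.2.2.re ^ 2 + (43 / 28 + 261 / 14 * c + 39 * c ^ 2 - 454 / 7 * c ^ 3 - 444 /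
    7 * c ^ 4 + 480 / 7 * c ^ 5) * s * a.1.re * a.2.2.2.im + (23 / 7 - 129 / 28 * c + 29 / 14 * c
    ^ 2 - 10 / 7 * c ^ 3 + 102 / 7 * c ^ 4 - 100 / 7 * c ^ 5) * a.1.im * a.2.2.2.im + (-41 / 28 +
    108 / 7 * c + 222 / 7 * c ^ 2 - 62 * c ^ 3 - 264 / 7 * c ^ 4 + 384 / 7 * c ^ 5) * s *
    a.2.1.re * a.2.2.2.im + (-35 / 8 - 2 * c ^ 2 - 4 * c ^ 3 - 22 * c ^ 4 + 36 * c ^ 5) *
    a.2.1.im * a.2.2.2.im + (24 / 7 + 118 / 7 * c + 29 / 7 * c ^ 2 - 348 / 7 * c ^ 3 - 48 / 7 * c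
    ^ 4 + 144 / 7 * c ^ 5) * s * a.2.2.1.re * a.2.2.2.im + (83 / 14 - 69 / 14 * c - 93 / 14 * c ^
    2 + 215 / 7 * c ^ 3 - 2 * c ^ 4 - 32 * c ^ 5) * a.2.2.1.im * a.2.2.2.im + (-131 / 28 - 225 /
    7 * c - 270 / 7 * c ^ 2 + 108 * c ^ 3 + 396 / 7 * c ^ 4 - 576 / 7 * c ^ 5) * s * a.2.2.2.re *
    a.2.2.2.im + (55 / 56 + 9 / 14 * c + 181 / 14 * c ^ 2 - 44 / 7 * c ^ 3 - 18 / 7 * c ^ 4 - 120
    / 7 * c ^ 5) * a.2.2.2.im ^ 2) * hc + ((139 / 14 - 178 / 7 * c - 806 / 7 * c ^ 2 + 496 / 7 *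
    c ^ 3 + 2000 / 7 * c ^ 4 - 48 * c ^ 5 - 1376 / 7 * c ^ 6) * a.1.re ^ 2 + (-90 / 7 + 6 / 7 * c
    + 120 * c ^ 2 - 16 / 7 * c ^ 3 - 1984 / 7 * c ^ 4 + 256 / 7 * c ^ 5 + 1088 / 7 * c ^ 6) * s *
    a.1.re * a.1.im + (283 / 14 + 16 / 7 * c - 724 / 7 * c ^ 2 - 212 / 7 * c ^ 3 + 1392 / 7 * c ^
    4 + 432 / 7 * c ^ 5 - 1088 / 7 * c ^ 6) * a.1.im ^ 2 + (30 / 7 - 67 / 7 * c - 304 / 7 * c ^ 2
    - 200 / 7 * c ^ 3 + 776 / 7 * c ^ 4 + 688 / 7 * c ^ 5 - 928 / 7 * c ^ 6) * a.1.re * a.2.1.re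
    + (-162 / 7 - 204 / 7 * c + 1124 / 7 * c ^ 2 + 824 / 7 * c ^ 3 - 2384 / 7 * c ^ 4 - 736 / 7 *
    c ^ 5 + 1600 / 7 * c ^ 6) * s * a.1.im * a.2.1.re + (-8 / 7 - 9 / 7 * c + 188 / 7 * c ^ 2 +
    264 / 7 * c ^ 3 - 824 / 7 * c ^ 4 - 592 / 7 * c ^ 5 + 1056 / 7 * c ^ 6) * a.2.1.re ^ 2 + (510
    / 7 + 926 / 7 * c - 2556 / 7 * c ^ 2 - 3592 / 7 * c ^ 3 + 5008 / 7 * c ^ 4 + 3552 / 7 * c ^ 5
    - 3840 / 7 * c ^ 6) * s * a.1.re * a.2.1.im + (-313 / 7 - 13 / 7 * c + 2014 / 7 * c ^ 2 + 820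
    / 7 * c ^ 3 - 4296 / 7 * c ^ 4 - 240 * c ^ 5 + 512 * c ^ 6) * a.1.im * a.2.1.im + (510 / 7 +
    656 / 7 * c - 2560 / 7 * c ^ 2 - 2336 / 7 * c ^ 3 + 4672 / 7 * c ^ 4 + 2112 / 7 * c ^ 5 -
    3072 / 7 * c ^ 6) * s * a.2.1.re * a.2.1.im + (179 / 7 + 149 / 7 * c - 1060 / 7 * c ^ 2 - 960
    / 7 * c ^ 3 + 2488 / 7 * c ^ 4 + 1488 / 7 * c ^ 5 - 2400 / 7 * c ^ 6) * a.2.1.im ^ 2 + (39 /
    7 - 130 / 7 * c - 286 / 7 * c ^ 2 + 340 / 7 * c ^ 3 + 200 / 7 * c ^ 4 - 320 / 7 * c ^ 5 + 32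
    * c ^ 6) * a.1.re * a.2.2.1.re + (-81 / 7 + 18 / 7 * c + 96 * c ^ 2 - 48 / 7 * c ^ 3 - 1248 /
    7 * c ^ 4 + 96 / 7 * c ^ 5 + 576 / 7 * c ^ 6) * s * a.1.im * a.2.2.1.re + (89 / 14 - 195 / 7
    * c - 166 / 7 * c ^ 2 + 680 / 7 * c ^ 3 - 40 / 7 * c ^ 4 - 576 / 7 * c ^ 5 + 256 / 7 * c ^ 6)
    * a.2.1.re * a.2.2.1.re + (345 / 7 + 46 * c - 1548 / 7 * c ^ 2 - 792 / 7 * c ^ 3 + 2416 / 7 *
    c ^ 4 + 384 / 7 * c ^ 5 - 1152 / 7 * c ^ 6) * s * a.2.1.im * a.2.2.1.re + (83 / 14 - 21 * c -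
    270 / 7 * c ^ 2 + 272 / 7 * c ^ 3 + 648 / 7 * c ^ 4 + 160 / 7 * c ^ 5 - 768 / 7 * c ^ 6) *
    a.2.2.1.re ^ 2 + (90 / 7 - 6 / 7 * c - 120 * c ^ 2 + 16 / 7 * c ^ 3 + 1984 / 7 * c ^ 4 - 256
    / 7 * c ^ 5 - 1088 / 7 * c ^ 6) * s * a.1.re * a.2.2.1.im + (33 + 15 * c - 188 * c ^ 2 - 100
    * c ^ 3 + 376 * c ^ 4 + 144 * c ^ 5 - 288 * c ^ 6) * a.1.im * a.2.2.1.im + (162 / 7 + 204 / 7
    * c - 1124 / 7 * c ^ 2 - 824 / 7 * c ^ 3 + 2384 / 7 * c ^ 4 + 736 / 7 * c ^ 5 - 1600 / 7 * c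
    ^ 6) * s * a.2.1.re * a.2.2.1.im + (-513 / 14 + 26 / 7 * c + 1390 / 7 * c ^ 2 + 212 / 7 * c ^
    3 - 2424 / 7 * c ^ 4 - 592 / 7 * c ^ 5 + 1696 / 7 * c ^ 6) * a.2.1.im * a.2.2.1.im + (81 / 7
    - 18 / 7 * c - 96 * c ^ 2 + 48 / 7 * c ^ 3 + 1248 / 7 * c ^ 4 - 96 / 7 * c ^ 5 - 576 / 7 * c
    ^ 6) * s * a.2.2.1.re * a.2.2.1.im + (137 / 14 + 166 / 7 * c - 438 / 7 * c ^ 2 - 796 / 7 * c
    ^ 3 + 1016 / 7 * c ^ 4 + 912 / 7 * c ^ 5 - 928 / 7 * c ^ 6) * a.2.2.1.im ^ 2 + (-303 / 14 +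
    55 * c + 1674 / 7 * c ^ 2 - 104 * c ^ 3 - 3848 / 7 * c ^ 4 + 128 / 7 * c ^ 5 + 384 * c ^ 6) *
    a.1.re * a.2.2.2.re + (213 / 7 + 188 / 7 * c - 1572 / 7 * c ^ 2 - 744 / 7 * c ^ 3 + 3344 / 7
    * c ^ 4 + 576 / 7 * c ^ 5 - 2112 / 7 * c ^ 6) * s * a.1.im * a.2.2.2.re + (-115 / 7 + 64 * c
    + 622 / 7 * c ^ 2 - 1412 / 7 * c ^ 3 - 216 / 7 * c ^ 4 + 1248 / 7 * c ^ 5 - 96 * c ^ 6) *
    a.2.1.re * a.2.2.2.re + (-765 / 7 - 984 / 7 * c + 3840 / 7 * c ^ 2 + 3504 / 7 * c ^ 3 - 7008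
    / 7 * c ^ 4 - 3168 / 7 * c ^ 5 + 4608 / 7 * c ^ 6) * s * a.2.1.im * a.2.2.2.re + (-110 / 7 +
    451 / 7 * c + 464 / 7 * c ^ 2 - 1160 / 7 * c ^ 3 - 328 / 7 * c ^ 4 + 400 / 7 * c ^ 5 + 288 /
    7 * c ^ 6) * a.2.2.1.re * a.2.2.2.re + (-213 / 7 - 188 / 7 * c + 1572 / 7 * c ^ 2 + 744 / 7 *
    c ^ 3 - 3344 / 7 * c ^ 4 - 576 / 7 * c ^ 5 + 2112 / 7 * c ^ 6) * s * a.2.2.1.im * a.2.2.2.re
    + (160 / 7 - 558 / 7 * c - 1116 / 7 * c ^ 2 + 1448 / 7 * c ^ 3 + 1632 / 7 * c ^ 4 - 800 / 7 *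
    c ^ 5 - 768 / 7 * c ^ 6) * a.2.2.2.re ^ 2 + (-510 / 7 - 926 / 7 * c + 2556 / 7 * c ^ 2 + 3592
    / 7 * c ^ 3 - 5008 / 7 * c ^ 4 - 3552 / 7 * c ^ 5 + 3840 / 7 * c ^ 6) * s * a.1.re *
    a.2.2.2.im + (219 / 14 - 54 / 7 * c - 382 / 7 * c ^ 2 - 212 / 7 * c ^ 3 + 520 / 7 * c ^ 4 +
    816 / 7 * c ^ 5 - 800 / 7 * c ^ 6) * a.1.im * a.2.2.2.im + (-510 / 7 - 656 / 7 * c + 2560 / 7
    * c ^ 2 + 2336 / 7 * c ^ 3 - 4672 / 7 * c ^ 4 - 2112 / 7 * c ^ 5 + 3072 / 7 * c ^ 6) * s *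
    a.2.1.re * a.2.2.2.im + (-9 + 31 * c + 96 * c ^ 2 + 20 * c ^ 3 - 248 * c ^ 4 - 176 * c ^ 5 +
    288 * c ^ 6) * a.2.1.im * a.2.2.2.im + (-345 / 7 - 46 * c + 1548 / 7 * c ^ 2 + 792 / 7 * c ^
    3 - 2416 / 7 * c ^ 4 - 384 / 7 * c ^ 5 + 1152 / 7 * c ^ 6) * s * a.2.2.1.re * a.2.2.2.im +
    (208 / 7 - 141 / 7 * c - 1538 / 7 * c ^ 2 + 244 / 7 * c ^ 3 + 3064 / 7 * c ^ 4 - 16 * c ^ 5 -
    256 * c ^ 6) * a.2.2.1.im * a.2.2.2.im + (765 / 7 + 984 / 7 * c - 3840 / 7 * c ^ 2 - 3504 / 7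
    * c ^ 3 + 7008 / 7 * c ^ 4 + 3168 / 7 * c ^ 5 - 4608 / 7 * c ^ 6) * s * a.2.2.2.re *
    a.2.2.2.im + (-53 / 7 - 415 / 7 * c - 130 / 7 * c ^ 2 + 904 / 7 * c ^ 3 + 704 / 7 * c ^ 4 -
    144 / 7 * c ^ 5 - 960 / 7 * c ^ 6) * a.2.2.2.im ^ 2) * hs)

theorem jkp4 : Jet (fun a => kp (Gam a 4) (Gam a 5) (Gam a 6)) ((-20 / 7 - 12 / 7 * c + 36 / 7 * c ^ 2) * s)
    (fun a => (-30 / 7 - 18 / 7 * c + 68 / 7 * c ^ 2) * s * a.1.re + (2 + c - 4 * c ^ 2) * a.1.im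
    + (-34 / 7 - 12 / 7 * c + 64 / 7 * c ^ 2) * s * a.2.1.re + (-2 + 4 * c ^ 2) * a.2.1.im + (-27
    / 7 - 12 / 7 * c + 36 / 7 * c ^ 2) * s * a.2.2.1.re + (3 / 2 + c - 4 * c ^ 2) * a.2.2.1.im +
    (51 / 7 + 18 / 7 * c - 96 / 7 * c ^ 2) * s * a.2.2.2.re + (5 / 2 + 2 * c - 4 * c ^ 2) *
    a.2.2.2.im)
    (fun a => (-41 / 7 - 12 / 7 * c + 92 / 7 * c ^ 2) * s * a.1.re ^ 2 + (5 - 8 * c ^ 2) * a.1.re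
    * a.1.im + (-43 / 7 - 16 / 7 * c + 76 / 7 * c ^ 2) * s * a.1.im ^ 2 + (-10 - 4 * c + 20 * c ^
    2) * s * a.1.re * a.2.1.re + (5 / 2 + c - 6 * c ^ 2) * a.1.im * a.2.1.re + (12 / 7 + 10 / 7 *
    c - 16 / 7 * c ^ 2) * s * a.2.1.re ^ 2 + (-13 / 2 - c + 14 * c ^ 2) * a.1.re * a.2.1.im +
    (110 / 7 + 52 / 7 * c - 212 / 7 * c ^ 2) * s * a.1.im * a.2.1.im + (-6 - 2 * c + 12 * c ^ 2)
    * a.2.1.re * a.2.1.im + (-62 / 7 - 26 / 7 * c + 120 / 7 * c ^ 2) * s * a.2.1.im ^ 2 + (-73 /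
    7 - 62 / 7 * c + 116 / 7 * c ^ 2) * s * a.1.re * a.2.2.1.re + (5 + 5 * c - 10 * c ^ 2) *
    a.1.im * a.2.2.1.re + (-76 / 7 - 40 / 7 * c + 120 / 7 * c ^ 2) * s * a.2.1.re * a.2.2.1.re +
    (-6 - 4 * c + 8 * c ^ 2) * a.2.1.im * a.2.2.1.re + (-46 / 7 - 8 / 7 * c + 80 / 7 * c ^ 2) * s
    * a.2.2.1.re ^ 2 + (3 + 3 * c - 6 * c ^ 2) * a.1.re * a.2.2.1.im + (-7 - 2 * c + 12 * c ^ 2)
    * s * a.1.im * a.2.2.1.im + (76 / 7 + 40 / 7 * c - 120 / 7 * c ^ 2) * s * a.2.1.im *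
    a.2.2.1.im + (4 + 2 * c - 8 * c ^ 2) * a.2.2.1.re * a.2.2.1.im + (-6 / 7 - 12 / 7 * c + 8 / 7
    * c ^ 2) * s * a.2.2.1.im ^ 2 + (108 / 7 + 48 / 7 * c - 200 / 7 * c ^ 2) * s * a.1.re *
    a.2.2.2.re + (-8 - 4 * c + 16 * c ^ 2) * a.1.im * a.2.2.2.re + (71 / 7 + 30 / 7 * c - 132 / 7
    * c ^ 2) * s * a.2.1.re * a.2.2.2.re + (10 + 5 * c - 18 * c ^ 2) * a.2.1.im * a.2.2.2.re +
    (130 / 7 + 64 / 7 * c - 220 / 7 * c ^ 2) * s * a.2.2.1.re * a.2.2.2.re + (-9 / 2 - 3 * c + 6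
    * c ^ 2) * a.2.2.1.im * a.2.2.2.re + (-95 / 7 - 50 / 7 * c + 164 / 7 * c ^ 2) * s *
    a.2.2.2.re ^ 2 + (6 + 4 * c - 8 * c ^ 2) * a.1.re * a.2.2.2.im + (-76 / 7 - 40 / 7 * c + 120
    / 7 * c ^ 2) * s * a.1.im * a.2.2.2.im + (4 + 3 * c - 6 * c ^ 2) * a.2.1.re * a.2.2.2.im +
    (17 + 10 * c - 28 * c ^ 2) * s * a.2.1.im * a.2.2.2.im + (13 / 2 + 3 * c - 14 * c ^ 2) *
    a.2.2.1.re * a.2.2.2.im + (-54 / 7 - 24 / 7 * c + 100 / 7 * c ^ 2) * s * a.2.2.1.im *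
    a.2.2.2.im + (-7 - 4 * c + 12 * c ^ 2) * a.2.2.2.re * a.2.2.2.im + (-71 / 7 - 30 / 7 * c +
    132 / 7 * c ^ 2) * s * a.2.2.2.im ^ 2) :=
  Jet.div ((jy5.sub jy4).mul (jy6.sub jy5)) (((jx5.sub jx4).mul (jy6.sub jy5)).sub ((jy5.sub jy4).mul (jx6.sub jx5))) ((8 / 7 + 8 / 7 * c) * s)
    (by linear_combination ((2 / 7 + 1 / 7 * c - 8 / 7 * c ^ 2 + 16 / 7 * c ^ 3 + 24 / 7 * c ^
    4)) * hc + ((36 / 7 + 44 / 7 * c - 136 / 7 * c ^ 2 - 208 / 7 * c ^ 3 + 128 / 7 * c ^ 4 + 192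
    / 7 * c ^ 5)) * hs)
    (by linear_combination ((3 / 14 + 11 / 7 * c - 5 / 2 * c ^ 2 + 20 / 7 * c ^ 3 + 72 / 7 * c ^
    4 - 108 / 7 * c ^ 5)) * hc + ((6 / 7 + 32 / 7 * c - 230 / 7 * c ^ 2 - 356 / 7 * c ^ 3 + 808 /
    7 * c ^ 4 + 576 / 7 * c ^ 5 - 864 / 7 * c ^ 6)) * hs)
    (fun a => by linear_combination ((11 / 7 - 1 / 28 * c - 2 / 7 * c ^ 2 + 50 / 7 * c ^ 3 + 74 /
    7 * c ^ 4 - 24 * c ^ 5) * a.1.re + (-20 / 7 - 43 / 14 * c - 17 / 7 * c ^ 2 + 118 / 7 * c ^ 3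
    - 12 / 7 * c ^ 4 - 72 / 7 * c ^ 5) * s * a.1.im + (10 / 7 - 5 / 7 * c + 13 / 14 * c ^ 2 + 46
    / 7 * c ^ 3 + 4 * c ^ 4 - 12 * c ^ 5) * a.2.1.re + (25 / 14 + 55 / 7 * c + 88 / 7 * c ^ 2 -
    186 / 7 * c ^ 3 - 180 / 7 * c ^ 4 + 216 / 7 * c ^ 5) * s * a.2.1.im + (25 / 56 - 27 / 14 * c
    + 12 / 7 * c ^ 2 + 19 / 7 * c ^ 3 - 96 / 7 * c ^ 4 + 72 / 7 * c ^ 5) * a.2.2.1.re + (-137 /
    28 - 13 / 7 * c + 39 / 7 * c ^ 2 - 58 / 7 * c ^ 3 + 12 / 7 * c ^ 4 + 72 / 7 * c ^ 5) * s *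
    a.2.2.1.im + (-193 / 56 + 75 / 28 * c - 33 / 14 * c ^ 2 - 115 / 7 * c ^ 3 - 6 / 7 * c ^ 4 +
    180 / 7 * c ^ 5) * a.2.2.2.re + (83 / 28 - 153 / 14 * c - 166 / 7 * c ^ 2 + 42 * c ^ 3 + 180
    / 7 * c ^ 4 - 216 / 7 * c ^ 5) * s * a.2.2.2.im) * hc + ((44 / 7 - 89 / 7 * c - 534 / 7 * c ^
    2 - 124 / 7 * c ^ 3 + 1408 / 7 * c ^ 4 + 592 / 7 * c ^ 5 - 192 * c ^ 6) * a.1.re + (60 / 7 -
    4 / 7 * c - 76 * c ^ 2 - 8 / 7 * c ^ 3 + 1136 / 7 * c ^ 4 - 96 / 7 * c ^ 5 - 576 / 7 * c ^ 6)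
    * s * a.1.im + (40 / 7 - 100 / 7 * c - 414 / 7 * c ^ 2 + 52 / 7 * c ^ 3 + 872 / 7 * c ^ 4 +
    32 * c ^ 5 - 96 * c ^ 6) * a.2.1.re + (-300 / 7 - 460 / 7 * c + 1412 / 7 * c ^ 2 + 1608 / 7 *
    c ^ 3 - 2544 / 7 * c ^ 4 - 1440 / 7 * c ^ 5 + 1728 / 7 * c ^ 6) * s * a.2.1.im + (25 / 14 -
    79 / 7 * c + 6 / 7 * c ^ 2 + 528 / 7 * c ^ 3 - 40 * c ^ 4 - 768 / 7 * c ^ 5 + 576 / 7 * c ^
    6) * a.2.2.1.re + (-60 / 7 + 4 / 7 * c + 76 * c ^ 2 + 8 / 7 * c ^ 3 - 1136 / 7 * c ^ 4 + 96 /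
    7 * c ^ 5 + 576 / 7 * c ^ 6) * s * a.2.2.1.im + (-193 / 14 + 268 / 7 * c + 942 / 7 * c ^ 2 -
    456 / 7 * c ^ 3 - 2000 / 7 * c ^ 4 - 48 / 7 * c ^ 5 + 1440 / 7 * c ^ 6) * a.2.2.2.re + (300 /
    7 + 460 / 7 * c - 1412 / 7 * c ^ 2 - 1608 / 7 * c ^ 3 + 2544 / 7 * c ^ 4 + 1440 / 7 * c ^ 5 -
    1728 / 7 * c ^ 6) * s * a.2.2.2.im) * hs)
    (fun a => by linear_combination ((139 / 56 - 39 / 28 * c - 25 / 14 * c ^ 2 + 121 / 7 * c ^ 3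
    - 6 * c ^ 4 - 172 / 7 * c ^ 5) * a.1.re ^ 2 + (-30 / 7 - 103 / 14 * c + 20 / 7 * c ^ 2 + 184
    / 7 * c ^ 3 - 32 / 7 * c ^ 4 - 136 / 7 * c ^ 5) * s * a.1.re * a.1.im + (115 / 56 - 32 / 7 *
    c - 61 / 14 * c ^ 2 + 114 / 7 * c ^ 3 + 54 / 7 * c ^ 4 - 136 / 7 * c ^ 5) * a.1.im ^ 2 + (15
    / 14 - 1 / 4 * c + 3 / 2 * c ^ 2 + 10 / 7 * c ^ 3 + 86 / 7 * c ^ 4 - 116 / 7 * c ^ 5) *
    a.1.re * a.2.1.re + (-13 / 28 - 37 / 14 * c - 11 * c ^ 2 + 148 / 7 * c ^ 3 + 92 / 7 * c ^ 4 -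
    200 / 7 * c ^ 5) * s * a.1.im * a.2.1.re + (-2 / 7 - 25 / 28 * c + 3 / 2 * c ^ 2 - 4 / 7 * c
    ^ 3 - 74 / 7 * c ^ 4 + 132 / 7 * c ^ 5) * a.2.1.re ^ 2 + (71 / 28 + 132 / 7 * c + 185 / 7 * c
    ^ 2 - 484 / 7 * c ^ 3 - 444 / 7 * c ^ 4 + 480 / 7 * c ^ 5) * s * a.1.re * a.2.1.im + (-55 /
    14 + 59 / 7 * c + 135 / 14 * c ^ 2 - 285 / 7 * c ^ 3 - 30 * c ^ 4 + 64 * c ^ 5) * a.1.im *
    a.2.1.im + (-17 / 14 + 97 / 7 * c + 186 / 7 * c ^ 2 - 368 / 7 * c ^ 3 - 264 / 7 * c ^ 4 + 384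
    / 7 * c ^ 5) * s * a.2.1.re * a.2.1.im + (39 / 28 - 123 / 28 * c - 111 / 14 * c ^ 2 + 128 / 7
    * c ^ 3 + 186 / 7 * c ^ 4 - 300 / 7 * c ^ 5) * a.2.1.im ^ 2 + (39 / 28 - 13 / 7 * c + 39 / 14
    * c ^ 2 + 46 / 7 * c ^ 3 - 40 / 7 * c ^ 4 + 4 * c ^ 5) * a.1.re * a.2.2.1.re + (-5 / 14 - 43
    / 14 * c - 24 / 7 * c ^ 2 + 118 / 7 * c ^ 3 - 12 / 7 * c ^ 4 - 72 / 7 * c ^ 5) * s * a.1.im *
    a.2.2.1.re + (89 / 56 - 53 / 14 * c + 39 / 7 * c ^ 2 + 19 / 7 * c ^ 3 - 72 / 7 * c ^ 4 + 32 /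
    7 * c ^ 5) * a.2.1.re * a.2.2.1.re + (-15 / 14 + 131 / 14 * c + 141 / 7 * c ^ 2 - 222 / 7 * c
    ^ 3 - 48 / 7 * c ^ 4 + 144 / 7 * c ^ 5) * s * a.2.1.im * a.2.2.1.re + (83 / 56 - 16 / 7 * c +
    25 / 7 * c ^ 2 + 9 / 7 * c ^ 3 + 20 / 7 * c ^ 4 - 96 / 7 * c ^ 5) * a.2.2.1.re ^ 2 + (-97 /
    28 - 53 / 14 * c + 62 / 7 * c ^ 2 - 150 / 7 * c ^ 3 + 32 / 7 * c ^ 4 + 136 / 7 * c ^ 5) * s *
    a.1.re * a.2.2.1.im + (25 / 8 - 6 * c - 11 * c ^ 2 + 32 * c ^ 3 + 18 * c ^ 4 - 36 * c ^ 5) *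
    a.1.im * a.2.2.1.im + (-57 / 28 + 36 / 7 * c + 13 * c ^ 2 - 274 / 7 * c ^ 3 - 92 / 7 * c ^ 4
    + 200 / 7 * c ^ 5) * s * a.2.1.re * a.2.2.1.im + (-39 / 14 + 269 / 28 * c + 69 / 14 * c ^ 2 -
    228 / 7 * c ^ 3 - 74 / 7 * c ^ 4 + 212 / 7 * c ^ 5) * a.2.1.im * a.2.2.1.im + (-137 / 28 + 23
    / 14 * c + 74 / 7 * c ^ 2 - 128 / 7 * c ^ 3 + 12 / 7 * c ^ 4 + 72 / 7 * c ^ 5) * s *
    a.2.2.1.re * a.2.2.1.im + (9 / 28 - 5 / 28 * c - 107 / 14 * c ^ 2 + 82 / 7 * c ^ 3 + 114 / 7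
    * c ^ 4 - 116 / 7 * c ^ 5) * a.2.2.1.im ^ 2 + (-303 / 56 + 41 / 14 * c + 5 / 7 * c ^ 2 - 229
    / 7 * c ^ 3 + 16 / 7 * c ^ 4 + 48 * c ^ 5) * a.1.re * a.2.2.2.re + (50 / 7 + 83 / 7 * c + 25
    / 7 * c ^ 2 - 274 / 7 * c ^ 3 - 72 / 7 * c ^ 4 + 264 / 7 * c ^ 5) * s * a.1.im * a.2.2.2.re +
    (-115 / 28 + 109 / 14 * c - 23 / 2 * c ^ 2 - 90 / 7 * c ^ 3 + 156 / 7 * c ^ 4 - 12 * c ^ 5) *
    a.2.1.re * a.2.2.2.re + (-10 / 7 - 163 / 7 * c - 258 / 7 * c ^ 2 + 594 / 7 * c ^ 3 + 396 / 7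
    * c ^ 4 - 576 / 7 * c ^ 5) * s * a.2.1.im * a.2.2.2.re + (-55 / 14 + 33 / 4 * c - 197 / 14 *
    c ^ 2 - 2 * c ^ 3 + 50 / 7 * c ^ 4 + 36 / 7 * c ^ 5) * a.2.2.1.re * a.2.2.2.re + (117 / 14 -
    25 / 14 * c - 171 / 7 * c ^ 2 + 376 / 7 * c ^ 3 + 72 / 7 * c ^ 4 - 264 / 7 * c ^ 5) * s *
    a.2.2.1.im * a.2.2.2.re + (40 / 7 - 17 / 2 * c + 82 / 7 * c ^ 2 + 132 / 7 * c ^ 3 - 100 / 7 *
    c ^ 4 - 96 / 7 * c ^ 5) * a.2.2.2.re ^ 2 + (-43 / 28 - 261 / 14 * c - 39 * c ^ 2 + 454 / 7 *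
    c ^ 3 + 444 / 7 * c ^ 4 - 480 / 7 * c ^ 5) * s * a.1.re * a.2.2.2.im + (23 / 7 - 129 / 28 * c
    + 29 / 14 * c ^ 2 - 10 / 7 * c ^ 3 + 102 / 7 * c ^ 4 - 100 / 7 * c ^ 5) * a.1.im * a.2.2.2.im
    + (41 / 28 - 108 / 7 * c - 222 / 7 * c ^ 2 + 62 * c ^ 3 + 264 / 7 * c ^ 4 - 384 / 7 * c ^ 5)
    * s * a.2.1.re * a.2.2.2.im + (-35 / 8 - 2 * c ^ 2 - 4 * c ^ 3 - 22 * c ^ 4 + 36 * c ^ 5) *
    a.2.1.im * a.2.2.2.im + (-24 / 7 - 118 / 7 * c - 29 / 7 * c ^ 2 + 348 / 7 * c ^ 3 + 48 / 7 *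
    c ^ 4 - 144 / 7 * c ^ 5) * s * a.2.2.1.re * a.2.2.2.im + (83 / 14 - 69 / 14 * c - 93 / 14 * c
    ^ 2 + 215 / 7 * c ^ 3 - 2 * c ^ 4 - 32 * c ^ 5) * a.2.2.1.im * a.2.2.2.im + (131 / 28 + 225 /
    7 * c + 270 / 7 * c ^ 2 - 108 * c ^ 3 - 396 / 7 * c ^ 4 + 576 / 7 * c ^ 5) * s * a.2.2.2.re *
    a.2.2.2.im + (55 / 56 + 9 / 14 * c + 181 / 14 * c ^ 2 - 44 / 7 * c ^ 3 - 18 / 7 * c ^ 4 - 120
    / 7 * c ^ 5) * a.2.2.2.im ^ 2) * hc + ((139 / 14 - 178 / 7 * c - 806 / 7 * c ^ 2 + 496 / 7 *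
    c ^ 3 + 2000 / 7 * c ^ 4 - 48 * c ^ 5 - 1376 / 7 * c ^ 6) * a.1.re ^ 2 + (90 / 7 - 6 / 7 * c
    - 120 * c ^ 2 + 16 / 7 * c ^ 3 + 1984 / 7 * c ^ 4 - 256 / 7 * c ^ 5 - 1088 / 7 * c ^ 6) * s *
    a.1.re * a.1.im + (283 / 14 + 16 / 7 * c - 724 / 7 * c ^ 2 - 212 / 7 * c ^ 3 + 1392 / 7 * c ^
    4 + 432 / 7 * c ^ 5 - 1088 / 7 * c ^ 6) * a.1.im ^ 2 + (30 / 7 - 67 / 7 * c - 304 / 7 * c ^ 2
    - 200 / 7 * c ^ 3 + 776 / 7 * c ^ 4 + 688 / 7 * c ^ 5 - 928 / 7 * c ^ 6) * a.1.re * a.2.1.re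
    + (162 / 7 + 204 / 7 * c - 1124 / 7 * c ^ 2 - 824 / 7 * c ^ 3 + 2384 / 7 * c ^ 4 + 736 / 7 *
    c ^ 5 - 1600 / 7 * c ^ 6) * s * a.1.im * a.2.1.re + (-8 / 7 - 9 / 7 * c + 188 / 7 * c ^ 2 +
    264 / 7 * c ^ 3 - 824 / 7 * c ^ 4 - 592 / 7 * c ^ 5 + 1056 / 7 * c ^ 6) * a.2.1.re ^ 2 +
    (-510 / 7 - 926 / 7 * c + 2556 / 7 * c ^ 2 + 3592 / 7 * c ^ 3 - 5008 / 7 * c ^ 4 - 3552 / 7 *
    c ^ 5 + 3840 / 7 * c ^ 6) * s * a.1.re * a.2.1.im + (-313 / 7 - 13 / 7 * c + 2014 / 7 * c ^ 2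
    + 820 / 7 * c ^ 3 - 4296 / 7 * c ^ 4 - 240 * c ^ 5 + 512 * c ^ 6) * a.1.im * a.2.1.im + (-510
    / 7 - 656 / 7 * c + 2560 / 7 * c ^ 2 + 2336 / 7 * c ^ 3 - 4672 / 7 * c ^ 4 - 2112 / 7 * c ^ 5
    + 3072 / 7 * c ^ 6) * s * a.2.1.re * a.2.1.im + (179 / 7 + 149 / 7 * c - 1060 / 7 * c ^ 2 -
    960 / 7 * c ^ 3 + 2488 / 7 * c ^ 4 + 1488 / 7 * c ^ 5 - 2400 / 7 * c ^ 6) * a.2.1.im ^ 2 +
    (39 / 7 - 130 / 7 * c - 286 / 7 * c ^ 2 + 340 / 7 * c ^ 3 + 200 / 7 * c ^ 4 - 320 / 7 * c ^ 5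
    + 32 * c ^ 6) * a.1.re * a.2.2.1.re + (81 / 7 - 18 / 7 * c - 96 * c ^ 2 + 48 / 7 * c ^ 3 +
    1248 / 7 * c ^ 4 - 96 / 7 * c ^ 5 - 576 / 7 * c ^ 6) * s * a.1.im * a.2.2.1.re + (89 / 14 -
    195 / 7 * c - 166 / 7 * c ^ 2 + 680 / 7 * c ^ 3 - 40 / 7 * c ^ 4 - 576 / 7 * c ^ 5 + 256 / 7
    * c ^ 6) * a.2.1.re * a.2.2.1.re + (-345 / 7 - 46 * c + 1548 / 7 * c ^ 2 + 792 / 7 * c ^ 3 -
    2416 / 7 * c ^ 4 - 384 / 7 * c ^ 5 + 1152 / 7 * c ^ 6) * s * a.2.1.im * a.2.2.1.re + (83 / 14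
    - 21 * c - 270 / 7 * c ^ 2 + 272 / 7 * c ^ 3 + 648 / 7 * c ^ 4 + 160 / 7 * c ^ 5 - 768 / 7 *
    c ^ 6) * a.2.2.1.re ^ 2 + (-90 / 7 + 6 / 7 * c + 120 * c ^ 2 - 16 / 7 * c ^ 3 - 1984 / 7 * c
    ^ 4 + 256 / 7 * c ^ 5 + 1088 / 7 * c ^ 6) * s * a.1.re * a.2.2.1.im + (33 + 15 * c - 188 * c
    ^ 2 - 100 * c ^ 3 + 376 * c ^ 4 + 144 * c ^ 5 - 288 * c ^ 6) * a.1.im * a.2.2.1.im + (-162 /
    7 - 204 / 7 * c + 1124 / 7 * c ^ 2 + 824 / 7 * c ^ 3 - 2384 / 7 * c ^ 4 - 736 / 7 * c ^ 5 +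
    1600 / 7 * c ^ 6) * s * a.2.1.re * a.2.2.1.im + (-513 / 14 + 26 / 7 * c + 1390 / 7 * c ^ 2 +
    212 / 7 * c ^ 3 - 2424 / 7 * c ^ 4 - 592 / 7 * c ^ 5 + 1696 / 7 * c ^ 6) * a.2.1.im *
    a.2.2.1.im + (-81 / 7 + 18 / 7 * c + 96 * c ^ 2 - 48 / 7 * c ^ 3 - 1248 / 7 * c ^ 4 + 96 / 7
    * c ^ 5 + 576 / 7 * c ^ 6) * s * a.2.2.1.re * a.2.2.1.im + (137 / 14 + 166 / 7 * c - 438 / 7
    * c ^ 2 - 796 / 7 * c ^ 3 + 1016 / 7 * c ^ 4 + 912 / 7 * c ^ 5 - 928 / 7 * c ^ 6) *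
    a.2.2.1.im ^ 2 + (-303 / 14 + 55 * c + 1674 / 7 * c ^ 2 - 104 * c ^ 3 - 3848 / 7 * c ^ 4 +
    128 / 7 * c ^ 5 + 384 * c ^ 6) * a.1.re * a.2.2.2.re + (-213 / 7 - 188 / 7 * c + 1572 / 7 * c
    ^ 2 + 744 / 7 * c ^ 3 - 3344 / 7 * c ^ 4 - 576 / 7 * c ^ 5 + 2112 / 7 * c ^ 6) * s * a.1.im *
    a.2.2.2.re + (-115 / 7 + 64 * c + 622 / 7 * c ^ 2 - 1412 / 7 * c ^ 3 - 216 / 7 * c ^ 4 + 1248
    / 7 * c ^ 5 - 96 * c ^ 6) * a.2.1.re * a.2.2.2.re + (765 / 7 + 984 / 7 * c - 3840 / 7 * c ^ 2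
    - 3504 / 7 * c ^ 3 + 7008 / 7 * c ^ 4 + 3168 / 7 * c ^ 5 - 4608 / 7 * c ^ 6) * s * a.2.1.im *
    a.2.2.2.re + (-110 / 7 + 451 / 7 * c + 464 / 7 * c ^ 2 - 1160 / 7 * c ^ 3 - 328 / 7 * c ^ 4 +
    400 / 7 * c ^ 5 + 288 / 7 * c ^ 6) * a.2.2.1.re * a.2.2.2.re + (213 / 7 + 188 / 7 * c - 1572
    / 7 * c ^ 2 - 744 / 7 * c ^ 3 + 3344 / 7 * c ^ 4 + 576 / 7 * c ^ 5 - 2112 / 7 * c ^ 6) * s *
    a.2.2.1.im * a.2.2.2.re + (160 / 7 - 558 / 7 * c - 1116 / 7 * c ^ 2 + 1448 / 7 * c ^ 3 + 1632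
    / 7 * c ^ 4 - 800 / 7 * c ^ 5 - 768 / 7 * c ^ 6) * a.2.2.2.re ^ 2 + (510 / 7 + 926 / 7 * c -
    2556 / 7 * c ^ 2 - 3592 / 7 * c ^ 3 + 5008 / 7 * c ^ 4 + 3552 / 7 * c ^ 5 - 3840 / 7 * c ^ 6)
    * s * a.1.re * a.2.2.2.im + (219 / 14 - 54 / 7 * c - 382 / 7 * c ^ 2 - 212 / 7 * c ^ 3 + 520
    / 7 * c ^ 4 + 816 / 7 * c ^ 5 - 800 / 7 * c ^ 6) * a.1.im * a.2.2.2.im + (510 / 7 + 656 / 7 *
    c - 2560 / 7 * c ^ 2 - 2336 / 7 * c ^ 3 + 4672 / 7 * c ^ 4 + 2112 / 7 * c ^ 5 - 3072 / 7 * c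
    ^ 6) * s * a.2.1.re * a.2.2.2.im + (-9 + 31 * c + 96 * c ^ 2 + 20 * c ^ 3 - 248 * c ^ 4 - 176
    * c ^ 5 + 288 * c ^ 6) * a.2.1.im * a.2.2.2.im + (345 / 7 + 46 * c - 1548 / 7 * c ^ 2 - 792 /
    7 * c ^ 3 + 2416 / 7 * c ^ 4 + 384 / 7 * c ^ 5 - 1152 / 7 * c ^ 6) * s * a.2.2.1.re *
    a.2.2.2.im + (208 / 7 - 141 / 7 * c - 1538 / 7 * c ^ 2 + 244 / 7 * c ^ 3 + 3064 / 7 * c ^ 4 -
    16 * c ^ 5 - 256 * c ^ 6) * a.2.2.1.im * a.2.2.2.im + (-765 / 7 - 984 / 7 * c + 3840 / 7 * c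
    ^ 2 + 3504 / 7 * c ^ 3 - 7008 / 7 * c ^ 4 - 3168 / 7 * c ^ 5 + 4608 / 7 * c ^ 6) * s *
    a.2.2.2.re * a.2.2.2.im + (-53 / 7 - 415 / 7 * c - 130 / 7 * c ^ 2 + 904 / 7 * c ^ 3 + 704 /
    7 * c ^ 4 - 144 / 7 * c ^ 5 - 960 / 7 * c ^ 6) * a.2.2.2.im ^ 2) * hs)

/-- linear part -/
noncomputable def f1 (a : E) : ℝ :=
  (-19 / 4 - 7 * c + 3 * c ^ 2) * s * a.1.re + (157 / 2 + 21 * c - 166 * c ^ 2) * s * a.2.1.re +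
  (-453 / 4 - 69 / 2 * c + 224 * c ^ 2) * s * a.2.2.1.re + (35 / 4 + 5 * c - 16 * c ^ 2) * s *
  a.2.2.2.re

/-- quadratic part -/
noncomputable def f2 (a : E) : ℝ :=
  (197 / 4 + 45 / 2 * c - 81 * c ^ 2) * s * a.1.re ^ 2 + (-1 / 4 + 3 / 2 * c) * s * a.1.im ^ 2 +
  (1263 / 4 + 271 / 2 * c - 567 * c ^ 2) * s * a.1.re * a.2.1.re + (136 + 44 * c - 232 * c ^ 2) *
  s * a.2.1.re ^ 2 + (169 / 4 + 37 / 2 * c - 85 * c ^ 2) * s * a.1.im * a.2.1.im + (-45 / 4 + 27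
  * c ^ 2) * s * a.2.1.im ^ 2 + (-1345 / 4 - 162 * c + 617 * c ^ 2) * s * a.1.re * a.2.2.1.re +
  (20 + 32 * c - 30 * c ^ 2) * s * a.2.1.re * a.2.2.1.re + (-238 - 211 / 2 * c + 395 * c ^ 2) * s
  * a.2.2.1.re ^ 2 + (-21 / 2 - 7 / 2 * c + 21 * c ^ 2) * s * a.1.im * a.2.2.1.im + (59 / 2 + 19
  * c - 42 * c ^ 2) * s * a.2.1.im * a.2.2.1.im + (-10 - 8 * c + 16 * c ^ 2) * s * a.2.2.1.im ^ 2
  + (99 / 4 + c - 36 * c ^ 2) * s * a.1.re * a.2.2.2.re + (-70 - 93 / 2 * c + 125 * c ^ 2) * s *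
  a.2.1.re * a.2.2.2.re + (583 / 4 + 157 / 2 * c - 265 * c ^ 2) * s * a.2.2.1.re * a.2.2.2.re +
  (-47 / 4 - 29 / 2 * c + 20 * c ^ 2) * s * a.2.2.2.re ^ 2 + (-59 / 2 - 19 * c + 42 * c ^ 2) * s
  * a.1.im * a.2.2.2.im + (49 / 2 + 35 / 2 * c - 35 * c ^ 2) * s * a.2.1.im * a.2.2.2.im + (-119
  / 4 - 29 / 2 * c + 59 * c ^ 2) * s * a.2.2.1.im * a.2.2.2.im + (-18 - 19 / 2 * c + 33 * c ^ 2)
  * s * a.2.2.2.im ^ 2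

theorem jf : Jet (fun a => (1 - ell a) * P0 (Gam a)) ((-37 / 4 - 5 / 2 * c + 19 * c ^ 2) * s) f1 f2 :=
  (((Jet.const 1).sub jell).mul (((Jet.const 2).mul jl0).mul
    ((jy2.sub jy5).add (jl0.mul (jkp1.add jkp4))))).congr
    (by linear_combination ((67 / 28 + 9 / 14 * c) * s) * hc)
    (fun a => by unfold f1 ell; linear_combination ((-67 / 28 - 40 / 7 * c - 18 / 7 * c ^ 2) * s
    * a.1.re + (-303 / 14 - 11 / 7 * c + 18 / 7 * c ^ 2) * s * a.2.1.re + (711 / 28 + 29 / 14 * c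
    - 18 / 7 * c ^ 2) * s * a.2.2.1.re + (-121 / 28 + 2 * c + 18 / 7 * c ^ 2) * s * a.2.2.2.re) *
    hc)
    (fun a => by unfold f2 ell; linear_combination ((-239 / 28 - 1 / 14 * c + 23 / 7 * c ^ 2 + 18
    / 7 * c ^ 3) * s * a.1.re ^ 2 + (-29 / 28 + 53 / 14 * c + 18 / 7 * c ^ 2) * s * a.1.im ^ 2 +
    (-1369 / 28 + 59 / 2 * c + 20 * c ^ 2 - 36 / 7 * c ^ 3) * s * a.1.re * a.2.1.re + (-166 / 7 -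
    305 / 7 * c - 163 / 7 * c ^ 2 + 18 / 7 * c ^ 3) * s * a.2.1.re ^ 2 + (-471 / 28 + 15 / 14 * c
    + 36 / 7 * c ^ 2) * s * a.1.im * a.2.1.im + (29 / 4 + 85 / 7 * c + 36 / 7 * c ^ 2) * s *
    a.2.1.im ^ 2 + (1431 / 28 - 293 / 7 * c - 172 / 7 * c ^ 2 + 36 / 7 * c ^ 3) * s * a.1.re *
    a.2.2.1.re + (97 / 7 + 645 / 7 * c + 358 / 7 * c ^ 2 - 36 / 7 * c ^ 3) * s * a.2.1.re *
    a.2.2.1.re + (138 / 7 - 675 / 14 * c - 195 / 7 * c ^ 2 + 18 / 7 * c ^ 3) * s * a.2.2.1.re ^ 2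
    + (7 / 2 + 3 / 2 * c) * s * a.1.im * a.2.2.1.im + (11 / 14 + 73 / 7 * c + 36 / 7 * c ^ 2) * s
    * a.2.1.im * a.2.2.1.im + (30 / 7 - 16 / 7 * c - 18 / 7 * c ^ 2) * s * a.2.2.1.im ^ 2 + (-41
    / 28 + 64 / 7 * c + 40 / 7 * c ^ 2 - 36 / 7 * c ^ 3) * s * a.1.re * a.2.2.2.re + (258 / 7 -
    295 / 14 * c - 226 / 7 * c ^ 2 + 36 / 7 * c ^ 3) * s * a.2.1.re * a.2.2.2.re + (-1605 / 28 +
    405 / 14 * c + 258 / 7 * c ^ 2 - 36 / 7 * c ^ 3) * s * a.2.2.1.re * a.2.2.2.re + (23 / 4 - 15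
    / 14 * c - 9 * c ^ 2 + 18 / 7 * c ^ 3) * s * a.2.2.2.re ^ 2 + (-11 / 14 - 73 / 7 * c - 36 / 7
    * c ^ 2) * s * a.1.im * a.2.2.2.im + (-15 / 2 - 7 / 2 * c) * s * a.2.1.im * a.2.2.2.im + (345
    / 28 - 43 / 14 * c - 36 / 7 * c ^ 2) * s * a.2.2.1.im * a.2.2.2.im + (3 - 107 / 14 * c - 36 /
    7 * c ^ 2) * s * a.2.2.2.im ^ 2) * hc)

theorem sum_ell (a : E) : ∑ k ∈ Finset.range 7, ell (rho k a) = 0 := by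
  simp only [Finset.sum_range_succ, Finset.sum_range_zero, ell, rho, w_tb, tb, Nat.reduceMul,
  Nat.reduceMod, Complex.mul_re]
  ring

theorem sum_f1 (a : E) : ∑ k ∈ Finset.range 7, f1 (rho k a) = 0 := by
  simp only [Finset.sum_range_succ, Finset.sum_range_zero, f1, rho, w_tb, tb, Nat.reduceMul,
  Nat.reduceMod, Complex.mul_re]
  ring

theorem sum_f2 (a : E) : ∑ k ∈ Finset.range 7, f2 (rho k a) =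
    (343 / 2 + 84 * c - 567 / 2 * c ^ 2) * s * a.1.re ^ 2 + (343 / 2 + 84 * c - 567 / 2 * c ^ 2)
    * s * a.1.im ^ 2 + (3493 / 8 + 154 * c - 1435 / 2 * c ^ 2) * s * a.2.1.re ^ 2 + (3493 / 8 +
    154 * c - 1435 / 2 * c ^ 2) * s * a.2.1.im ^ 2 + (-868 - 1589 / 4 * c + 2877 / 2 * c ^ 2) * s
    * a.2.2.1.re ^ 2 + (-868 - 1589 / 4 * c + 2877 / 2 * c ^ 2) * s * a.2.2.1.im ^ 2 + (2457 / 4
    + 651 / 2 * c - 1134 * c ^ 2) * s * a.2.2.1.re * a.2.2.2.re + (-833 / 8 - 84 * c + 371 / 2 *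
    c ^ 2) * s * a.2.2.2.re ^ 2 + (-2457 / 4 - 651 / 2 * c + 1134 * c ^ 2) * s * a.2.2.1.im *
    a.2.2.2.im + (-833 / 8 - 84 * c + 371 / 2 * c ^ 2) * s * a.2.2.2.im ^ 2 := by
  simp only [Finset.sum_range_succ, Finset.sum_range_zero, f2, rho, w_tb, tb, Nat.reduceMul,
  Nat.reduceMod, Complex.mul_re, Complex.mul_im]
  linear_combination ((-1 / 4 + 401 / 4 * c + 89 / 2 * c ^ 2 - 170 * c ^ 3 + 12 * c ^ 4) * s *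
  a.1.re ^ 2 + (197 / 4 - 109 / 4 * c - 595 / 2 * c ^ 2 + 385 * c ^ 3 + 504 * c ^ 4 - 648 * c ^
  5) * s * a.1.im ^ 2 + (-547 / 2 * c - 403 / 2 * c ^ 2 + 614 * c ^ 3 + 244 * c ^ 4 - 340 * c ^
  5) * s * a.1.re * a.2.1.re + (-45 / 4 + 1133 / 4 * c + 160 * c ^ 2 - 581 * c ^ 3 - 108 * c ^ 4
  + 216 * c ^ 5) * s * a.2.1.re ^ 2 + (547 / 2 * c - 1029 / 2 * c ^ 2 + 510 * c ^ 3 + 1676 * c ^
  4 - 2268 * c ^ 5) * s * a.1.im * a.2.1.im + (136 - 229 / 2 * c - 820 * c ^ 2 + 1198 * c ^ 3 +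
  1280 * c ^ 4 - 1856 * c ^ 5) * s * a.2.1.im ^ 2 + (1303 / 4 * c + 359 / 2 * c ^ 2 - 631 * c ^ 3
  - 56 * c ^ 4 + 84 * c ^ 5) * s * a.1.re * a.2.2.1.re + (19 / 2 * c - 72 * c ^ 2 + 68 * c ^ 3 +
  160 * c ^ 4 - 168 * c ^ 5) * s * a.2.1.re * a.2.2.1.re + (-10 - 474 * c - 147 * c ^ 2 + 726 * c
  ^ 3 - 128 * c ^ 4 + 128 * c ^ 5) * s * a.2.2.1.re ^ 2 + (-1303 / 4 * c + 514 * c ^ 2 - 425 * c
  ^ 3 - 1882 * c ^ 4 + 2468 * c ^ 5) * s * a.1.im * a.2.2.1.im + (-19 / 2 * c - 27 * c ^ 2 + 28 *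
  c ^ 3 + 188 * c ^ 4 - 120 * c ^ 5) * s * a.2.1.im * a.2.2.1.im + (-238 + 225 / 2 * c + 2873 / 2
  * c ^ 2 - 1845 * c ^ 3 - 2424 * c ^ 4 + 3160 * c ^ 5) * s * a.2.2.1.im ^ 2 + (19 / 4 * c - 41 *
  c ^ 2 + 74 * c ^ 3 + 160 * c ^ 4 - 168 * c ^ 5) * s * a.1.re * a.2.2.2.re + (91 / 2 * c + 78 *
  c ^ 2 - 153 * c ^ 3 - 140 * c ^ 4 + 140 * c ^ 5) * s * a.2.1.re * a.2.2.2.re + (119 / 4 + 1105
  / 4 * c - 71 / 2 * c ^ 2 - 291 * c ^ 3 + 352 * c ^ 4 - 472 * c ^ 5) * s * a.2.2.1.re *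
  a.2.2.2.re + (-18 - 15 * c + 171 / 2 * c ^ 2 - 99 * c ^ 3 - 208 * c ^ 4 + 264 * c ^ 5) * s *
  a.2.2.2.re ^ 2 + (19 / 4 * c + 135 / 2 * c ^ 2 - 103 * c ^ 3 - 76 * c ^ 4 + 144 * c ^ 5) * s *
  a.1.im * a.2.2.2.im + (91 / 2 * c - 111 * c ^ 2 + 97 * c ^ 3 + 436 * c ^ 4 - 500 * c ^ 5) * s *
  a.2.1.im * a.2.2.2.im + (-583 / 4 + 31 / 4 * c + 1795 / 2 * c ^ 2 - 999 * c ^ 3 - 1688 * c ^ 4
  + 2120 * c ^ 5) * s * a.2.2.1.im * a.2.2.2.im + (-47 / 4 - 155 / 4 * c + 125 / 2 * c ^ 2 + 10 *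
  c ^ 3 - 196 * c ^ 4 + 160 * c ^ 5) * s * a.2.2.2.im ^ 2) * hc + ((-9 / 2 + 23 * c + 38 * c ^ 2
  - 76 * c ^ 3 - 64 * c ^ 4 + 96 * c ^ 5) * s * a.1.re ^ 2 + (1773 / 2 + 1193 * c - 3856 * c ^ 2
  - 4132 * c ^ 3 + 6968 * c ^ 4 + 4032 * c ^ 5 - 5184 * c ^ 6) * s * a.1.im ^ 2 + (169 * c - 602
  * c ^ 2 - 1312 * c ^ 3 + 2416 * c ^ 4 + 1952 * c ^ 5 - 2720 * c ^ 6) * s * a.1.re * a.2.1.re +
  (-405 / 2 - 180 * c + 1116 * c ^ 2 + 792 * c ^ 3 - 2232 * c ^ 4 - 864 * c ^ 5 + 1728 * c ^ 6) *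
  s * a.2.1.re ^ 2 + (1263 * c - 4510 * c ^ 2 - 9488 * c ^ 3 + 17008 * c ^ 4 + 13408 * c ^ 5 -
  18144 * c ^ 6) * s * a.1.im * a.2.1.im + (2448 + 2968 * c - 11088 * c ^ 2 - 10528 * c ^ 3 +
  20288 * c ^ 4 + 10240 * c ^ 5 - 14848 * c ^ 6) * s * a.2.1.im ^ 2 + (-42 * c + 154 * c ^ 2 +
  308 * c ^ 3 - 616 * c ^ 4 - 448 * c ^ 5 + 672 * c ^ 6) * s * a.1.re * a.2.2.1.re + (118 * c -
  396 * c ^ 2 - 944 * c ^ 3 + 1312 * c ^ 4 + 1280 * c ^ 5 - 1344 * c ^ 6) * s * a.2.1.re *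
  a.2.2.1.re + (-180 - 304 * c + 720 * c ^ 2 + 1024 * c ^ 3 - 1280 * c ^ 4 - 1024 * c ^ 5 + 1024
  * c ^ 6) * s * a.2.2.1.re ^ 2 + (-1345 * c + 4732 * c ^ 2 + 10440 * c ^ 3 - 18040 * c ^ 4 -
  15056 * c ^ 5 + 19744 * c ^ 6) * s * a.1.im * a.2.2.1.im + (80 * c - 192 * c ^ 2 - 952 * c ^ 3
  + 608 * c ^ 4 + 1504 * c ^ 5 - 960 * c ^ 6) * s * a.2.1.im * a.2.2.1.im + (-4284 - 5707 * c +
  18750 * c ^ 2 + 19844 * c ^ 3 - 33976 * c ^ 4 - 19392 * c ^ 5 + 25280 * c ^ 6) * s * a.2.2.1.im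
  ^ 2 + (118 * c - 396 * c ^ 2 - 944 * c ^ 3 + 1312 * c ^ 4 + 1280 * c ^ 5 - 1344 * c ^ 6) * s *
  a.1.re * a.2.2.2.re + (-98 * c + 322 * c ^ 2 + 812 * c ^ 3 - 1064 * c ^ 4 - 1120 * c ^ 5 + 1120
  * c ^ 6) * s * a.2.1.re * a.2.2.2.re + (1071 / 2 + 737 * c - 2496 * c ^ 2 - 2708 * c ^ 3 + 4744
  * c ^ 4 + 2816 * c ^ 5 - 3776 * c ^ 6) * s * a.2.2.1.re * a.2.2.2.re + (-324 - 459 * c + 1450 *
  c ^ 2 + 1636 * c ^ 3 - 2696 * c ^ 4 - 1664 * c ^ 5 + 2112 * c ^ 6) * s * a.2.2.2.re ^ 2 + (-99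
  * c + 392 * c ^ 2 + 556 * c ^ 3 - 1352 * c ^ 4 - 608 * c ^ 5 + 1152 * c ^ 6) * s * a.1.im *
  a.2.2.2.im + (280 * c - 934 * c ^ 2 - 2364 * c ^ 3 + 3496 * c ^ 4 + 3488 * c ^ 5 - 4000 * c ^
  6) * s * a.2.1.im * a.2.2.2.im + (-5247 / 2 - 3745 * c + 11676 * c ^ 2 + 13300 * c ^ 3 - 21656
  * c ^ 4 - 13504 * c ^ 5 + 16960 * c ^ 6) * s * a.2.2.1.im * a.2.2.2.im + (-423 / 2 - 449 * c +
  786 * c ^ 2 + 1508 * c ^ 3 - 1408 * c ^ 4 - 1568 * c ^ 5 + 1280 * c ^ 6) * s * a.2.2.2.im ^ 2)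
  * hs

theorem sum_dt (a : E) : ∑ e ∈ Finset.range 7, dt (Gam a e) (Gam a (e + 1)) =
    (7) * s + (-14 + 28 * c ^ 2) * s * a.1.re ^ 2 + (-14 + 28 * c ^ 2) * s * a.1.im ^ 2 + (14 +
    14 * c - 28 * c ^ 2) * s * a.2.1.re ^ 2 + (14 + 14 * c - 28 * c ^ 2) * s * a.2.1.im ^ 2 + (14
    - 28 * c ^ 2) * s * a.2.2.1.re ^ 2 + (14 - 28 * c ^ 2) * s * a.2.2.1.im ^ 2 + (-14 - 14 * c +
    28 * c ^ 2) * s * a.2.2.2.re ^ 2 + (-14 - 14 * c + 28 * c ^ 2) * s * a.2.2.2.im ^ 2 := by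
  simp only [Finset.sum_range_succ, Finset.sum_range_zero, dt, Gam, w_tb, tb, Nat.reduceMul,
  Nat.reduceMod, Nat.reduceAdd, Complex.add_re, Complex.add_im, Complex.mul_re, Complex.mul_im]
  linear_combination ((4 * c) * s + (1 + 2 * c) * s * a.1.re + (2 - 4 * c) * s * a.1.re ^ 2 + (2
  - 4 * c) * s * a.1.im ^ 2 + (2 - 6 * c) * s * a.2.1.re + (-6 - 2 * c) * s * a.1.re * a.2.1.re +
  (1 + 6 * c) * s * a.2.1.re ^ 2 + (-6 - 2 * c) * s * a.1.im * a.2.1.im + (1 + 6 * c) * s *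
  a.2.1.im ^ 2 + (-1 - 6 * c) * s * a.2.2.1.re + (-2 * c) * s * a.2.1.re * a.2.2.1.re + (-2 + 4 *
  c) * s * a.2.2.1.re ^ 2 + (-2 * c) * s * a.2.1.im * a.2.2.1.im + (-2 + 4 * c) * s * a.2.2.1.im
  ^ 2 + (-2 + 2 * c) * s * a.2.2.2.re + (2 * c) * s * a.1.re * a.2.2.2.re + (6 + 2 * c) * s *
  a.2.2.1.re * a.2.2.2.re + (-1 - 6 * c) * s * a.2.2.2.re ^ 2 + (2 * c) * s * a.1.im * a.2.2.2.im
  + (6 + 2 * c) * s * a.2.2.1.im * a.2.2.2.im + (-1 - 6 * c) * s * a.2.2.2.im ^ 2) * hc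

/-- the density -/
noncomputable def dn : ℝ := 2 / 97 * (-111 + 492 * c - 356 * c ^ 2)

theorem dn_bd : 0.8926 ≤ dn ∧ dn ≤ 0.8927 := by
  obtain ⟨a, b⟩ := c_bd
  obtain ⟨a', b'⟩ := c2_bd
  unfold dn
  constructor <;> linarith

theorem norm_rho (k : ℕ) (a : E) : ‖rho k a‖ = ‖a‖ := by
  simp only [rho, Prod.norm_def, norm_mul, norm_w, mul_one]

theorem nsq_le (a : E) : ‖a‖ ^ 2 ≤ (a.1.re ^ 2 + a.1.im ^ 2) + (a.2.1.re ^ 2 + a.2.1.im ^ 2) +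
    (a.2.2.1.re ^ 2 + a.2.2.1.im ^ 2) + (a.2.2.2.re ^ 2 + a.2.2.2.im ^ 2) := by
  have e : ∀ z : ℂ, z.re ^ 2 + z.im ^ 2 = ‖z‖ ^ 2 := fun z => by
    rw [Complex.sq_norm, Complex.normSq_apply]; ring
  simp only [e, Prod.norm_def]
  have := sq_nonneg ‖a.1‖
  have := sq_nonneg ‖a.2.1‖
  have := sq_nonneg ‖a.2.2.1‖
  have := sq_nonneg ‖a.2.2.2‖
  simp only [max_def]
  split_ifs <;> linarith

theorem second : ∃ r > 0, ∀ a : E, ‖a‖ ≤ r →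
    dn / 7 * ∑ k ∈ Finset.range 7, (1 - ell (rho k a)) * P0 (Gam (rho k a)) + ‖a‖ ^ 2 / 2 ≤
      (∑ e ∈ Finset.range 7, dt (Gam a e) (Gam a (e + 1))) / 2 := by
  obtain ⟨r, r0, hr⟩ := Metric.eventually_nhds_iff.1 (jf.hf.def (c := 1 / 4) (by norm_num))
  refine ⟨r / 2, by positivity, fun a ha => ?_⟩
  have h1 : ∑ k ∈ Finset.range 7, (1 - ell (rho k a)) * P0 (Gam (rho k a)) ≤
      ∑ k ∈ Finset.range 7, ((-37 / 4 - 5 / 2 * c + 19 * c ^ 2) * s + ‖a‖ ^ 2 / 4 + f1 (rho k a) + f2 (rho k a)) :=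
    Finset.sum_le_sum fun k _ => by
      have := hr (y := rho k a) (by rw [dist_zero_right, norm_rho]; linarith)
      rw [norm_rho, Real.norm_eq_abs, Real.norm_eq_abs, abs_of_nonneg (sq_nonneg ‖a‖)] at this
      linarith [le_abs_self ((1 - ell (rho k a)) * P0 (Gam (rho k a)) -
        (-37 / 4 - 5 / 2 * c + 19 * c ^ 2) * s - f1 (rho k a) - f2 (rho k a))]
  simp only [Finset.sum_add_distrib, sum_f1, Finset.sum_const, Finset.card_range,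
    nsmul_eq_mul, Nat.cast_ofNat] at h1
  obtain ⟨d0, d1⟩ := dn_bd
  have h2 := mul_le_mul_of_nonneg_left h1 (by linarith : 0 ≤ dn / 7)
  have h3 : (∑ e ∈ Finset.range 7, dt (Gam a e) (Gam a (e + 1))) / 2 - dn / 7 *
      (7 * ((-37 / 4 - 5 / 2 * c + 19 * c ^ 2) * s) + ∑ k ∈ Finset.range 7, f2 (rho k a)) =
      s * ((2051 / 388 - 1701 / 194 * c + 574 / 97 * c ^ 2) * (a.1.re ^ 2 + a.1.im ^ 2) +
      (4522 / 97 - 13349 / 194 * c + 2177 / 97 * c ^ 2) * (a.2.1.re ^ 2 + a.2.1.im ^ 2) +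
      (-11333 / 194 + 6398 / 97 * c + 245 / 97 * c ^ 2) * (a.2.2.1.re ^ 2 + a.2.2.1.im ^ 2) +
      (-833 / 97 - 7315 / 194 * c + 5299 / 97 * c ^ 2) * (a.2.2.2.re ^ 2 + a.2.2.2.im ^ 2) +
      (2625 / 97 + 5817 / 97 * c - 9492 / 97 * c ^ 2) * (a.2.2.1.re * a.2.2.2.re - a.2.2.1.im * a.2.2.2.im)) := by
    rw [sum_dt, sum_f2, dn]
    linear_combination ((-1714 / 97 + 1691 / 97 * c) * s + (16989 / 388 - 7209 / 194 * c) * s *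
    a.1.re ^ 2 + (16989 / 388 - 7209 / 194 * c) * s * a.1.im ^ 2 + (40017 / 388 - 18245 / 194 *
    c) * s * a.2.1.re ^ 2 + (40017 / 388 - 18245 / 194 * c) * s * a.2.1.im ^ 2 + (-42365 / 194 +
    36579 / 194 * c) * s * a.2.2.1.re ^ 2 + (-42365 / 194 + 36579 / 194 * c) * s * a.2.2.1.im ^ 2
    + (33711 / 194 - 14418 / 97 * c) * s * a.2.2.1.re * a.2.2.2.re + (-12593 / 388 + 4717 / 194 *
    c) * s * a.2.2.2.re ^ 2 + (-33711 / 194 + 14418 / 97 * c) * s * a.2.2.1.im * a.2.2.2.im +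
    (-12593 / 388 + 4717 / 194 * c) * s * a.2.2.2.im ^ 2) * hc
  obtain ⟨c0, c1⟩ := c_bd
  obtain ⟨c2, c3⟩ := c2_bd
  have h4 := nsq_le a
  have b0 : 1 ≤ 2051 / 388 - 1701 / 194 * c + 574 / 97 * c ^ 2 := by linarith
  have b1 : 1 ≤ 4522 / 97 - 13349 / 194 * c + 2177 / 97 * c ^ 2 := by linarith
  have b2 : 3 ≤ -11333 / 194 + 6398 / 97 * c + 245 / 97 * c ^ 2 := by linarith
  have b3 : 1.7 ≤ -833 / 97 - 7315 / 194 * c + 5299 / 97 * c ^ 2 := by linarith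
  have b4 : 1.6 ≤ 2625 / 97 + 5817 / 97 * c - 9492 / 97 * c ^ 2 := by linarith
  have b5 : 2625 / 97 + 5817 / 97 * c - 9492 / 97 * c ^ 2 ≤ 1.7 := by linarith
  generalize 2051 / 388 - 1701 / 194 * c + 574 / 97 * c ^ 2 = q0 at *
  generalize 4522 / 97 - 13349 / 194 * c + 2177 / 97 * c ^ 2 = q1 at *
  generalize -11333 / 194 + 6398 / 97 * c + 245 / 97 * c ^ 2 = q2 at *
  generalize -833 / 97 - 7315 / 194 * c + 5299 / 97 * c ^ 2 = q3 at *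
  generalize 2625 / 97 + 5817 / 97 * c - 9492 / 97 * c ^ 2 = q4 at *
  generalize a.1.re = y0, a.1.im = y1, a.2.1.re = y2, a.2.1.im = y3, a.2.2.1.re = y4,
    a.2.2.1.im = y5, a.2.2.2.re = y6, a.2.2.2.im = y7 at *
  have k : ∀ x y t : ℝ, |t| ≤ 1.7 → 0 ≤ 2 * x ^ 2 + 0.7 * y ^ 2 + t * (x * y) := fun x y t ht => by
    obtain ⟨t0, t1⟩ := abs_le.1 ht
    rcases le_total 0 (x * y) with h | h <;> nlinarith [sq_nonneg (2 * x - y), sq_nonneg (2 * x + y)]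
  have k1 := k y4 y6 q4 (abs_le.2 ⟨by linarith, b5⟩)
  have k2 := k y5 y7 (-q4) (abs_le.2 ⟨by linarith, by linarith⟩)
  have k3 := mul_le_mul_of_nonneg_right b0 (by positivity : 0 ≤ y0 ^ 2 + y1 ^ 2)
  have k4 := mul_le_mul_of_nonneg_right b1 (by positivity : 0 ≤ y2 ^ 2 + y3 ^ 2)
  have k5 := mul_le_mul_of_nonneg_right b2 (by positivity : 0 ≤ y4 ^ 2 + y5 ^ 2)
  have k6 := mul_le_mul_of_nonneg_right b3 (by positivity : 0 ≤ y6 ^ 2 + y7 ^ 2)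
  have k7 : ‖a‖ ^ 2 ≤ q0 * (y0 ^ 2 + y1 ^ 2) + q1 * (y2 ^ 2 + y3 ^ 2) + q2 * (y4 ^ 2 + y5 ^ 2) +
      q3 * (y6 ^ 2 + y7 ^ 2) + q4 * (y4 * y6 - y5 * y7) := by linarith
  have k8 := mul_le_mul s_bd.1 k7 (sq_nonneg _) s_pos.le
  have k9 := mul_le_mul_of_nonneg_right d1 (sq_nonneg ‖a‖)
  linarith [sq_nonneg ‖a‖]

end Pool.Agent.MP_5c967c_co.H80L
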