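import Pool.Agent.MP_5c967c_co.H80L.G

/-! The local estimate in normalised position. -/

namespace Pool.Agent.MP_5c967c_co.H80L

open H46 Set MeasureTheory

/-- the regular heptagon in the complex plane -/
def Hc : Set ℂ := convexHull ℝ (range fun k : ℕ => w ^ k)

theorem Hc_mem (k : ℕ) : w ^ k ∈ Hc := subset_convexHull _ _ ⟨k, rfl⟩

theorem Hc_zero : 0 ∈ Hc := by
  have hv : Convex ℝ Hc := convex_convexHull _ _
  have c0 : 0 < c := by linarith [c_lo]
  convert hv (Hc_mem 0) (hv (Hc_mem 3) (Hc_mem 4) (a := 1 / 2) (b := 1 / 2) (by norm_num)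
    (by norm_num) (by norm_num)) (a := c / (1 + c)) (b := 1 / (1 + c)) (by positivity)
    (by positivity) (by field_simp; ring) using 1
  apply Complex.ext <;> simp only [w_tb, tb, Nat.reduceMod, Complex.add_re, Complex.add_im,
    Complex.smul_re, Complex.smul_im, smul_eq_mul, Complex.zero_re, Complex.zero_im] <;> ring

theorem Hc_compact : IsCompact Hc := by
  refine Finite.isCompact_convexHull ℝ (((finite_Iio 7).image fun k => w ^ k).subset ?_)
  rintro _ ⟨k, rfl⟩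
  exact ⟨k % 7, Nat.mod_lt _ (by norm_num), (w_mod k).symm⟩

theorem Gam_rot (k j : ℕ) (a : E) : w ^ k * Gam (rho k a) j = Gam a (j + k) := by
  simp only [Gam, rho]; ring

theorem Gam_mod (a : E) {n m : ℕ} (h : n % 7 = m % 7) : Gam a n = Gam a m := by
  simp only [Gam, mul_comm _ n, mul_comm _ m, pow_mul]
  rw [w_mod n, h, ← w_mod]

theorem dt_rot (k : ℕ) (z y : ℂ) : dt (w ^ k * z) (w ^ k * y) = dt z y := by
  have := Complex.sq_norm (w ^ k)
  rw [norm_w, Complex.normSq_apply] at this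
  simp only [dt, Complex.mul_re, Complex.mul_im]
  linear_combination (z.im * y.re - z.re * y.im) * this

theorem tb_cl : Cl (w ^ 0) 1 0 0.000001 ∧ Cl (w ^ 1) 0.62349 0.781831 0.000001 ∧
    Cl (w ^ 2) (-0.222521) 0.974928 0.000001 ∧ Cl (w ^ 3) (-0.900969) 0.433884 0.000001 ∧
    Cl (w ^ 4) (-0.900969) (-0.433884) 0.000001 ∧ Cl (w ^ 5) (-0.222521) (-0.974928) 0.000001 ∧
    Cl (w ^ 6) 0.62349 (-0.781831) 0.000001 := by
  obtain ⟨a1, a2⟩ := c_bd
  obtain ⟨b1, b2⟩ := c2_bd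
  obtain ⟨s1, s2⟩ := s_bd
  obtain ⟨p1, p2⟩ := pb (x := c - 0.9) (y := s - 0.7818315) (A := 0.1) (B := 0.0000001)
    (by linarith) (by linarith) (by linarith) (by linarith)
  obtain ⟨q1, q2⟩ := pb (x := c ^ 2 - 0.8) (y := s - 0.7818315) (A := 0.1) (B := 0.0000001)
    (by linarith) (by linarith) (by linarith) (by linarith)
  simp only [Cl, w_tb, tb, Nat.reduceMod]
  refine ⟨⟨?_, ?_, ?_, ?_⟩, ⟨?_, ?_, ?_, ?_⟩, ⟨?_, ?_, ?_, ?_⟩, ⟨?_, ?_, ?_, ?_⟩, ⟨?_, ?_, ?_, ?_⟩,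
    ⟨?_, ?_, ?_, ?_⟩, ⟨?_, ?_, ?_, ?_⟩⟩ <;> linarith

theorem Cl.near {z y : ℂ} {A B : ℝ} (h : Cl y A B 0.000001) (hz : ‖z - y‖ ≤ 0.00001) :
    Cl z A B 0.00002 := by
  obtain ⟨a1, a2⟩ := abs_le.1 ((Complex.abs_re_le_norm _).trans hz)
  obtain ⟨a3, a4⟩ := abs_le.1 ((Complex.abs_im_le_norm _).trans hz)
  obtain ⟨_, _, _, _⟩ := h
  simp only [Complex.sub_re, Complex.sub_im] at *
  refine ⟨?_, ?_, ?_, ?_⟩ <;> linarith

theorem cv_of {a : E} (ha : ‖a‖ ≤ 0.0000025) : Cv (Gam a) := by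
  have h : ∀ j, ‖Gam a j - w ^ j‖ ≤ 0.00001 := fun j => (Gam_near a j).trans (by linarith)
  obtain ⟨h0, h1, h2, h3, h4, h5, h6⟩ := tb_cl
  exact ⟨h0.near (h _), h1.near (h _), h2.near (h _), h3.near (h _), h4.near (h _), h5.near (h _),
    h6.near (h _)⟩

theorem out_of {z : ℂ} (hz : ‖z‖ ≤ 2) (h : ∀ m : ℕ, -c - 0.00001 ≤ (z * w ^ m).re) : Out z := by
  obtain ⟨a1, a2⟩ := abs_le.1 ((Complex.abs_re_le_norm _).trans hz)
  obtain ⟨a3, a4⟩ := abs_le.1 ((Complex.abs_im_le_norm _).trans hz)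
  have k : ∀ (m : ℕ) (A B : ℝ), Cl (w ^ m) A B 0.000001 → -0.90099 ≤ A * z.re - B * z.im := by
    rintro m A B ⟨_, _, _, _⟩
    have h1 := h m
    have h2 := (pb (y := (w ^ m).re - A) (B := 0.000001) a1 a2 (by linarith) (by linarith)).2
    have h3 := (pb (y := (w ^ m).im - B) (B := 0.000001) a3 a4 (by linarith) (by linarith)).1
    rw [Complex.mul_re] at h1
    linarith [c_bd.2]
  obtain ⟨h0, h1, h2, h3, h4, h5, h6⟩ := tb_cl
  refine ⟨?_, ?_, ?_, ?_, ?_, ?_, ?_⟩ <;>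
    linarith [k _ _ _ h0, k _ _ _ h1, k _ _ _ h2, k _ _ _ h3, k _ _ _ h4, k _ _ _ h5, k _ _ _ h6]

theorem eq_of_vol {C C' : Set Plane} (hC : Convex ℝ C) (hne : (interior C).Nonempty)
    (hc : IsCompact C') (hs : C' ⊆ C) (hv : volume C ≤ volume C') : C = C' := by
  refine Subset.antisymm ?_ hs
  have h1 : volume (interior C \ C') = 0 := by
    refine measure_mono_null (sdiff_subset_sdiff_left interior_subset) ?_
    rw [measure_sdiff hs hc.measurableSet.nullMeasurableSet hc.measure_lt_top.ne]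
    exact tsub_eq_zero_of_le hv
  rw [(isOpen_interior.sdiff hc.isClosed).measure_eq_zero_iff volume, sdiff_eq_empty] at h1
  refine subset_closure.trans ?_
  rw [← hC.closure_interior_eq_closure_of_nonempty_interior hne]
  exact closure_minimal h1 hc.isClosed

theorem core : ∃ r > 0, ∀ (C : Set Plane) (φ : ℂ →ₗ[ℝ] Plane) (D : ℝ) (a : E), IsCompact C →
    Convex ℝ C → (interior C).Nonempty → 0 < D → (∀ z y, det2 (φ z) (φ y) = D * dt z y) →
    ‖a‖ ≤ r → 0 ∈ C → (∀ j, φ (Gam a j) ∈ C) →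
    (∀ z, φ z ∈ C → ‖z‖ ≤ 2 ∧ ∀ m : ℕ, -c - 0.00001 ≤ (z * w ^ m).re) →
    (∀ k : ℕ, ∃ ϑ : ℝ, |ϑ| ≤ 0.00005 ∧ ∀ z, φ (w ^ k * z) ∈ C →
      z.re + ϑ * z.im ≤ (Gam (rho k a) 0).re + ϑ * (Gam (rho k a) 0).im) →
    ENNReal.ofReal dn ≤ packingDensity C ∧
      (packingDensity C ≤ ENNReal.ofReal dn → C = φ '' Hc) := by
  obtain ⟨r, r0, hr⟩ := second
  refine ⟨min r 0.0000025, by positivity, fun C φ D a hc hC hne D0 hD ha h0 hV out sup => ?_⟩
  have h2nd := hr a (ha.trans (min_le_left _ _))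
  replace ha := ha.trans (min_le_right _ _)
  have cv : ∀ k, Cv (Gam (rho k a)) := fun k => cv_of (by rwa [norm_rho])
  let ψ : ℕ → ℂ →ₗ[ℝ] Plane := fun k => φ ∘ₗ LinearMap.mulLeft ℝ (w ^ k)
  have eψ : ∀ k z, ψ k z = φ (w ^ k * z) := fun k z => rfl
  have nψ : ∀ k z, ψ k z ∈ C → ‖z‖ ≤ 2 := fun k z hz => by
    simpa only [norm_mul, norm_w, one_mul] using (out (w ^ k * z) hz).1
  have cK : ∀ k, Convex ℝ (ψ k ⁻¹' C) := fun k => hC.linear_preimage _
  have z0 : ∀ k, 0 ∈ ψ k ⁻¹' C := fun k => by rwa [mem_preimage, map_zero]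
  choose l M U L l0 con using fun k => exists_con
    ((isCompact_closedBall 0 2).of_isClosed_subset
      (hc.isClosed.preimage (ψ k).continuous_of_finiteDimensional)
      fun z hz => mem_closedBall_zero_iff.2 (nψ k z hz)) (cK k) ⟨0, z0 k⟩
  choose ϑ hϑ sup using sup
  choose h1 h2 h3 h4 h5 hS hE n1 n2 n3 n4 n5 n6 n7 p1 p2 using fun k => frame (cK k) (z0 k)
    (fun j => by rw [mem_preimage, eψ, Gam_rot]; exact hV _) (cv k)
    (fun z hz => out_of (nψ k z hz) fun m => by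
      have := (out (w ^ k * z) hz).2 (m + 6 * k)
      rwa [show w ^ k * z * w ^ (m + 6 * k) = z * w ^ m * (w ^ 7) ^ k by ring, w7, one_pow,
        mul_one] at this) (abs_le.1 (hϑ k)).1 (abs_le.1 (hϑ k)).2 (sup k) (con k)
  have br := fun k ρ => bridge hc hC hne (ψ k) D0 (fun z y => by rw [eψ, eψ, hD, dt_rot]) (l0 k)
    (con k) (by linarith [p1 k]) (ρ := ρ)
  have tr : ∀ k i j e lo hi h, (i + k) % 7 = e % 7 → (j + k) % 7 = (e + 1) % 7 →
      Nr (ψ k ⁻¹' C) (Gam (rho k a) i) (Gam (rho k a) j) lo hi h →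
      Nr (φ ⁻¹' C) (Gam a e) (Gam a (e + 1)) lo hi h := by
    rintro k i j e lo hi h e1 e2 ⟨p, t, t0, t1, m⟩
    refine ⟨p, t, t0, t1, ?_⟩
    simp only [mem_preimage, map_smul, map_add] at m ⊢
    rwa [eψ, eψ, Gam_rot, Gam_rot, Gam_mod a e1, Gam_mod a e2] at m
  have dd : ∀ n d, dt (Gam a n) (Gam a (n + d)) = dt (Gam (rho n a) 0) (Gam (rho n a) d) :=
    fun n d => by rw [← dt_rot n (Gam (rho n a) 0), Gam_rot, Gam_rot, zero_add, add_comm]
  have pos : ∀ n d, 1 ≤ d → d ≤ 3 → 0 < det2 (φ (Gam a n)) (φ (Gam a (n + d))) := by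
    intro n d d1 d3
    obtain ⟨q1, -, q2, q3⟩ := (cv n).dets
    rw [hD, dd]
    refine mul_pos D0 ?_
    interval_cases d <;> linarith
  have sec := fun (C : Set Plane) hm hf => sectors (C := C) hm hf (fun n => φ (Gam a n))
    (fun n => by simp only [Gam_mod a (Nat.add_mod_right n 7)]) pos
  have hf : volume C ≠ ⊤ := hc.measure_lt_top.ne
  obtain ⟨B, hB⟩ : ∃ B : ℕ → ℝ, B = fun k => 0.46 * (h1 k + h5 k) + 0.164 * (h2 k + h4 k) +
    0.386 * h3 k + 0.005 * (hS k + hE k) := ⟨_, rfl⟩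
  have A1 : D * ((∑ e ∈ Finset.range 7, dt (Gam a e) (Gam a (e + 1))) / 2 +
      0.39 * ∑ k ∈ Finset.range 7, B k) ≤ (volume C).toReal := by
    refine le_trans ?_ ((Finset.sum_le_sum (f := fun e => D * (dt (Gam a e) (Gam a (e + 1)) / 2 +
      0.39 * (0.46 * (h1 ((e + 6) % 7) + h5 ((e + 2) % 7)) +
        0.164 * (h2 ((e + 5) % 7) + h4 ((e + 3) % 7)) + 0.386 * h3 ((e + 4) % 7) +
        0.005 * (hS e + hE ((e + 1) % 7))))) fun e _ => ?_).trans (sec C hc.measurableSet hf))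
    · simp only [hB, Finset.sum_range_succ, Finset.sum_range_zero, Nat.reduceAdd, Nat.reduceMod]
      linarith
    refine le_trans ?_ (edge hC hf h0 φ (hV e) (hV (e + 1)) (pos e 1 le_rfl (by norm_num)).le
      (tr _ _ _ e _ _ _ (by omega) (by omega) (n1 ((e + 6) % 7)))
      (tr _ _ _ e _ _ _ (by omega) (by omega) (n2 ((e + 5) % 7)))
      (tr _ _ _ e _ _ _ (by omega) (by omega) (n3 ((e + 4) % 7)))
      (tr _ _ _ e _ _ _ (by omega) (by omega) (n4 ((e + 3) % 7)))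
      (tr _ _ _ e _ _ _ (by omega) (by omega) (n5 ((e + 2) % 7)))
      (tr _ _ _ e _ _ _ (by omega) (by omega) (n6 e))
      (tr _ _ _ e _ _ _ (by omega) (by omega) (n7 ((e + 1) % 7))))
    have q := (cv e).dets.1
    rw [← dd] at q
    have := mul_le_mul_of_nonneg_right (by linarith : 0.39 ≤ dt (Gam a e) (Gam a (e + 1)) / 2)
      (by linarith [(n1 ((e + 6) % 7)).1, (n2 ((e + 5) % 7)).1, (n3 ((e + 4) % 7)).1,
        (n4 ((e + 3) % 7)).1, (n5 ((e + 2) % 7)).1, (n6 e).1, (n7 ((e + 1) % 7)).1] :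
      0 ≤ 0.46 * (h1 ((e + 6) % 7) + h5 ((e + 2) % 7)) +
        0.164 * (h2 ((e + 5) % 7) + h4 ((e + 3) % 7)) + 0.386 * h3 ((e + 4) % 7) +
        0.005 * (hS e + hE ((e + 1) % 7)))
    have := mul_le_mul_of_nonneg_left this D0.le
    rw [hD]
    linarith
  obtain ⟨d0, d1⟩ := dn_bd
  have el : ∀ k, 0.9 ≤ 1 - ell (rho k a) ∧ 1 - ell (rho k a) ≤ 1.0001 := fun k => by
    have := abs_le.1 (ell_le (rho k a))
    rw [norm_rho] at this
    constructor <;> linarith [this.1, this.2]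
  have B0 : 0 ≤ ∑ k ∈ Finset.range 7, B k := Finset.sum_nonneg fun k _ => by
    rw [hB]
    linarith [(n1 k).1, (n2 k).1, (n3 k).1, (n4 k).1, (n5 k).1, (n6 k).1, (n7 k).1]
  have A2 : ∑ k ∈ Finset.range 7, (1 - ell (rho k a)) * (dn * (2 * l k * ((U k).im - (L k).im)))
      ≤ 7 * ((∑ e ∈ Finset.range 7, dt (Gam a e) (Gam a (e + 1))) / 2 - ‖a‖ ^ 2 / 2 +
      0.385 * ∑ k ∈ Finset.range 7, B k) := by
    refine (Finset.sum_le_sum (g := fun k => dn * ((1 - ell (rho k a)) * P0 (Gam (rho k a))) +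
      2.695 * B k) fun k _ => ?_).trans ?_
    · have q1 := mul_le_mul_of_nonneg_left (p2 k)
        (mul_nonneg (by linarith [(el k).1] : 0 ≤ 1 - ell (rho k a)) (by linarith : 0 ≤ dn))
      have q2 := mul_le_mul_of_nonneg_right (mul_le_mul (el k).2 d1 (by linarith) (by norm_num))
        (by linarith [(n1 k).1, (n2 k).1, (n3 k).1, (n4 k).1, (n5 k).1, (n6 k).1, (n7 k).1] :
          0 ≤ 1.368 * (h1 k + h5 k) + 0.489 * (h2 k + h4 k) + 1.151 * h3 k +
            0.0015 * (hS k + hE k))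
      rw [hB]
      linarith [(n1 k).1, (n2 k).1, (n3 k).1, (n4 k).1, (n5 k).1, (n6 k).1, (n7 k).1]
    · rw [Finset.sum_add_distrib, ← Finset.mul_sum, ← Finset.mul_sum]
      linarith
  have S7 : ∀ x : ℝ, ∑ k ∈ Finset.range 7, (1 - ell (rho k a)) * x = 7 * x := fun x => by
    rw [← Finset.sum_mul, Finset.sum_sub_distrib, sum_ell]; simp
  have A3 := mul_le_mul_of_nonneg_left A2 D0.le
  have DB := mul_nonneg D0.le B0
  have Da := mul_nonneg D0.le (sq_nonneg ‖a‖)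
  refine ⟨?_, fun hle => ?_⟩
  · obtain ⟨k, -, hk⟩ := Finset.exists_le_of_sum_le (s := Finset.range 7) (by simp)
      (f := fun k => D * ((1 - ell (rho k a)) * (dn * (2 * l k * ((U k).im - (L k).im)))))
      (g := fun k => (1 - ell (rho k a)) * (volume C).toReal)
      (by rw [S7, ← Finset.mul_sum]; linarith)
    exact br k dn (by linarith) (le_of_mul_le_mul_left (by linarith)
      (by linarith [(el k).1] : 0 < 1 - ell (rho k a)))
  have A4 : 7 * (volume C).toReal ≤ D * ∑ k ∈ Finset.range 7,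
      (1 - ell (rho k a)) * (dn * (2 * l k * ((U k).im - (L k).im))) := by
    rw [← S7, Finset.mul_sum]
    refine Finset.sum_le_sum fun k _ => ?_
    have q : 0 < D * (2 * l k * ((U k).im - (L k).im)) := mul_pos D0 (by linarith [p1 k])
    have := (br k ((volume C).toReal / (D * (2 * l k * ((U k).im - (L k).im)))) (by positivity)
      (div_mul_cancel₀ _ q.ne').le).trans hle
    rw [ENNReal.ofReal_le_ofReal_iff (by linarith), div_le_iff₀ q] at this
    have := mul_le_mul_of_nonneg_left this (by linarith [(el k).1] : 0 ≤ 1 - ell (rho k a))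
    linarith
  have a0 : a = 0 := norm_eq_zero.1 (pow_eq_zero_iff two_ne_zero |>.1
    (le_antisymm (le_of_mul_le_mul_left (by linarith) D0) (sq_nonneg _)))
  have g0 : ∀ j, Gam a j = w ^ j := fun j => by simp [a0, Gam]
  have c' : IsCompact (φ '' Hc) := Hc_compact.image φ.continuous_of_finiteDimensional
  have v' : Convex ℝ (φ '' Hc) := (convex_convexHull _ _).linear_image φ
  have m' : ∀ j, φ (Gam a j) ∈ φ '' Hc := fun j => ⟨_, Hc_mem j, by rw [g0]⟩
  refine eq_of_vol hC hne c' (image_subset_iff.2 (convexHull_min ?_ (hC.linear_preimage φ))) ?_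
  · rintro _ ⟨j, rfl⟩
    simpa only [g0, mem_preimage] using hV j
  rw [← ENNReal.toReal_le_toReal hf c'.measure_lt_top.ne]
  refine le_trans ?_ ((Finset.sum_le_sum (f := fun e => D * (dt (Gam a e) (Gam a (e + 1)) / 2))
    fun e _ => ?_).trans (sec _ c'.measurableSet c'.measure_lt_top.ne))
  · rw [← Finset.mul_sum, ← Finset.sum_div]
    linarith
  have m : (1 + 0 : ℝ) • ((1 - 1 : ℝ) • φ (Gam a e) + (1 : ℝ) • φ (Gam a (e + 1))) ∈ φ '' Hc := by
    simpa only [add_zero, sub_self, zero_smul, one_smul, zero_add] using m' (e + 1)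
  have := fan3 v' c'.measure_lt_top.ne ⟨0, Hc_zero, map_zero φ⟩ (m' e) (m' (e + 1))
    (pos e 1 le_rfl (by norm_num)).le zero_le_one le_rfl le_rfl le_rfl le_rfl le_rfl le_rfl m m m
  rw [hD] at this
  linarith

end Pool.Agent.MP_5c967c_co.H80L
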