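import Pool.Agent.MP_5c967c_co.H80L.N
import Pool.Agent.MP_5c967c_co.H46.Order
import Pool.Agent.MP_5c967c_co.H80.Up

/-! The regular heptagon is a local minimiser of the packing density. -/

namespace Pool.Agent.MP_5c967c_co.H80L

open H46 Set MeasureTheory Metric ComplexConjugate

/-- the identification of the complex plane with the Euclidean plane -/
noncomputable def io : ℂ ≃ₗᵢ[ℝ] Plane := Complex.orthonormalBasisOneI.repr

theorem io0 (z : ℂ) : io z 0 = z.re := by simp [io]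

theorem io1 (z : ℂ) : io z 1 = z.im := by simp [io]

theorem io_Hc : io '' Hc = H80.Hept := by
  have := (io.toLinearEquiv.toLinearMap).image_convexHull (range fun k : ℕ => w ^ k)
  refine this.trans (congrArg _ ?_)
  have e : ∀ k : ℕ, io (w ^ k) =
      !₂[Real.cos (2 * Real.pi * k / 7), Real.sin (2 * Real.pi * k / 7)] := fun k => by
    ext i
    fin_cases i
    · simpa [w_pow] using io0 (w ^ k)
    · simpa [w_pow] using io1 (w ^ k)
  ext x
  constructor
  · rintro ⟨_, ⟨k, rfl⟩, rfl⟩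
    exact ⟨⟨k % 7, Nat.mod_lt _ (by norm_num)⟩, (e _).symm.trans (by rw [← w_mod]; rfl)⟩
  · rintro ⟨k, rfl⟩
    exact ⟨_, ⟨k, rfl⟩, e k⟩

theorem det2_map (L : Plane →ₗ[ℝ] Plane) (x y : Plane) :
    det2 (L x) (L y) = det2 (L !₂[1, 0]) (L !₂[0, 1]) * det2 x y := by
  have e : ∀ x : Plane, L x = x 0 • L !₂[1, 0] + x 1 • L !₂[0, 1] := fun x => by
    rw [← map_smul, ← map_smul, ← map_add]
    congr 1
    ext i
    fin_cases i <;> simp
  rw [e x, e y]
  simp [det2]
  ring

theorem pd_iso (f : Plane ≃ᵢ Plane) (K : Set Plane) :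
    packingDensity (f '' K) = packingDensity K := by
  refine (packingDensity_iso f K).antisymm ?_
  have := packingDensity_iso f.symm (f '' K)
  rwa [image_image, image_congr fun x _ => f.symm_apply_apply x, image_id'] at this

theorem main : ∃ ε > 0, ∀ (C : Set Plane) (S : Plane ≃ᵃ[ℝ] Plane), IsCompact C → Convex ℝ C →
    (interior C).Nonempty → hausdorffDist (S '' C) H80.Hept < ε →
    packingDensity H80.Hept ≤ packingDensity C ∧
      (packingDensity C = packingDensity H80.Hept → ∃ T : Plane ≃ᵃ[ℝ] Plane, C = T '' H80.Hept) := by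
  obtain ⟨r, r0, hr⟩ := core
  refine ⟨min (r / 16) 0.0000002, by positivity, fun C S hc hC hne hd => ?_⟩
  have e1 := min_le_left (r / 16) 0.0000002
  have e2 := min_le_right (r / 16) 0.0000002
  generalize min (r / 16) 0.0000002 = ε at *
  have cS : IsCompact (S '' C) := hc.image S.toAffineMap.continuous_of_finiteDimensional
  have cH : IsCompact H80.Hept := io_Hc ▸ Hc_compact.image io.continuous
  have fin := hausdorffEDist_ne_top_of_nonempty_of_bounded
    ((hne.mono interior_subset).image S) ⟨_, H80.uv_mem 0⟩ cS.isBounded cH.isBounded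
  obtain ⟨b, u, v, a, hb, uv, na, hV, out, sup⟩ := normal (K := io ⁻¹' (S '' C)) (ε := ε)
    (io.toHomeomorph.isCompact_preimage.2 cS)
    ((hC.affine_image S.toAffineMap).linear_preimage io.toLinearEquiv.toLinearMap) (by linarith)
    (fun z hz => by
      obtain ⟨y, hy, h⟩ := exists_dist_lt_of_hausdorffDist_lt (x := io z) hz hd fin
      obtain ⟨y, hy', rfl⟩ := io_Hc ▸ hy
      exact ⟨y, hy', by rw [io.dist_map, dist_eq_norm] at h; exact h.le⟩)
    (fun j => by
      obtain ⟨y, hy, h⟩ := exists_dist_lt_of_hausdorffDist_lt' (y := io (w ^ j))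
        (io_Hc ▸ ⟨_, Hc_mem j, rfl⟩) hd fin
      obtain ⟨y, rfl⟩ := io.surjective y
      exact ⟨y, hy, by rw [io.dist_map, dist_eq_norm] at h; exact h.le⟩)
  let L : Plane →ₗ[ℝ] Plane := S.symm.linear.toLinearMap
  let T : ℂ →ₗ[ℝ] ℂ := LinearMap.mulLeft ℝ u + LinearMap.mulLeft ℝ v ∘ₗ Complex.conjAe.toLinearMap
  let φ : ℂ →ₗ[ℝ] Plane := L ∘ₗ io.toLinearEquiv.toLinearMap ∘ₗ T
  have eφ : ∀ z, φ z = L (io (u * z + v * conj z)) := fun z => rfl
  have mφ : ∀ z, φ z + S.symm (io b) ∈ C ↔ b + (u * z + v * conj z) ∈ io ⁻¹' (S '' C) := by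
    intro z
    have : φ z + S.symm (io b) = S.symm (io (b + (u * z + v * conj z))) := by
      rw [map_add, add_comm (io b)]
      exact (S.symm.map_vadd _ _).symm
    rw [this, mem_preimage]
    exact ⟨fun h => ⟨_, h, S.apply_symm_apply _⟩, fun ⟨x, hx, e⟩ => by
      rwa [← e, S.symm_apply_apply]⟩
  have L0 : det2 (L !₂[1, 0]) (L !₂[0, 1]) ≠ 0 := fun h => by
    have := det2_map L (S.symm.linear.symm !₂[1, 0]) (S.symm.linear.symm !₂[0, 1])
    rw [h] at this
    simp [L, det2] at this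
  have dφ : ∀ z y, det2 (φ z) (φ y) =
      det2 (L !₂[1, 0]) (L !₂[0, 1]) * (‖u‖ ^ 2 - ‖v‖ ^ 2) * dt z y := fun z y => by
    rw [eφ, eφ, det2_map, mul_assoc, Complex.sq_norm, Complex.sq_norm]
    congr 1
    simp [det2, io0, io1, dt, Complex.normSq_apply]
    ring
  have uv2 : 0 < ‖u‖ ^ 2 - ‖v‖ ^ 2 := sub_pos.2 (pow_lt_pow_left₀ uv (norm_nonneg _) two_ne_zero)
  generalize S.symm (io b) = O at mφ
  obtain ⟨σ, D, D0, hD⟩ : ∃ (σ : Plane ≃ₗᵢ[ℝ] Plane) (D : ℝ), 0 < D ∧
      ∀ z y, det2 (σ (φ z)) (σ (φ y)) = D * dt z y := by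
    rcases L0.lt_or_gt with h | h
    · refine ⟨H46.flip, _, neg_pos.2 (mul_neg_of_neg_of_pos h uv2), fun z y => ?_⟩
      rw [neg_mul, ← dφ]
      simp only [det2, flip0, flip1]
      ring
    · exact ⟨.refl ℝ _, _, mul_pos h uv2, dφ⟩
  let f : Plane ≃ᵢ Plane := (IsometryEquiv.addRight (-O)).trans σ.toIsometryEquiv
  have ef : ∀ x, f x = σ (x + -O) := fun x => rfl
  have mf : ∀ z, σ (φ z) ∈ f '' C ↔ φ z + O ∈ C := fun z =>
    ⟨fun ⟨x, hx, e⟩ => by rwa [← σ.injective (e.symm.trans (ef x)).symm, neg_add_cancel_right],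
      fun h => ⟨_, h, by rw [ef, add_neg_cancel_right]⟩⟩
  obtain ⟨k1, k2⟩ := hr (f '' C) (σ.toLinearEquiv.toLinearMap ∘ₗ φ) D a (hc.image f.continuous)
    (by
      rw [show f '' C = σ.toLinearEquiv.toLinearMap '' ((fun x => -O + x) '' C) by
        rw [image_image]; exact image_congr fun x _ => by rw [ef, add_comm]; rfl]
      exact (hC.translate _).linear_image _)
    (by rw [interior_iso]; exact hne.image _) D0 hD (by linarith)
    (by simpa using (mf 0).2 ((mφ 0).2 (by simpa using hb)))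
    (fun j => (mf _).2 ((mφ _).2 (hV j)))
    (fun z hz => (out z ((mφ _).1 ((mf _).1 hz))).imp_right fun h m => by linarith [h m])
    fun k => (sup k).imp fun ϑ h => ⟨by linarith [h.1], fun z hz => h.2 z ((mφ _).1 ((mf _).1 hz))⟩
  rw [pd_iso] at k1 k2
  rw [H80.main]
  refine ⟨k1, fun h => ?_⟩
  have sj : Function.Surjective (φ ∘ₗ io.toLinearEquiv.symm.toLinearMap) :=
    (surj φ (mul_ne_zero L0 uv2.ne') dφ).comp io.symm.surjective
  refine ⟨(LinearEquiv.ofBijective _ ⟨LinearMap.injective_iff_surjective.2 sj, sj⟩).toAffineEquiv.trans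
    (AffineEquiv.constVAdd ℝ Plane O), ?_⟩
  rw [← io_Hc, image_image]
  refine image_injective.2 f.injective ((k2 h.le).trans ?_)
  rw [image_image]
  refine image_congr fun z _ => ?_
  change σ (φ z) = σ (O + φ (io.symm (io z)) + -O)
  rw [io.symm_apply_apply, add_neg_cancel_comm]

end Pool.Agent.MP_5c967c_co.H80L
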