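import Pool.Agent.MP_5c967c_co.H80L.K

/-! Normalisation of a convex set close to the regular heptagon. -/

namespace Pool.Agent.MP_5c967c_co.H80L

open Set ComplexConjugate

theorem w_re (m : ℕ) : -c ≤ (w ^ m).re ∧ (m % 7 ≠ 0 → (w ^ m).re < 1) := by
  obtain ⟨a1, a2⟩ := c_bd
  obtain ⟨b1, b2⟩ := c2_bd
  rw [w_tb]
  have : m % 7 < 7 := Nat.mod_lt _ (by norm_num)
  generalize m % 7 = n at *
  interval_cases n <;> simp only [tb] <;> refine ⟨by linarith, fun h => ?_⟩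
  · exact absurd rfl h
  all_goals linarith

theorem Hc_bd {y : ℂ} (hy : y ∈ Hc) : ‖y‖ ≤ 1 ∧ ∀ m : ℕ, -c ≤ (y * w ^ m).re := by
  refine ⟨mem_closedBall_zero_iff.1 (convexHull_min ?_ (convex_closedBall _ _) hy), fun m =>
    convexHull_min (t := {y | -c ≤ (y * w ^ m).re}) ?_
      (convex_halfSpace_ge ⟨fun _ _ => by simp [add_mul], fun _ _ => by simp [mul_assoc]⟩ _) hy⟩
  · rintro _ ⟨k, rfl⟩
    exact mem_closedBall_zero_iff.2 (norm_w k).le
  · rintro _ ⟨k, rfl⟩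
    simpa only [mem_ofPred_eq, ← pow_add] using (w_re _).1

theorem geo (m : ℕ) : ∑ n ∈ Finset.range 7, (w ^ m) ^ n = if m % 7 = 0 then 7 else 0 := by
  split_ifs with h
  · rw [w_mod, h]; simp
  · rw [geom_sum_eq (fun e => by simpa [e] using (w_re m).2 h), ← pow_mul, mul_comm, pow_mul, w7]
    simp

theorem cw {m n : ℕ} (h : (m + n) % 7 = 0) : conj (w ^ m) = w ^ n := by
  have h1 : w ^ m * conj (w ^ m) = 1 := by
    rw [Complex.mul_conj, Complex.normSq_eq_norm_sq, norm_w]; simp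
  have h2 : w ^ m * w ^ n = 1 := by rw [← pow_add, w_mod, h, pow_zero]
  exact mul_left_cancel₀ (left_ne_zero_of_mul_eq_one h1) (h1.trans h2.symm)

theorem solve {u v : ℂ} {e : ℝ} (e1 : e ≤ 0.01) (hu : ‖u‖ ≤ e) (hv : ‖v‖ ≤ e) {p q : ℂ}
    (hp : ‖p‖ ≤ e) (hq : ‖q‖ ≤ e) : ∃ x y : ℂ, ‖x‖ ≤ 2 * e ∧ ‖y‖ ≤ 2 * e ∧
      (1 + u) * x + v * conj y = p ∧ (1 + u) * y + v * conj x = q := by
  have e0 := (norm_nonneg _).trans hu
  have h1 : 1 - e ≤ ‖1 + u‖ := by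
    have := norm_sub_le (1 + u) u
    rw [add_sub_cancel_right, norm_one] at this
    linarith
  have h2 : ‖1 + u‖ ≤ 1 + e := (norm_add_le _ _).trans (by rw [norm_one]; linarith)
  generalize 1 + u = b at *
  have h3 : 0.9 ≤ ‖b‖ ^ 2 - ‖v‖ ^ 2 := by nlinarith [norm_nonneg v]
  have h4 : ((‖b‖ ^ 2 - ‖v‖ ^ 2 : ℝ) : ℂ) = b * conj b - v * conj v := by
    simp [Complex.mul_conj, Complex.normSq_eq_norm_sq]
  generalize ‖b‖ ^ 2 - ‖v‖ ^ 2 = Δ at *
  have h5 : (Δ : ℂ) ≠ 0 := by exact_mod_cast (by linarith : Δ ≠ 0)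
  have n : ∀ p q : ℂ, ‖p‖ ≤ e → ‖q‖ ≤ e → ‖(conj b * p - v * conj q) / Δ‖ ≤ 2 * e := by
    intro p q hp hq
    rw [norm_div, Complex.norm_real, Real.norm_of_nonneg (by linarith), div_le_iff₀ (by linarith)]
    refine (norm_sub_le _ _).trans ?_
    rw [norm_mul, norm_mul, Complex.norm_conj, Complex.norm_conj]
    have := mul_le_mul h2 hp (norm_nonneg _) (by linarith)
    have := mul_le_mul hv hq (norm_nonneg _) e0
    nlinarith
  have k : ∀ p q : ℂ, b * ((conj b * p - v * conj q) / Δ) +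
      v * conj ((conj b * q - v * conj p) / Δ) = p := by
    intro p q
    simp only [map_div₀, map_sub, map_mul, Complex.conj_conj, Complex.conj_ofReal]
    field_simp
    linear_combination -p * h4
  exact ⟨_, _, n p q hp hq, n q p hq hp, k p q, k q p⟩

theorem vertex {y : ℂ} (hy : y ∈ Hc) (k : ℕ) {ε : ℝ} (h : 1 - 2 * ε ≤ (y * w ^ (6 * k)).re) :
    ‖y - w ^ k‖ ≤ 7 * ε := by
  obtain ⟨h1, h2⟩ := Hc_bd hy
  have a1 := h2 (6 * k + 3)
  have a2 := h2 (6 * k + 4)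
  have a3 : ‖y - w ^ k‖ = ‖y * w ^ (6 * k) - 1‖ := by
    rw [← mul_one ‖y - w ^ k‖, ← norm_w (6 * k), ← norm_mul, sub_mul, ← pow_add,
      show k + 6 * k = 7 * k by ring, pow_mul w 7, w7, one_pow]
  have a4 : (y * w ^ (6 * k)).re ≤ 1 :=
    (Complex.re_le_norm _).trans (by rwa [norm_mul, norm_w, mul_one])
  rw [pow_add, ← mul_assoc] at a1 a2
  rw [a3]
  generalize y * w ^ (6 * k) = z at *
  have b := tb_cl.2.2.2.1.2.2.1
  simp only [w_tb, tb, Nat.reduceMod, Complex.mul_re] at a1 a2 b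
  generalize (2 + 2 * c - 4 * c ^ 2) * s = σ at *
  have b1 := mul_le_mul_of_nonneg_right c_bd.2 (sub_nonneg.2 a4)
  refine (Complex.norm_le_abs_re_add_abs_im _).trans ?_
  rw [Complex.sub_re, Complex.sub_im, Complex.one_re, Complex.one_im, sub_zero,
    abs_of_nonpos (sub_nonpos.2 a4)]
  rcases abs_cases z.im with ⟨e, p⟩ | ⟨e, p⟩ <;> rw [e] <;> nlinarith

theorem normal {K : Set ℂ} (hc : IsCompact K) (hK : Convex ℝ K) {ε : ℝ} (e1 : ε ≤ 0.001)
    (h1 : ∀ z ∈ K, ∃ y ∈ Hc, ‖z - y‖ ≤ ε) (h2 : ∀ j : ℕ, ∃ z ∈ K, ‖z - w ^ j‖ ≤ ε) :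
    ∃ (b u v : ℂ) (a : E), b ∈ K ∧ ‖v‖ < ‖u‖ ∧ ‖a‖ ≤ 16 * ε ∧
      (∀ j, b + (u * Gam a j + v * conj (Gam a j)) ∈ K) ∧
      (∀ z, b + (u * z + v * conj z) ∈ K → ‖z‖ ≤ 2 ∧ ∀ m : ℕ, -c - 48 * ε ≤ (z * w ^ m).re) ∧
      ∀ k : ℕ, ∃ ϑ : ℝ, |ϑ| ≤ 24 * ε ∧ ∀ z, b + (u * (w ^ k * z) + v * conj (w ^ k * z)) ∈ K →
        z.re + ϑ * z.im ≤ (Gam (rho k a) 0).re + ϑ * (Gam (rho k a) 0).im := by
  obtain ⟨z0, hz0, e0⟩ := h2 0
  replace e0 := (norm_nonneg _).trans e0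
  choose W hW mW using fun k : ℕ => hc.exists_isMaxOn ⟨z0, hz0⟩
    (f := fun z => (z * w ^ (6 * k)).re) (by fun_prop)
  have re : ∀ (x y : ℂ) (m : ℕ) (t : ℝ), ‖x - y‖ ≤ t → (y * w ^ m).re - t ≤ (x * w ^ m).re := by
    intro x y m t h
    have := (abs_le.1 ((Complex.abs_re_le_norm ((x - y) * w ^ m)).trans (c := t)
      (by rwa [norm_mul, norm_w, mul_one]))).1
    rw [sub_mul, Complex.sub_re] at this
    linarith
  have nW : ∀ k, ‖W k - w ^ k‖ ≤ 8 * ε := fun k => by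
    obtain ⟨z, hz, a1⟩ := h2 k
    obtain ⟨y, hy, a2⟩ := h1 _ (hW k)
    have a3 := re _ _ (6 * k) _ a1
    have a4 := re y (W k) (6 * k) ε (by rwa [norm_sub_rev])
    have a5 : (z * w ^ (6 * k)).re ≤ (W k * w ^ (6 * k)).re := mW k hz
    rw [← pow_add, show k + 6 * k = 7 * k by ring, pow_mul w 7, w7, one_pow, Complex.one_re] at a3
    linarith [vertex hy k (ε := ε) (by linarith), norm_sub_le_norm_sub_add_norm_sub (W k) y (w ^ k)]
  obtain ⟨d, hd⟩ : ∃ d : ℕ → ℂ, d = fun n =>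
    (∑ i ∈ Finset.range 7, (W i - w ^ i) * (w ^ (6 * i)) ^ n) / 7 := ⟨_, rfl⟩
  have nd : ∀ n, ‖d n‖ ≤ 8 * ε := fun n => by
    rw [hd, norm_div, Complex.norm_ofNat, div_le_iff₀ (by norm_num)]
    refine (norm_sum_le_of_le _ (n := fun _ => 8 * ε) fun i _ => ?_).trans (by simp [mul_comm])
    rw [norm_mul, ← pow_mul, norm_w, mul_one]
    exact nW i
  have inv : ∀ j < 7, ∑ n ∈ Finset.range 7, d n * (w ^ j) ^ n = W j - w ^ j := by
    intro j hj
    simp only [hd, div_mul_eq_mul_div, ← Finset.sum_div, Finset.sum_mul]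
    rw [Finset.sum_comm]
    simp only [mul_assoc, ← mul_pow, ← pow_add, ← Finset.mul_sum, geo]
    rw [Finset.sum_eq_single j (fun i hi hij => by
      rw [if_neg (by rw [Finset.mem_range] at hi; omega), mul_zero])
      (fun h => absurd (Finset.mem_range.2 hj) h), if_pos (by omega)]
    ring
  obtain ⟨x2, x5, n2, n5, E2, E5⟩ := solve (by linarith) (nd 1) (nd 6) (nd 2) (nd 5)
  obtain ⟨x3, x4, n3, n4, E3, E4⟩ := solve (by linarith) (nd 1) (nd 6) (nd 3) (nd 4)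
  have TG : ∀ j, d 0 + ((1 + d 1) * Gam (x2, x3, x5, x4) j + d 6 * conj (Gam (x2, x3, x5, x4) j))
      = W (j % 7) := fun j => by
    have := inv _ (Nat.mod_lt j (by norm_num : 0 < 7))
    rw [← w_mod] at this
    simp only [Gam, map_add, map_mul, cw (m := j) (n := 6 * j) (by omega),
      cw (m := 2 * j) (n := 5 * j) (by omega), cw (m := 3 * j) (n := 4 * j) (by omega),
      cw (m := 5 * j) (n := 2 * j) (by omega), cw (m := 4 * j) (n := 3 * j) (by omega)]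
    simp only [Finset.sum_range_succ, Finset.sum_range_zero] at this
    linear_combination this + w ^ (2 * j) * E2 + w ^ (3 * j) * E3 + w ^ (4 * j) * E4 +
      w ^ (5 * j) * E5
  refine ⟨d 0, 1 + d 1, d 6, (x2, x3, x5, x4), ?_, ?_, ?_, fun j => TG j ▸ hW _, fun z hz => ?_,
    fun k => ?_⟩
  · have g := geo 1
    have := hK.sum_mem (t := Finset.range 7) (w := fun _ => (1 / 7 : ℝ)) (z := W)
      (fun _ _ => by norm_num) (by simp) fun i _ => hW i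
    convert this using 1
    simp only [hd, pow_zero, mul_one, Finset.sum_sub_distrib, pow_one, ← Finset.smul_sum] at g ⊢
    rw [g]
    simp [div_eq_inv_mul]
  · have := norm_sub_le (1 + d 1) (d 1)
    rw [add_sub_cancel_right, norm_one] at this
    linarith [nd 1, nd 6]
  · simp only [Prod.norm_def, max_le_iff]
    refine ⟨?_, ?_, ?_, ?_⟩ <;> linarith
  · obtain ⟨y, hy, a1⟩ := h1 _ hz
    obtain ⟨a2, a3⟩ := Hc_bd hy
    have a4 : ‖z - y‖ ≤ 9 * ε + 16 * ε * ‖z‖ := by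
      rw [show z - y = (d 0 + ((1 + d 1) * z + d 6 * conj z) - y) - d 0 - d 1 * z - d 6 * conj z by
        ring]
      refine (norm_sub_le _ _).trans ((add_le_add_left ((norm_sub_le _ _).trans
        (add_le_add_left (norm_sub_le _ _) _)) _).trans ?_)
      rw [norm_mul, norm_mul, Complex.norm_conj]
      linarith [nd 0, mul_le_mul_of_nonneg_right (nd 1) (norm_nonneg z),
        mul_le_mul_of_nonneg_right (nd 6) (norm_nonneg z)]
    have a5 : ‖z‖ ≤ 2 := by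
      linarith [norm_le_norm_add_norm_sub' z y, mul_le_mul_of_nonneg_right e1 (norm_nonneg z)]
    exact ⟨a5, fun m => by
      linarith [re _ _ m _ a4, a3 m, mul_le_mul_of_nonneg_left a5 e0]⟩
  have nb : ‖d 6 * w ^ (12 * k)‖ ≤ 8 * ε := by rw [norm_mul, norm_w, mul_one]; exact nd 6
  have ev : ∀ z : ℂ, ((d 0 + ((1 + d 1) * (w ^ k * z) + d 6 * conj (w ^ k * z))) *
      w ^ (6 * (k % 7))).re = (d 0 * w ^ (6 * k)).re +
      ((1 + (d 1).re + (d 6 * w ^ (12 * k)).re) * z.re +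
        ((d 6 * w ^ (12 * k)).im - (d 1).im) * z.im) := fun z => by
    rw [mul_comm 6 (k % 7), pow_mul, ← w_mod, map_mul, cw (m := k) (n := 6 * k) (by omega),
      show (d 0 + ((1 + d 1) * (w ^ k * z) + d 6 * (w ^ (6 * k) * conj z))) * (w ^ k) ^ 6 =
        d 0 * w ^ (6 * k) + ((1 + d 1) * z * (w ^ 7) ^ k + d 6 * w ^ (12 * k) * conj z) by ring,
      w7, one_pow, mul_one]
    generalize d 6 * w ^ (12 * k) = β, d 0 * w ^ (6 * k) = γ
    simp
    ring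
  obtain ⟨p1, -⟩ := abs_le.1 ((Complex.abs_re_le_norm _).trans nb)
  obtain ⟨p2, p3⟩ := abs_le.1 ((Complex.abs_im_le_norm _).trans nb)
  obtain ⟨p4, -⟩ := abs_le.1 ((Complex.abs_re_le_norm _).trans (nd 1))
  obtain ⟨p5, p6⟩ := abs_le.1 ((Complex.abs_im_le_norm _).trans (nd 1))
  have m0 : 0.9 ≤ 1 + (d 1).re + (d 6 * w ^ (12 * k)).re := by linarith
  have m1 := mul_le_mul_of_nonneg_left m0 e0
  refine ⟨((d 6 * w ^ (12 * k)).im - (d 1).im) / (1 + (d 1).re + (d 6 * w ^ (12 * k)).re),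
    abs_le.2 ⟨by rw [le_div_iff₀ (by linarith)]; linarith,
      by rw [div_le_iff₀ (by linarith)]; linarith⟩, fun z hz => ?_⟩
  have q : _ ≤ (W (k % 7) * w ^ (6 * (k % 7))).re := mW (k % 7) hz
  rw [← TG, ← zero_add k, ← Gam_rot, zero_add k, ev] at q
  simp only [ev] at q
  refine le_of_mul_le_mul_left ?_ (by linarith : 0 < 1 + (d 1).re + (d 6 * w ^ (12 * k)).re)
  field_simp
  linarith

end Pool.Agent.MP_5c967c_co.H80L
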